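import Pool.Agent.Helper57.DY.NGr4
import Pool.Agent.Helper62.DY.CaseI
import Pool.Agent.Helper9.DY.Sq

/-!
# Single-root lemma for NG, `F` beyond the lines of `t`, `h` (MP_d13a5e_al, block (1c))

`R g x1 x2` are the coordinates of a root, `h = h1 d1 + h2 d2` a root, `c = b1 h1 + b2 h2 ≥ 1`,
`e = c - sqrt (c ^ 2 - 1)`, `x = g t + η h + ζ d2`, `u = g - e η`.
-/

set_option autoImplicit false

namespace Pool.Agent.Helper57.DY

open _root_.DY (Z1 sq sq_zero sq_one sq_two sq_succ sq_norm sq_cassini sq_diff_le sq_mono)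
open Pool.Agent.Helper62.DY (RT)

variable {b1 b2 bO : ℝ} {R : ℝ → ℝ → ℝ → Prop}

theorem rt_b1s (h : RT b1 b2 bO R) : 2 * b1 = 0 ∨ 2 * b1 = 1 ∨ (1 ≤ 2 * b1 ∧ 2 ≤ (2 * b1) ^ 2) := by
  rcases h.swap0.bOs with h1 | h1 | h1
  · exact Or.inl h1
  · exact Or.inr (Or.inl h1)
  · refine Or.inr (Or.inr ⟨?_, h1⟩)
    have := h.b1n
    nlinarith

theorem rt_b2s (h : RT b1 b2 bO R) : 2 * b2 = 0 ∨ 2 * b2 = 1 ∨ (1 ≤ 2 * b2 ∧ 2 ≤ (2 * b2) ^ 2) :=
  rt_b1s h.swap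

/-- data of the root `h` -/
structure HD (l1 l lO h1 h2 s e : ℝ) : Prop where
  hh1 : 1 ≤ h1
  hh2 : 1 ≤ h2
  h1s : h1 = 1 ∨ (1 ≤ h1 ∧ 2 ≤ h1 ^ 2)
  h2s : h2 = 1 ∨ (1 ≤ h2 ∧ 2 ≤ h2 ^ 2)
  hs : s = 0 ∨ 1 ≤ s
  nh : h1 ^ 2 = 1 + h2 * s
  hO : lO * h1 = h2 + s
  hO0 : 0 < lO
  he : 0 < e
  he1 : e ≤ 1
  hce : e ^ 2 + 1 = (l1 * h1 + l * h2) * e

theorem hd_of (hR : RT b1 b2 bO R) {h1 h2 e : ℝ} (hh : R 0 h1 h2) (hh1 : 1 ≤ h1) (hh2 : 1 ≤ h2)
    (he : 0 < e) (he1 : e ≤ 1) (hce : e ^ 2 + 1 = (2 * b1 * h1 + 2 * b2 * h2) * e) :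
    HD (2 * b1) (2 * b2) (2 * bO) h1 h2 (2 * bO * h1 - h2) e := by
  have n0 := hR.n _ _ _ hh
  have r2 := (hR.z1 (hR.r2 _ _ _ hh) (by linarith)).2.2
  have r1 := (hR.z2 (hR.r1 _ _ _ hh) (by linarith)).2.1
  have e2 : 2 * b2 * 0 + 2 * bO * h1 - h2 = 2 * bO * h1 - h2 := by ring
  have e1 : 2 * b1 * 0 + 2 * bO * h2 - h1 = 2 * bO * h2 - h1 := by ring
  rw [e2] at r2
  rw [e1] at r1
  have hs0 : 0 ≤ 2 * bO * h1 - h2 := by rcases r2 with h | h <;> linarith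
  have nh : h1 ^ 2 = 1 + h2 * (2 * bO * h1 - h2) := by linarith
  have nh' : h2 ^ 2 = 1 + h1 * (2 * bO * h2 - h1) := by linarith
  have hO : 2 * bO * h1 = h2 + (2 * bO * h1 - h2) := by ring
  refine ⟨hh1, hh2, ?_, ?_, r2, nh, hO, ?_, he, he1, hce⟩
  · rcases r2 with h | h
    · left
      exact eq_one_of_sq hh1 (by rw [nh, h]; ring)
    · right
      have := mul_le_mul hh2 h (by norm_num) (by linarith)
      exact ⟨hh1, by linarith⟩
  · rcases r1 with h | h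
    · left
      exact eq_one_of_sq hh2 (by rw [nh', h]; ring)
    · right
      have := mul_le_mul hh1 h (by norm_num) (by linarith)
      exact ⟨hh2, by linarith⟩
  · have h3 : 0 < 2 * bO * h1 := by linarith
    exact (mul_pos_iff_of_pos_right (by linarith)).1 h3

/-- the norm equation in the coordinates `u`, `ζ` -/
theorem norm_uz {l1 l lO h1 h2 s e g x1 x2 η ζ u : ℝ} (H : HD l1 l lO h1 h2 s e)
    (hx1 : x1 = h1 * η) (hx2 : x2 = ζ + h2 * η) (hg : g = u + e * η)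
    (hn : g ^ 2 + x1 ^ 2 + x2 ^ 2 - l1 * g * x1 - l * g * x2 - lO * x1 * x2 = 1) :
    u ^ 2 + ζ ^ 2 - l * u * ζ - 1 =
      η * ((l1 * h1 + l * h2 - 2 * e) * u + (l * e + s - h2) * ζ) := by
  have h1' := H.nh
  have h2' := H.hO
  have h3' := H.hce
  rw [hx1, hx2, hg] at hn
  linear_combination hn - η ^ 2 * h1' - η ^ 2 * h3' + (η * ζ + h2 * η ^ 2) * h2'

/-- **single-root lemma, `j = 2`** (`F` in the first strip of the pencil of `t` and `d2`) -/
theorem single2 (hR : RT b1 b2 bO R) {h1 h2 e g x1 x2 η ζ : ℝ} (hh : R 0 h1 h2) (hh1 : 1 ≤ h1)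
    (hh2 : 1 ≤ h2) (he : 0 < e) (he1 : e ≤ 1) (hce : e ^ 2 + 1 = (2 * b1 * h1 + 2 * b2 * h2) * e)
    (hx : R g x1 x2) (hg : 1 ≤ g) (hx1 : 1 ≤ x1) (e1 : x1 = h1 * η) (e2 : x2 = ζ + h2 * η) (hζ : 0 < ζ)
    (hl : 1 ≤ 2 * b2) (hlh : 2 * b2 * (h2 * e) ≤ 1) (hu0 : 0 < g - e * η)
    (hH : h2 * e * ζ ≤ g - e * η) :
    1 ≤ g - e * η ∨ (2 * b2 = 1 ∧ h1 = 1 ∧ h2 = 1 ∧ g = 2 * b1 ∧ x1 = (2 * b1) ^ 2 - 1 ∧
      2 * b2 * g + 2 * bO * x1 - x2 = 0) := by
  have H := hd_of hR hh hh1 hh2 he he1 hce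
  obtain ⟨s, hs⟩ : ∃ s, s = 2 * bO * h1 - h2 := ⟨_, rfl⟩
  rw [← hs] at H
  have hs0 : 0 ≤ s := by rcases H.hs with h | h <;> linarith
  have hη : 0 < η := by
    have : 0 < h1 * η := by rw [← e1]; linarith
    exact (mul_pos_iff_of_pos_left (by linarith)).1 this
  have n := hR.n _ _ _ hx
  have n' := norm_uz (x1 := x1) (x2 := x2) (g := g) (u := g - e * η) H e1 e2 (by ring) (by linarith)
  have r2 := hR.r2 _ _ _ hx
  have z2 := (hR.z1 r2 (by linarith)).2.2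
  have hQ : h2 * e ^ 2 ≤ 2 * b2 * e + s := by
    have a1 : (2 * b2 * (h2 * e)) * e ≤ 1 * e := mul_le_mul_of_nonneg_right hlh he.le
    have a2 : 1 * (h2 * e ^ 2) ≤ 2 * b2 * (h2 * e ^ 2) := by
      refine mul_le_mul_of_nonneg_right hl ?_
      have := H.hh2
      positivity
    have a3 : 1 * e ≤ 2 * b2 * e := mul_le_mul_of_nonneg_right hl he.le
    nlinarith
  rcases z2 with h | h
  · -- x2^* = 0
    have hl2 : 2 * b2 = 1 ∨ (1 ≤ 2 * b2 ∧ 2 ≤ (2 * b2) ^ 2) := by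
      rcases rt_b2s hR with h' | h' | h'
      · linarith
      · exact Or.inl h'
      · exact Or.inr h'
    have hl1 : 2 * b1 = 0 ∨ 2 * b1 = 1 ∨ 2 ≤ (2 * b1) ^ 2 := by
      rcases rt_b1s hR with h' | h' | h'
      · exact Or.inl h'
      · exact Or.inr (Or.inl h')
      · exact Or.inr (Or.inr h'.2)
    have n2 := hR.n _ _ _ r2
    rw [h] at r2 n2
    have r21 := hR.r1 _ _ _ r2
    have z21 := (hR.z0 r21 (by linarith)).2.1
    have f1 : 2 * b1 * g + 2 * bO * 0 - x1 = 2 * b1 * g - x1 := by ring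
    rw [f1] at r21 z21
    have hζ' : ζ = 2 * b2 * g + s * η := by
      have : x2 = 2 * b2 * g + 2 * bO * x1 := by linarith
      rw [e2, e1] at this
      rw [hs]
      linear_combination this
    rw [hζ'] at hH
    rcases j2_zero (g := g) (x1 := x1) hl1 (by have := hR.b1n; linarith) hl2 H.h1s H.h2s H.nh he he1 hce e1 hg
      hx1 (by linarith) hH z21 (fun h3 => by
        have r210 := hR.r0 _ _ _ r21
        have z210 := (hR.z1 r210 (by linarith)).1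
        have f2 : 2 * b1 * (2 * b1 * g - x1) + 2 * b2 * 0 - g = 2 * b1 * (2 * b1 * g - x1) - g := by ring
        rw [f2] at z210
        exact z210) with h3 | ⟨h3, h4, h5, h6, h7⟩
    · exact Or.inl h3
    · exact Or.inr ⟨h3, h4, h5, h6, h7, h⟩
  · left
    refine j2_pos hl hs0 he he1 hce hζ hη hH hu0 hQ n' ?_
    have f1 : 1 + (ζ - 2 * b2 * (g - e * η)) = 1 - (2 * b2 * g + 2 * bO * x1 - x2) +
        (2 * b2 * e + s) * η := by
      rw [e1, e2, hs]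
      ring
    rw [f1]
    linarith

/-- **single-root lemma, `j = 3`** -/
theorem single3 (hR : RT b1 b2 bO R) {h1 h2 e g x1 x2 η ζ : ℝ} (hh : R 0 h1 h2) (hh1 : 1 ≤ h1)
    (hh2 : 1 ≤ h2) (he : 0 < e) (he1 : e ≤ 1) (hce : e ^ 2 + 1 = (2 * b1 * h1 + 2 * b2 * h2) * e)
    (hx : R g x1 x2) (hx1 : 1 ≤ x1) (e1 : x1 = h1 * η) (e2 : x2 = ζ + h2 * η) (hζ : 0 < ζ)
    (hl0 : 0 < 2 * b2) (hl : 2 ≤ (2 * b2) ^ 2) (hκ : ζ ≤ 2 * b2 * (g - e * η))
    (hH : h2 * e * ζ ≤ g - e * η) :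
    2 * b2 + 1 ≤ (2 * b2 + 1) * (g - e * η) - ζ ∨ (2 * b1 = 1 ∧ h1 = 1 ∧ h2 = 1 ∧ x1 = 1 ∧
      g = 2 * b1 * x1 + 2 * b2 ∧ 2 * b2 * g + 2 * bO * x1 - x2 = 1) := by
  have H := hd_of hR hh hh1 hh2 he he1 hce
  obtain ⟨s, hs⟩ : ∃ s, s = 2 * bO * h1 - h2 := ⟨_, rfl⟩
  rw [← hs] at H
  have hs0 : 0 ≤ s := by rcases H.hs with h | h <;> linarith
  have hη : 0 < η := by
    have : 0 < h1 * η := by rw [← e1]; linarith
    exact (mul_pos_iff_of_pos_left (by linarith)).1 this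
  have n := hR.n _ _ _ hx
  have n' := norm_uz (x1 := x1) (x2 := x2) (g := g) (u := g - e * η) H e1 e2 (by ring) (by linarith)
  obtain ⟨l1, hl1d⟩ : ∃ l1, l1 = 2 * b1 := ⟨_, rfl⟩
  obtain ⟨l, hld⟩ : ∃ l, l = 2 * b2 := ⟨_, rfl⟩
  obtain ⟨lO, hlOd⟩ : ∃ lO, lO = 2 * bO := ⟨_, rfl⟩
  obtain ⟨u, hu⟩ : ∃ u, u = g - e * η := ⟨_, rfl⟩
  obtain ⟨w, hw⟩ : ∃ w, w = l * u - ζ := ⟨_, rfl⟩
  obtain ⟨y, hy⟩ : ∃ y, y = l * g + lO * x1 - x2 := ⟨_, rfl⟩
  have r2 := hR.r2 _ _ _ hx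
  have z2 := (hR.z1 r2 (by linarith)).2.2
  have hQ : h2 * e ^ 2 ≤ l * e + s := by
    have a1 : l * (h2 * e ^ 2) ≤ l * (l * e) := by
      have b1' := H.hce
      have b2' : 0 ≤ (2 * b1 * h1) * e := by
        have := hR.b1n
        have := H.hh1
        positivity
      have b3 : e ^ 2 ≤ 1 := by nlinarith
      have b4 : l * (h2 * e ^ 2) = e * (e ^ 2 + 1) - ((2 * b1 * h1) * e) * e := by
        rw [hld]
        linear_combination (-e) * b1'
      have b5 : 0 ≤ ((2 * b1 * h1) * e) * e := mul_nonneg b2' he.le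
      have b6 : e * (e ^ 2 + 1) ≤ e * l ^ 2 := mul_le_mul_of_nonneg_left (by rw [hld]; linarith) he.le
      rw [b4]
      linarith
    have a2 := le_of_mul_le_mul_left a1 (by linarith)
    linarith
  rw [← hl1d, ← hld, ← hlOd] at H
  rw [← hu, ← hl1d, ← hld] at n'
  rw [← hl1d, ← hld, ← hlOd] at n
  rw [← hu] at hH
  rw [← hu, ← hld] at hκ
  rw [← hld, ← hlOd, ← hy] at r2 z2
  rw [← hld] at hl hl0
  rw [← hld, ← hu, ← hl1d, ← hlOd, ← hy]
  have hw0 : 0 ≤ w := by rw [hw]; linarith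
  have hLam := lam_nonneg he he1 H.hce hζ.le hH hQ
  have hyw : y = w + (l * e + s) * η := by
    have f1 := H.hO
    rw [hy, hw, e1, e2, hu]
    linear_combination η * f1
  have hes : 0 < (l * e + s) * η := mul_pos (add_pos_of_pos_of_nonneg (mul_pos hl0 he) hs0) hη
  have hy1 : 1 ≤ y := by
    rcases z2 with h | h
    · exfalso
      linarith
    · exact h
  have r0 := hR.r0 _ _ _ r2
  have z0 := (hR.z1 r0 (by linarith)).1
  have hg : g = u + e * η := by rw [hu]; ring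
  have hζw : ζ = l * u - w := by rw [hw]; ring
  have goal' : l + 1 ≤ u + w → l + 1 ≤ (l + 1) * u - ζ := by
    intro h
    rw [hζw]
    linarith
  rw [← hl1d, ← hld] at r0 z0
  rcases z0 with h | h
  · -- a4 = 0
    rw [h] at r0
    have m0 := hR.n _ _ _ r0
    have hg' : g = l1 * x1 + l * y := by linarith
    have r01 := hR.r1 _ _ _ r0
    have z01 := (hR.z2 r01 (by linarith)).2.1
    have r02 := hR.r2 _ _ _ r0
    have z02 := (hR.z1 r02 (by linarith)).2.2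
    rw [← hlOd] at r01 z01 r02 z02
    have f1 : 2 * b1 * 0 + lO * y - x1 = lO * y - x1 := by ring
    have f2 : 2 * b2 * 0 + lO * x1 - y = lO * x1 - y := by ring
    rw [f1] at r01 z01
    rw [f2] at r02 z02
    have z1' : 0 ≤ lO * x1 - y := by rcases z02 with h' | h' <;> linarith
    have hlb1 : l1 = 0 ∨ l1 = 1 ∨ (1 ≤ l1 ∧ 2 ≤ l1 ^ 2) := by rw [hl1d]; exact rt_b1s hR
    have hwy : w = y - (l * e + s) * η := by linarith
    have huy : u = l1 * x1 + l * y - e * η := by linarith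
    rcases j3_zero4 (x1 := x1) (y := y) hlb1 hl hl0 H.hh1 H.h2s H.hs H.nh H.hO H.hO0 he he1 H.hce e1 hx1
      (by rw [hlOd]; linarith) z2 (fun _ => z01) z1' (fun h3 => by
        have r3 := hR.r2 _ _ _ r01
        have z3 := (hR.z1 r3 (by linarith)).2.2
        rw [← hlOd] at z3
        have f3 : 2 * b2 * 0 + lO * (lO * y - x1) - y = lO * (lO * y - x1) - y := by ring
        rw [f3] at z3
        exact z3) (by rw [← hwy]; exact hw0)
      (by rw [← hwy, ← huy, ← hζw]; exact hH) with h3 | ⟨h3, h4, h5, h6, h7⟩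
    · left
      rw [← hwy, ← huy] at h3
      exact goal' h3
    · right
      refine ⟨h3, h4, h5, h6, ?_, h7⟩
      rw [hg', h7, mul_one]
  · -- a4 ≥ 1
    left
    refine goal' ?_
    have hN2 : u ^ 2 + w ^ 2 - l * u * w - 1 =
        η * ((l1 * h1 + l * s + (l ^ 2 - 2) * e) * u - (l * e + s - h2) * w) := by
      rw [hζw] at n'
      linear_combination n'
    have hL2 : 0 ≤ (l1 * h1 + l * s + (l ^ 2 - 2) * e) * u - (l * e + s - h2) * w := by
      rw [hζw] at hLam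
      have : (l1 * h1 + l * s + (l ^ 2 - 2) * e) * u - (l * e + s - h2) * w =
        (l1 * h1 + l * h2 - 2 * e) * u + (l * e + s - h2) * (l * u - w) := by ring
      rw [this]
      exact hLam
    have hA : 1 + (u - l * w) ≤ ((l1 * h1 + l * s + (l ^ 2 - 2) * e) + e) * η := by
      have : ((l1 * h1 + l * s + (l ^ 2 - 2) * e) + e) * η = (l1 * x1 + l * y - g) + (u - l * w) := by
        rw [hyw, hg, e1]
        ring
      rw [this]
      linarith
    have hζ' : 0 < l * u - w := by rw [← hζw]; exact hζ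
    have hl1c : l1 = 0 ∨ 1 ≤ l1 := by
      rw [hl1d]
      rcases rt_b1s hR with h' | h' | h'
      · exact Or.inl h'
      · exact Or.inr h'.ge
      · exact Or.inr h'.1
    rcases hl1c with hc | hc
    · rcases H.hs with hs' | hs'
      · -- `l1 = 0`, `s = 0`
        have hz := H_z he H.hce hH
        rw [hc, hs'] at hN2 hL2 hA
        rw [hc] at hz
        have f1 : 0 * h1 + l * 0 + (l ^ 2 - 2) * e = (l ^ 2 - 2) * e := by ring
        have f2 : l * e + 0 - h2 = l * e - h2 := by ring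
        rw [f1] at hN2 hL2 hA
        rw [f2] at hN2 hL2
        refine j3_zero hl hl0 he hw0 hζ' hη hL2 hN2 hA ?_
        have f3 : ζ - l * u = -w := by rw [hζw]; ring
        rw [f3] at hz
        linarith
      · have hce' := H.hce
        rw [hc] at hce' hN2 hL2 hA
        obtain ⟨k1, k2, k3, k4⟩ := c1_s hl hl0 H.hh2 hs' he he1 hce'
        exact j3_main hl hl0 he.le hw0 hζ' hη hL2 hN2 hA k1 k2 k3 k4
    · obtain ⟨k1, k2, k3, k4⟩ := c1_one hc hl hl0 H.hh1 H.hh2 hs0 he he1 H.hce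
      exact j3_main hl hl0 he.le hw0 hζ' hη hL2 hN2 hA k1 k2 k3 k4

/-- the identity `s_(n+2) ^ 2 - s_2 ^ 2 = s_n s_(n+4)` -/
theorem sq_id2 (b : ℝ) (n : ℕ) : sq b (n + 2) ^ 2 - (2 * b) ^ 2 = sq b n * sq b (n + 4) := by
  have h0 := sq_norm b n
  have h1 := sq_succ b n
  have h2 : sq b (n + 3) = 2 * b * sq b (n + 2) - sq b (n + 1) := sq_succ b (n + 1)
  have h3 : sq b (n + 4) = 2 * b * sq b (n + 3) - sq b (n + 2) := sq_succ b (n + 2)
  rw [h3, h2, h1]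
  linear_combination (4 * b ^ 2) * h0

theorem sq_ge_l {b : ℝ} (_ : 0 ≤ b) {n : ℕ} (h0 : 0 ≤ sq b n) (h2 : 0 ≤ sq b (n + 2))
    (h4 : 0 ≤ sq b (n + 4)) : 2 * b ≤ sq b (n + 2) := by
  have h := sq_id2 b n
  have h5 := mul_nonneg h0 h4
  exact le_of_sq_le_sq (by linarith) h2

theorem one_lt_of_sq {l : ℝ} (hl : 0 ≤ l) (h : 2 ≤ l ^ 2) : 1 < l := by nlinarith

theorem p5_ge {l : ℝ} (hl : 2 ≤ l ^ 2) (h : 1 ≤ l ^ 4 - 3 * l ^ 2 + 1) : 3 ≤ l ^ 2 := by
  have h1 : 0 ≤ l ^ 2 * (l ^ 2 - 3) := by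
    have : l ^ 2 * (l ^ 2 - 3) = l ^ 4 - 3 * l ^ 2 := by ring
    rw [this]
    linarith
  have := (mul_nonneg_iff_of_pos_left (by linarith : 0 < l ^ 2)).1 h1
  linarith

theorem p5_zero {l : ℝ} (hl : 1 ≤ l) (h : l ^ 4 - 3 * l ^ 2 + 1 = 0) : l ^ 2 = l + 1 := by
  have h3 : (l ^ 2 + l - 1) * (l ^ 2 - l - 1) = 0 := by
    rw [← h]
    ring
  rcases mul_eq_zero.1 h3 with h4 | h4
  · exfalso
    nlinarith
  · linarith

/-- **single-root lemma, `j ≥ 4`** (`j = k + 2`) -/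
theorem single4 (hR : RT b1 b2 bO R) {h1 h2 e g x1 x2 η ζ : ℝ} (hh : R 0 h1 h2) (hh1 : 1 ≤ h1)
    (hh2 : 1 ≤ h2) (he : 0 < e) (he1 : e ≤ 1) (hce : e ^ 2 + 1 = (2 * b1 * h1 + 2 * b2 * h2) * e)
    (hx : R g x1 x2) (hx1 : 1 ≤ x1) (e1 : x1 = h1 * η) (e2 : x2 = ζ + h2 * η) (hζ : 0 < ζ)
    {k : ℕ} (hk : 2 ≤ k) (hs : ∀ n, 1 ≤ n → n ≤ k + 2 → 1 ≤ sq b2 n)
    (hκ : sq b2 k * ζ ≤ sq b2 (k + 1) * (g - e * η)) :
    sq b2 (k + 2) ≤ sq b2 (k + 2) * (g - e * η) - (sq b2 (k + 1) - 1) * ζ := by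
  have H := hd_of hR hh hh1 hh2 he he1 hce
  obtain ⟨s, hsd⟩ : ∃ s, s = 2 * bO * h1 - h2 := ⟨_, rfl⟩
  rw [← hsd] at H
  have hs0 : 0 ≤ s := by rcases H.hs with h | h <;> linarith
  have hη : 0 < η := by
    have : 0 < h1 * η := by rw [← e1]; linarith
    exact (mul_pos_iff_of_pos_left (by linarith)).1 this
  have n := hR.n _ _ _ hx
  have n' := norm_uz (x1 := x1) (x2 := x2) (g := g) (u := g - e * η) H e1 e2 (by ring) (by linarith)
  obtain ⟨m, rfl⟩ : ∃ m, k = m + 2 := ⟨k - 2, by omega⟩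
  have hb0 := hR.b2n
  have g0 : 0 ≤ sq b2 m := by
    rcases Nat.eq_zero_or_pos m with h | h
    · rw [h, sq_zero]
    · linarith [hs m h (by omega)]
  have g1 := hs (m + 1) (by omega) (by omega)
  have g2 := hs (m + 2) (by omega) (by omega)
  have g3 := hs (m + 3) (by omega) (by omega)
  have g4 := hs (m + 4) (by omega) (by omega)
  have s2 := hs 2 (by omega) (by omega)
  have s3 := hs 3 (by omega) (by omega)
  have s4 := hs 4 (by omega) (by omega)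
  have g5 : 0 ≤ sq b2 (m + 5) := hR.pnn (m + 3) (by linarith)
  have q3 := sq_succ b2 (m + 1)
  have q4 := sq_succ b2 (m + 2)
  have q2 := sq_succ b2 m
  have c2 := sq_cassini b2 (m + 2)
  have i1 : m + 1 + 2 = m + 3 := rfl
  have i2 : m + 1 + 1 = m + 2 := rfl
  have i3 : m + 2 + 2 = m + 4 := rfl
  have i4 : m + 2 + 1 = m + 3 := rfl
  rw [i1, i2] at q3
  rw [i3, i4] at q4 c2
  rw [i3, i4]
  rw [i4] at hκ
  have gl2 : 2 * b2 ≤ sq b2 (m + 2) := sq_ge_l hb0 g0 (by linarith) (by linarith)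
  have gl3 : 2 * b2 ≤ sq b2 (m + 3) := sq_ge_l hb0 (n := m + 1) (by linarith) (by linarith) g5
  have e2' : sq b2 2 = 2 * b2 := sq_two
  have e3' : sq b2 3 = (2 * b2) ^ 2 - 1 := by
    have : sq b2 3 = 2 * b2 * sq b2 2 - sq b2 1 := sq_succ b2 1
    rw [this, e2', sq_one]
    ring
  have e4' : sq b2 4 = 2 * b2 * ((2 * b2) ^ 2 - 2) := by
    have : sq b2 4 = 2 * b2 * sq b2 3 - sq b2 2 := sq_succ b2 2
    rw [this, e2', e3']
    ring
  have e5' : sq b2 5 = (2 * b2) ^ 4 - 3 * (2 * b2) ^ 2 + 1 := by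
    have : sq b2 5 = 2 * b2 * sq b2 4 - sq b2 3 := sq_succ b2 3
    rw [this, e4', e3']
    ring
  have hl1 : 1 ≤ 2 * b2 := by rw [← e2']; exact s2
  have hl2 : 2 ≤ (2 * b2) ^ 2 := by linarith
  have hlt : 1 < 2 * b2 := one_lt_of_sq (by linarith) hl2
  have hBC2 : sq b2 (m + 2) ≤ sq b2 (m + 4) ∨ (sq b2 (m + 2) ≤ sq b2 (m + 4) + 2 ∧ 2 * b2 ≤ 2) := by
    rcases le_or_gt 1 b2 with h | h
    · left
      exact sq_mono h (by omega)
    · right
      refine ⟨?_, by linarith⟩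
      have h3 := sq_diff_le (b := b2) (pow_le_one₀ hb0 h.le) (m + 2)
      rw [i3, abs_le] at h3
      linarith [h3.1]
  have hBC : sq b2 (m + 2) ≤ sq b2 (m + 4) + 2 := by
    rcases hBC2 with h | h
    · linarith
    · exact h.1
  have hL1 : 0 ≤ 2 * b1 * h1 + 2 * b2 * h2 - 2 * e := by
    have h3 : 0 ≤ e * (2 * b1 * h1 + 2 * b2 * h2 - 2 * e) := by
      have h4 : e * (2 * b1 * h1 + 2 * b2 * h2 - 2 * e) = 1 - e ^ 2 := by linear_combination (-1) * hce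
      rw [h4]
      linarith [pow_le_one₀ (n := 2) he.le he1]
    exact (mul_nonneg_iff_of_pos_left he).1 h3
  have hη1 : 1 ≤ h1 * η := by rw [← e1]; exact hx1
  have hl1c : 2 * b1 = 0 ∨ 1 ≤ 2 * b1 := by
    rcases rt_b1s hR with h' | h' | h'
    · exact Or.inl h'
    · exact Or.inr h'.ge
    · exact Or.inr h'.1
  have hNj : h1 * ((2 * b2) ^ 2 - 1) ≤ 2 * b2 * (sq b2 (m + 2) * (2 * b1 * h1 + 2 * b2 * h2 - 2 * e) +
      sq b2 (m + 3) * (2 * b2 * e + s - h2)) := by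
    rcases Nat.eq_zero_or_pos m with hm | hm
    · -- j = 4
      subst hm
      have hl5 : (2 * b2) ^ 2 = 2 * b2 + 1 ∨ 3 ≤ (2 * b2) ^ 2 := by
        rcases g5.lt_or_eq with h | h
        · right
          have h3 : 1 ≤ sq b2 5 := hR.pge 4 h
          rw [e5'] at h3
          exact p5_ge (by linarith) h3
        · left
          have h4 : sq b2 (0 + 5) = sq b2 5 := rfl
          rw [h4, e5'] at h
          exact p5_zero (by linarith) h.symm
      have k1 := nj4 hl1c hl5 (by linarith) hh1 H.h2s H.hs H.nh he he1 H.hce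
      have f2 : sq b2 (0 + 2) = 2 * b2 := e2'
      have f3 : sq b2 (0 + 3) = (2 * b2) ^ 2 - 1 := e3'
      rw [f2, f3]
      have k2 : 2 * b2 * (2 * b2 * (2 * b1 * h1 + 2 * b2 * h2 - 2 * e) +
          ((2 * b2) ^ 2 - 1) * (2 * b2 * e + s - h2)) =
          2 * b2 * (2 * b2 * (2 * b1 * h1) + h2 + e * (2 * b2 * ((2 * b2) ^ 2 - 2) - 2 * b2) +
            ((2 * b2) ^ 2 - 1) * s) := by ring
      rw [k2]
      exact k1
    · -- j ≥ 5
      obtain ⟨p, rfl⟩ : ∃ p, m = p + 1 := ⟨m - 1, by omega⟩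
      have s5 := hs 5 (by omega) (by omega)
      rw [e5'] at s5
      have hl3 : 3 ≤ (2 * b2) ^ 2 := p5_ge hl2 s5
      have g0' : 0 ≤ sq b2 p := by
        rcases Nat.eq_zero_or_pos p with h | h
        · rw [h, sq_zero]
        · linarith [hs p h (by omega)]
      have hD : 2 * b2 ≤ sq b2 (p + 2) :=
        sq_ge_l hb0 g0' (by linarith) (by
          have := hs (p + 4) (by omega) (by omega)
          linarith)
      have k1 := nj5 (l1 := 2 * b1) (l := 2 * b2) (A := sq b2 (p + 1 + 3)) (Bq := sq b2 (p + 1 + 4))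
        (C := sq b2 (p + 1 + 2)) (D := sq b2 (p + 2)) hl1c hl3 (by linarith) hh1 hh2 H.hs H.nh he he1
        H.hce gl3 (by linarith) gl2 hD (fun h0 => by
          rcases hBC2 with h | ⟨h, h'⟩
          · exact Or.inl h
          · by_cases h2' : 2 * b2 < 2
            · right
              refine ⟨h, h', ?_⟩
              rcases H.h2s with h3 | h3
              · exfalso
                have h4 := H.hce
                rw [h0, h3, zero_mul, zero_add, mul_one] at h4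
                have h5 : 0 < (2 - 2 * b2) * e := mul_pos (by linarith) he
                linarith [sq_nonneg (1 - e), (by ring : (1 - e) ^ 2 = e ^ 2 + 1 - 2 * e)]
              · exact h3.2
            · left
              have : 1 ≤ b2 := by linarith
              exact sq_mono this (by omega))
      have q3' : sq b2 (p + 1 + 3) = 2 * b2 * sq b2 (p + 1 + 2) - sq b2 (p + 2) := q3
      have q4' : sq b2 (p + 1 + 4) = 2 * b2 * sq b2 (p + 1 + 3) - sq b2 (p + 1 + 2) := q4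
      have k2 : 2 * b2 * (sq b2 (p + 1 + 2) * (2 * b1 * h1 + 2 * b2 * h2 - 2 * e) +
          sq b2 (p + 1 + 3) * (2 * b2 * e + s - h2)) =
          2 * b2 * (sq b2 (p + 1 + 2) * (2 * b1 * h1) + sq b2 (p + 2) * h2 +
            e * (sq b2 (p + 1 + 4) - sq b2 (p + 1 + 2)) + sq b2 (p + 1 + 3) * s) := by
        rw [q4']
        linear_combination (-(2 * b2 * h2)) * q3'
      rw [k2]
      exact k1
  exact j4 (l := 2 * b2) (A := sq b2 (m + 3)) (Bq := sq b2 (m + 4)) (C := sq b2 (m + 2))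
    (L1 := 2 * b1 * h1 + 2 * b2 * h2 - 2 * e) (L2 := 2 * b2 * e + s - h2) (η := η) (h1 := h1)
    (by linarith) (by linarith) (by linarith) gl2 (by linarith) (by linarith) hBC hκ hζ hL1 hη hη1 hl1 hNj n'

end Pool.Agent.Helper57.DY
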