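import Pool.Agent.Helper54.DY.Det3
import Pool.Agent.Helper78.DY.U1

/-!
# The spectrum gap (MP_d13a5e_al)

For a triangle system with simple roots `a, b, c`, all labels less than one, and `K^2 = kq B a b c`: two roots
`y, z` with `1 < |B y z|` satisfy `1 + K^2 ≤ (B y z)^2`.
-/

set_option autoImplicit false

namespace Pool.Agent.Helper57.DY

open _root_.DY Set

variable {E : Type*} [AddCommGroup E] [Module ℝ E]
variable {Ψ : Set E} {B : E →ₗ[ℝ] E →ₗ[ℝ] ℝ} {a b c x y z : E} {l : E →ₗ[ℝ] ℝ}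

/-! ### Real numbers -/

theorem pair_real {p q r : ℝ} (hp : 1 < p) (h1 : q + r ≤ 0) (h2 : 0 < r + p * q)
    (h3 : p ^ 2 - 1 + q ^ 2 + r ^ 2 + 2 * p * q * r = 0) : 1 < q ∧ r < -1 ∧ r ^ 2 ≤ p ^ 2 := by
  have hq : 0 < q := by
    by_contra hc
    have hc := not_lt.1 hc
    have := mul_nonneg_of_nonpos_of_nonpos hc (by linarith : 1 - p ≤ 0)
    nlinarith
  have e1 : (r + p * q) ^ 2 = (p ^ 2 - 1) * (q ^ 2 - 1) := by linear_combination h3
  have hp2 : 0 < p ^ 2 - 1 := by nlinarith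
  have h4 : 0 < (p ^ 2 - 1) * (q ^ 2 - 1) := by
    rw [← e1]
    positivity
  have hq2 : 0 < q ^ 2 - 1 := (mul_pos_iff_of_pos_left hp2).1 h4
  have hq1 : 1 < q := by
    by_contra hc
    have hc := not_lt.1 hc
    nlinarith
  refine ⟨hq1, by linarith, ?_⟩
  by_contra hc
  have hc := not_le.1 hc
  have hR : p < -r := by
    have : p ^ 2 < (-r) ^ 2 := by
      rw [neg_sq]
      exact hc
    exact lt_of_pow_lt_pow_left₀ 2 (by linarith) this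
  have k1 : 2 * p ^ 2 < q + 1 := by
    have a1 : (r + p * q) ^ 2 < (p * (q - 1)) ^ 2 := by
      apply pow_lt_pow_left₀ _ h2.le two_ne_zero
      linarith
    rw [e1] at a1
    have a2 : 0 < (q - 1) * (p ^ 2 * (q - 1) - (p ^ 2 - 1) * (q + 1)) := by nlinarith
    have a3 := (mul_pos_iff_of_pos_left (by linarith : 0 < q - 1)).1 a2
    linarith
  have k2 : 2 * q ^ 2 ≤ p + 1 := by
    have a1 : (r + p * q) ^ 2 ≤ ((p - 1) * q) ^ 2 := by
      apply pow_le_pow_left₀ h2.le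
      linarith
    rw [e1] at a1
    have a2 : 0 ≤ (p - 1) * ((p - 1) * q ^ 2 - (p + 1) * (q ^ 2 - 1)) := by nlinarith
    have a3 := (mul_nonneg_iff_of_pos_left (by linarith : 0 < p - 1)).1 a2
    linarith
  nlinarith [mul_pos (by linarith : 0 < p - 1) (by linarith : 0 < q - 1)]

theorem sq_lab {s : ℝ} (h0 : s ≤ 0) (h1 : -1 < s) : 0 ≤ 1 - s ^ 2 := by nlinarith

theorem one_lt_sq' {p : ℝ} (hp : 1 < p) : 1 < p ^ 2 := by nlinarith

/-- Gram determinant of `y, z` and the first vector -/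
theorem gram3 {y0 y1 y2 z0 z1 z2 s1 s2 s0 Yy Zz Yz q r : ℝ}
    (hYy : Yy = y0 ^ 2 + y1 ^ 2 + y2 ^ 2 + 2 * s1 * (y0 * y1) + 2 * s2 * (y0 * y2) + 2 * s0 * (y1 * y2))
    (hZz : Zz = z0 ^ 2 + z1 ^ 2 + z2 ^ 2 + 2 * s1 * (z0 * z1) + 2 * s2 * (z0 * z2) + 2 * s0 * (z1 * z2))
    (hYz : Yz = y0 * z0 + y1 * z1 + y2 * z2 + s1 * (y0 * z1 + y1 * z0) + s2 * (y0 * z2 + y2 * z0) +
      s0 * (y1 * z2 + y2 * z1)) (hq : q = y0 + y1 * s1 + y2 * s2) (hr : r = z0 + z1 * s1 + z2 * s2) :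
    Yz ^ 2 - Yy * Zz + Zz * q ^ 2 + Yy * r ^ 2 - 2 * Yz * q * r =
      (y1 * z2 - y2 * z1) ^ 2 * (s1 ^ 2 + s2 ^ 2 + s0 ^ 2 - 2 * s1 * s2 * s0 - 1) := by
  subst hYy hZz hYz hq hr
  ring

/-- Gram determinant of `y, z` -/
theorem gram2 {y0 y1 y2 z0 z1 z2 s1 s2 s0 Yy Zz Yz : ℝ}
    (hYy : Yy = y0 ^ 2 + y1 ^ 2 + y2 ^ 2 + 2 * s1 * (y0 * y1) + 2 * s2 * (y0 * y2) + 2 * s0 * (y1 * y2))
    (hZz : Zz = z0 ^ 2 + z1 ^ 2 + z2 ^ 2 + 2 * s1 * (z0 * z1) + 2 * s2 * (z0 * z2) + 2 * s0 * (z1 * z2))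
    (hYz : Yz = y0 * z0 + y1 * z1 + y2 * z2 + s1 * (y0 * z1 + y1 * z0) + s2 * (y0 * z2 + y2 * z0) +
      s0 * (y1 * z2 + y2 * z1)) :
    Yy * Zz - Yz ^ 2 = (y1 * z2 - y2 * z1) ^ 2 * (1 - s0 ^ 2) + (y0 * z2 - y2 * z0) ^ 2 * (1 - s2 ^ 2) +
      (y0 * z1 - y1 * z0) ^ 2 * (1 - s1 ^ 2) +
      2 * ((y1 * z2 - y2 * z1) * (y0 * z2 - y2 * z0)) * (s1 - s0 * s2) +
      2 * ((y1 * z2 - y2 * z1) * (y0 * z1 - y1 * z0)) * (s1 * s0 - s2) +
      2 * ((y0 * z2 - y2 * z0) * (y0 * z1 - y1 * z0)) * (s0 - s1 * s2) := by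
  subst hYy hZz hYz
  ring

/-! ### Coordinates -/

theorem B_comb (ht : Tri Ψ B a b c) {y0 y1 y2 z0 z1 z2 : ℝ} (ey : y = y0 • a + y1 • b + y2 • c)
    (ez : z = z0 • a + z1 • b + z2 • c) :
    B y z = y0 * z0 + y1 * z1 + y2 * z2 + B a b * (y0 * z1 + y1 * z0) + B a c * (y0 * z2 + y2 * z0) +
      B b c * (y1 * z2 + y2 * z1) := by
  have haa := ht.one a ht.ha
  have hbb := ht.one b ht.hb
  have hcc := ht.one c ht.hc
  rw [ey, ez]
  simp only [map_add, map_smul, LinearMap.add_apply, LinearMap.smul_apply, smul_eq_mul, haa, hbb, hcc,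
    ht.symm b a, ht.symm c a, ht.symm c b]
  ring

theorem B_first (ht : Tri Ψ B a b c) {y0 y1 y2 : ℝ} (ey : y = y0 • a + y1 • b + y2 • c) :
    B a y = y0 + y1 * B a b + y2 * B a c := by
  have haa := ht.one a ht.ha
  rw [ey]
  simp only [map_add, map_smul, smul_eq_mul, haa]
  ring

theorem det3 (hT : Tri Ψ B a b c) {y0 y1 y2 z0 z1 z2 : ℝ} (hy : y0 • a + y1 • b + y2 • c ∈ Ψ)
    (hz : z0 • a + z1 • b + z2 • c ∈ Ψ) : y1 * z2 - y2 * z1 = 0 ∨ 1 ≤ |y1 * z2 - y2 * z1| := by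
  obtain ⟨f, f0, f1, f2⟩ := exists_form3 hT.indep 1 0 0
  obtain ⟨k, k0, k1, k2⟩ := exists_form3 hT.indep 0 1 0
  obtain ⟨h, h0, h1, h2⟩ := exists_form3 hT.indep 0 0 1
  have hv : vol f k h a b c = 1 := by
    unfold vol
    rw [f0, f1, f2, k0, k1, k2, h0, h1, h2]
    norm_num
  have hx : (1 : ℝ) • a + (0 : ℝ) • b + (0 : ℝ) • c ∈ Ψ := by
    rw [one_smul, zero_smul, zero_smul, add_zero, add_zero]
    exact hT.ha
  have key := det_ge (f := f) (g := k) (h := h) hT hx hy hz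
  rw [vol_comb, hv, mul_one, abs_one] at key
  have e : (1 : ℝ) * (y1 * z2 - y2 * z1) - 0 * (y0 * z2 - y2 * z0) + 0 * (y0 * z1 - y1 * z0) =
      y1 * z2 - y2 * z1 := by ring
  rw [e] at key
  exact key

theorem B_rf (ht : Tri Ψ B a b c) (y z : E) : B (rf B a y) (rf B a z) = B y z := by
  have haa := ht.one a ht.ha
  unfold DY.rf
  simp only [map_sub, map_smul, LinearMap.sub_apply, LinearMap.smul_apply, smul_eq_mul, haa,
    ht.symm y a]
  ring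

/-! ### One simple root -/

theorem rf_C01 (ht : Tri Ψ B a b c) (hy : y ∈ Ψ) (hyp : y ∈ C01 a b c) (hne : y ≠ a) :
    rf B a y ∈ C01 a b c := ht.rf_posW hy hyp hne

/-- sum of the heights of a reflected pair -/
theorem sum_rf (ht : Tri Ψ B a b c) (hl : Ht a b c l) {K p : ℝ} (hp : 1 < p) (hcon : p ^ 2 < 1 + K)
    (hy : y ∈ Ψ) (hyp : y ∈ C01 a b c) (hz : z ∈ Ψ) (hzp : z ∈ C01 a b c) (hB : B y z = -p)
    (ih : ∀ y' z' : E, y' ∈ Ψ → y' ∈ C01 a b c → z' ∈ Ψ → z' ∈ C01 a b c → B y' z' < -1 →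
      l y' + l z' < l y + l z → 1 + K ≤ (B y' z') ^ 2) : B a y + B a z ≤ 0 := by
  have haa := ht.one a ht.ha
  by_contra hc
  have hc := not_le.1 hc
  by_cases hya : y = a
  · rw [hya, haa] at hc
    rw [hya] at hB
    linarith
  by_cases hza : z = a
  · rw [hza, haa] at hc
    rw [hza, ht.symm y a] at hB
    linarith
  have h1 := ih (rf B a y) (rf B a z) (ht.refl a ht.ha y hy) (rf_C01 ht hy hyp hya)
    (ht.refl a ht.ha z hz) (rf_C01 ht hz hzp hza) (by rw [B_rf ht, hB]; linarith)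
    (by rw [hl.rf, hl.rf]; linarith)
  rw [B_rf ht, hB, neg_sq] at h1
  linarith

theorem height_gt (ht : Tri Ψ B a b c) (hl : Ht a b c l) {y0 y1 y2 : ℝ}
    (ey : y = y0 • a + y1 • b + y2 • c) (h1 : Z1 y1) (h2 : Z1 y2)
    (hq : 1 < B a y) : 1 < l y := by
  have hly : l y = y0 + y1 + y2 := by
    rw [ey]
    simp only [map_add, map_smul, hl.la, hl.lb, hl.lc, smul_eq_mul, mul_one]
  have hb := ht.B_nonpos
  have hc := ht.B_nonpos'
  rw [B_first ht ey] at hq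
  have e1 := mul_nonneg_of_nonpos_of_nonpos (neg_nonpos.2 h1.nonneg) hb
  have e2 := mul_nonneg_of_nonpos_of_nonpos (neg_nonpos.2 h2.nonneg) hc
  rw [hly]
  have := h1.nonneg
  have := h2.nonneg
  linarith

theorem gap_one (ht : Tri Ψ B a b c) (hl : Ht a b c l) {K p y0 y1 y2 z0 z1 z2 : ℝ}
    (hK : kq B a b c = K) (hK0 : 0 < K) (hp : 1 < p) (hcon : p ^ 2 < 1 + K) (hy : y ∈ Ψ) (hz : z ∈ Ψ)
    (ey : y = y0 • a + y1 • b + y2 • c) (ez : z = z0 • a + z1 • b + z2 • c)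
    (hy0 : Z1 y0) (hy1 : Z1 y1) (hy2 : Z1 y2) (hz0 : Z1 z0) (hz1 : Z1 z1) (hz2 : Z1 z2)
    (hB : B y z = -p)
    (ih : ∀ y' z' : E, y' ∈ Ψ → y' ∈ C01 a b c → z' ∈ Ψ → z' ∈ C01 a b c → B y' z' < -1 →
      l y' + l z' < l y + l z → 1 + K ≤ (B y' z') ^ 2) :
    B a z + p * B a y ≤ 0 ∧ (B a z + p * B a y = 0 → y1 * z2 - y2 * z1 = 0) := by
  have hyp : y ∈ C01 a b c := ⟨y0, y1, y2, ey, hy0, hy1, hy2⟩
  have hzp : z ∈ C01 a b c := ⟨z0, z1, z2, ez, hz0, hz1, hz2⟩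
  have h1 := sum_rf ht hl hp hcon hy hyp hz hzp hB ih
  have hyy := ht.one y hy
  have hzz := ht.one z hz
  have hG := gram3 (s1 := B a b) (s2 := B a c) (s0 := B b c) (Yy := 1) (Zz := 1) (Yz := -p)
    (q := B a y) (r := B a z) (by rw [← hyy, B_comb ht ey ey]; ring) (by rw [← hzz, B_comb ht ez ez]; ring)
    (by rw [← hB, B_comb ht ey ez]) (B_first ht ey) (B_first ht ez)
  have hK' : B a b ^ 2 + B a c ^ 2 + B b c ^ 2 - 2 * B a b * B a c * B b c - 1 = K := hK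
  rw [hK'] at hG
  have hd := det3 ht (ey ▸ hy) (ez ▸ hz)
  set D := y1 * z2 - y2 * z1 with hD
  set q := B a y with hq
  set r := B a z with hr
  have hbig : 1 ≤ |D| → q ^ 2 + r ^ 2 + 2 * p * q * r ≤ 0 → False := by
    intro h2 h3
    have h4 : 1 ≤ D ^ 2 := by
      rw [← sq_abs]
      nlinarith [abs_nonneg D]
    nlinarith
  refine ⟨?_, fun h0 => ?_⟩
  · by_contra hc
    have hc := not_le.1 hc
    have hq0 : 0 < q := by
      by_contra hc'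
      have hc' := not_lt.1 hc'
      have := mul_nonneg_of_nonpos_of_nonpos hc' (by linarith : 1 - p ≤ 0)
      nlinarith
    rcases hd with hd | hd
    · rw [hd] at hG
      obtain ⟨k1, k2, k3⟩ := pair_real hp h1 hc (by linarith)
      have h5 := height_gt ht hl ey hy1 hy2 k1
      have h6 := ih a z ht.ha (mem_C01_self a b c) hz hzp k2 (by rw [hl.la]; linarith)
      linarith
    · refine hbig hd ?_
      have h5 : q + p * r ≤ 0 := by nlinarith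
      have h6 : r ≤ 0 := by linarith
      have h7 := mul_nonneg hq0.le (neg_nonneg.2 h5)
      have h8 := mul_nonneg (neg_nonneg.2 h6) hc.le
      nlinarith
  · rcases hd with hd | hd
    · exact hd
    · exfalso
      refine hbig hd ?_
      have h5 : r = -(p * q) := by linarith
      rw [h5]
      have h6 : q ^ 2 + (-(p * q)) ^ 2 + 2 * p * q * -(p * q) = -((p ^ 2 - 1) * q ^ 2) := by ring
      rw [h6]
      have h7 : 0 ≤ (p ^ 2 - 1) * q ^ 2 := by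
        have : 0 ≤ p ^ 2 - 1 := by nlinarith
        positivity
      linarith

theorem kq_swap (ht : Tri Ψ B a b c) : kq B b a c = kq B a b c := by
  unfold kq
  rw [ht.symm b a]
  ring

theorem kq_swap' (ht : Tri Ψ B a b c) : kq B c b a = kq B a b c := by
  unfold kq
  rw [ht.symm b a, ht.symm c a, ht.symm c b]
  ring

/-! ### Far positive pairs -/

theorem gap_pos (ht : Tri Ψ B a b c) (l1 : -1 < B a b) (l2 : -1 < B a c) (l0 : -1 < B b c)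
    (hy : y ∈ Ψ) (hyp : y ∈ C01 a b c) (hz : z ∈ Ψ) (hzp : z ∈ C01 a b c) (hB : B y z < -1) :
    1 + kq B a b c ≤ (B y z) ^ 2 := by
  obtain ⟨l, hl⟩ := ht.exists_ht
  have hfin : ∀ r : ℝ, {p : E × E | (p.1 ∈ Ψ ∧ p.1 ∈ C01 a b c ∧ p.2 ∈ Ψ ∧ p.2 ∈ C01 a b c ∧
      B p.1 p.2 < -1) ∧ l p.1 + l p.2 ≤ r}.Finite := by
    intro r
    refine ((hl.fin ht r).prod (hl.fin ht r)).subset ?_
    rintro p ⟨⟨h1, h2, h3, h4, -⟩, h5⟩
    have e1 := hl.one_le ht h1 h2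
    have e2 := hl.one_le ht h3 h4
    exact ⟨⟨h1, h2, by linarith⟩, ⟨h3, h4, by linarith⟩⟩
  refine ht_ind {p : E × E | p.1 ∈ Ψ ∧ p.1 ∈ C01 a b c ∧ p.2 ∈ Ψ ∧ p.2 ∈ C01 a b c ∧ B p.1 p.2 < -1}
    (fun p => l p.1 + l p.2) hfin (fun p => 1 + kq B a b c ≤ (B p.1 p.2) ^ 2) ?_ (y, z)
    ⟨hy, hyp, hz, hzp, hB⟩
  rintro ⟨y, z⟩ ⟨hy, hyp, hz, hzp, hB⟩ ih
  simp only at hy hyp hz hzp hB ih ⊢
  have ih' : ∀ y' z' : E, y' ∈ Ψ → y' ∈ C01 a b c → z' ∈ Ψ → z' ∈ C01 a b c → B y' z' < -1 →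
      l y' + l z' < l y + l z → 1 + kq B a b c ≤ (B y' z') ^ 2 :=
    fun y' z' g1 g2 g3 g4 g5 g6 => ih (y', z') ⟨g1, g2, g3, g4, g5⟩ g6
  by_contra hcon
  have hcon := not_le.1 hcon
  obtain ⟨p, hpB⟩ : ∃ p, B y z = -p := ⟨-B y z, by ring⟩
  rw [hpB] at hB hcon
  have hp : 1 < p := by linarith
  rw [neg_sq] at hcon
  have hK0 : 0 < kq B a b c := by linarith [one_lt_sq' hp]
  obtain ⟨y0, y1, y2, ey, hy0, hy1, hy2⟩ := hyp
  obtain ⟨z0, z1, z2, ez, hz0, hz1, hz2⟩ := hzp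
  have hpB' : B z y = -p := by rw [ht.symm z y, hpB]
  have ihs : ∀ y' z' : E, y' ∈ Ψ → y' ∈ C01 a b c → z' ∈ Ψ → z' ∈ C01 a b c → B y' z' < -1 →
      l y' + l z' < l z + l y → 1 + kq B a b c ≤ (B y' z') ^ 2 :=
    fun y' z' g1 g2 g3 g4 g5 g6 => ih' y' z' g1 g2 g3 g4 g5 (by linarith)
  have A1 := gap_one ht hl rfl hK0 hp hcon hy hz ey ez hy0 hy1 hy2 hz0 hz1 hz2 hpB ih'
  have A2 := gap_one ht hl rfl hK0 hp hcon hz hy ez ey hz0 hz1 hz2 hy0 hy1 hy2 hpB' ihs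
  have hlb : Ht b a c l := ⟨hl.lb, hl.la, hl.lc⟩
  have hlc : Ht c b a l := ⟨hl.lc, hl.lb, hl.la⟩
  have hCb : C01 b a c = C01 a b c := C01_swapW a b c
  have hCc : C01 c b a = C01 a b c := C01_swapW' a b c
  have eyb : y = y1 • b + y0 • a + y2 • c := by rw [ey]; module
  have ezb : z = z1 • b + z0 • a + z2 • c := by rw [ez]; module
  have eyc : y = y2 • c + y1 • b + y0 • a := by rw [ey]; module
  have ezc : z = z2 • c + z1 • b + z0 • a := by rw [ez]; module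
  have B1 := gap_one ht.swapW hlb (kq_swap ht) hK0 hp hcon hy hz eyb ezb hy1 hy0 hy2 hz1 hz0 hz2 hpB
    (by rw [hCb]; exact ih')
  have B2 := gap_one ht.swapW hlb (kq_swap ht) hK0 hp hcon hz hy ezb eyb hz1 hz0 hz2 hy1 hy0 hy2 hpB'
    (by rw [hCb]; exact ihs)
  have C1 := gap_one ht.swapW' hlc (kq_swap' ht) hK0 hp hcon hy hz eyc ezc hy2 hy1 hy0 hz2 hz1 hz0 hpB
    (by rw [hCc]; exact ih')
  have C2 := gap_one ht.swapW' hlc (kq_swap' ht) hK0 hp hcon hz hy ezc eyc hz2 hz1 hz0 hy2 hy1 hy0 hpB'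
    (by rw [hCc]; exact ihs)
  have hyy := ht.one y hy
  have hzz := ht.one z hz
  -- the sums
  have S1 : y0 * (B a z + p * B a y) + y1 * (B b z + p * B b y) + y2 * (B c z + p * B c y) = 0 := by
    have e1 : ∀ w : E, B y w = y0 * B a w + y1 * B b w + y2 * B c w := by
      intro w
      nth_rewrite 1 [ey]
      simp only [map_add, map_smul, LinearMap.add_apply, LinearMap.smul_apply, smul_eq_mul]
    have e2 := e1 y
    have e3 := e1 z
    rw [hyy] at e2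
    rw [hpB] at e3
    linear_combination -e3 - p * e2
  have S2 : z0 * (B a y + p * B a z) + z1 * (B b y + p * B b z) + z2 * (B c y + p * B c z) = 0 := by
    have e1 : ∀ w : E, B z w = z0 * B a w + z1 * B b w + z2 * B c w := by
      intro w
      nth_rewrite 1 [ez]
      simp only [map_add, map_smul, LinearMap.add_apply, LinearMap.smul_apply, smul_eq_mul]
    have e2 := e1 y
    have e3 := e1 z
    rw [hzz] at e3
    rw [hpB'] at e2
    linear_combination -e2 - p * e3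
  -- supports
  have key : ∀ {u v w A C D : ℝ}, Z1 u → Z1 v → Z1 w → A ≤ 0 → C ≤ 0 → D ≤ 0 → u * A + v * C + w * D = 0 →
      (u = 0 ∨ A = 0) ∧ (v = 0 ∨ C = 0) ∧ (w = 0 ∨ D = 0) := by
    intro u v w A C D hu hv hw hA hC hD h
    have e1 := mul_nonneg hu.nonneg (neg_nonneg.2 hA)
    have e2 := mul_nonneg hv.nonneg (neg_nonneg.2 hC)
    have e3 := mul_nonneg hw.nonneg (neg_nonneg.2 hD)
    exact ⟨mul_eq_zero.1 (by linarith), mul_eq_zero.1 (by linarith), mul_eq_zero.1 (by linarith)⟩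
  obtain ⟨p0, p1, p2⟩ := key hy0 hy1 hy2 A1.1 B1.1 C1.1 S1
  obtain ⟨q0, q1, q2⟩ := key hz0 hz1 hz2 A2.1 B2.1 C2.1 S2
  have D0 : (y0 = 0 ∧ z0 = 0) ∨ y1 * z2 - y2 * z1 = 0 := by
    rcases p0 with h | h
    · rcases q0 with h' | h'
      · exact Or.inl ⟨h, h'⟩
      · right
        linarith [A2.2 h']
    · exact Or.inr (A1.2 h)
  have D1 : (y1 = 0 ∧ z1 = 0) ∨ y0 * z2 - y2 * z0 = 0 := by
    rcases p1 with h | h
    · rcases q1 with h' | h'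
      · exact Or.inl ⟨h, h'⟩
      · right
        linarith [B2.2 h']
    · exact Or.inr (B1.2 h)
  have D2 : (y2 = 0 ∧ z2 = 0) ∨ y0 * z1 - y1 * z0 = 0 := by
    rcases p2 with h | h
    · rcases q2 with h' | h'
      · exact Or.inl ⟨h, h'⟩
      · right
        linarith [C2.2 h']
    · right
      linarith [C1.2 h]
  have hG := gram2 (y0 := y0) (y1 := y1) (y2 := y2) (z0 := z0) (z1 := z1) (z2 := z2) (s1 := B a b)
    (s2 := B a c) (s0 := B b c) (Yy := 1) (Zz := 1) (Yz := -p)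
    (by rw [← hyy, B_comb ht ey ey]; ring) (by rw [← hzz, B_comb ht ez ez]; ring)
    (by rw [← hpB, B_comb ht ey ez])
  have n1 := ht.B_nonpos
  have n2 := ht.B_nonpos'
  have n0 := ht.B_nonpos''
  have m1 := sq_lab n1 l1
  have m2 := sq_lab n2 l2
  have m0 := sq_lab n0 l0
  have hp2 := one_lt_sq' hp
  have g0 := mul_nonneg (sq_nonneg (y1 * z2 - y2 * z1)) m0
  have g1 := mul_nonneg (sq_nonneg (y0 * z2 - y2 * z0)) m2
  have g2 := mul_nonneg (sq_nonneg (y0 * z1 - y1 * z0)) m1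
  rcases D0 with ⟨h1, h2⟩ | h0
  · have k1 : y0 * z2 - y2 * z0 = 0 := by rw [h1, h2]; ring
    have k2 : y0 * z1 - y1 * z0 = 0 := by rw [h1, h2]; ring
    rw [k1, k2] at hG
    linarith
  rcases D1 with ⟨h1, h2⟩ | h1
  · have k2 : y0 * z1 - y1 * z0 = 0 := by rw [h1, h2]; ring
    rw [h0, k2] at hG
    linarith
  · rw [h0, h1] at hG
    linarith

/-! ### Positive pairs with `B y z > 1` -/

theorem flip_one (ht : Tri Ψ B a b c) {p : ℝ} (hp : 1 < p)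
    (hy : y ∈ Ψ) (hyp : y ∈ C01 a b c) (hz : z ∈ Ψ) (hzp : z ∈ C01 a b c) (hB : B y z = p)
    (h : y = a ∨ z = a) :
    ∃ y' z' : E, y' ∈ Ψ ∧ y' ∈ C01 a b c ∧ z' ∈ Ψ ∧ z' ∈ C01 a b c ∧ B y' z' = -p := by
  have haa := ht.one a ht.ha
  have key : ∀ w : E, w ∈ Ψ → w ∈ C01 a b c → B a w = p →
      ∃ y' z' : E, y' ∈ Ψ ∧ y' ∈ C01 a b c ∧ z' ∈ Ψ ∧ z' ∈ C01 a b c ∧ B y' z' = -p := by
    intro w hw hwp hBw
    have hne : w ≠ a := by
      rintro rfl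
      rw [haa] at hBw
      linarith
    refine ⟨a, rf B a w, ht.ha, mem_C01_self a b c, ht.refl a ht.ha w hw, rf_C01 ht hw hwp hne, ?_⟩
    unfold DY.rf
    rw [map_sub, map_smul, smul_eq_mul, haa, hBw]
    ring
  rcases h with h | h
  · exact key z hz hzp (by rw [← hB, h])
  · exact key y hy hyp (by rw [← hB, h, ht.symm])

theorem flip_pos (ht : Tri Ψ B a b c) {p : ℝ} (hp : 1 < p)
    (hy : y ∈ Ψ) (hyp : y ∈ C01 a b c) (hz : z ∈ Ψ) (hzp : z ∈ C01 a b c) (hB : B y z = p) :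
    ∃ y' z' : E, y' ∈ Ψ ∧ y' ∈ C01 a b c ∧ z' ∈ Ψ ∧ z' ∈ C01 a b c ∧ B y' z' = -p := by
  obtain ⟨l, hl⟩ := ht.exists_ht
  have hfin : ∀ r : ℝ, {q : E × E | (q.1 ∈ Ψ ∧ q.1 ∈ C01 a b c ∧ q.2 ∈ Ψ ∧ q.2 ∈ C01 a b c ∧
      B q.1 q.2 = p) ∧ l q.1 + l q.2 ≤ r}.Finite := by
    intro r
    refine ((hl.fin ht r).prod (hl.fin ht r)).subset ?_
    rintro q ⟨⟨h1, h2, h3, h4, -⟩, h5⟩
    have e1 := hl.one_le ht h1 h2
    have e2 := hl.one_le ht h3 h4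
    exact ⟨⟨h1, h2, by linarith⟩, ⟨h3, h4, by linarith⟩⟩
  refine ht_ind {q : E × E | q.1 ∈ Ψ ∧ q.1 ∈ C01 a b c ∧ q.2 ∈ Ψ ∧ q.2 ∈ C01 a b c ∧ B q.1 q.2 = p}
    (fun q => l q.1 + l q.2) hfin (fun _ => ∃ y' z' : E, y' ∈ Ψ ∧ y' ∈ C01 a b c ∧ z' ∈ Ψ ∧
      z' ∈ C01 a b c ∧ B y' z' = -p) ?_ (y, z) ⟨hy, hyp, hz, hzp, hB⟩
  rintro ⟨y, z⟩ ⟨hy, hyp, hz, hzp, hB⟩ ih
  simp only at hy hyp hz hzp hB ih
  have hlb : Ht b a c l := ⟨hl.lb, hl.la, hl.lc⟩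
  have hlc : Ht c b a l := ⟨hl.lc, hl.lb, hl.la⟩
  have hCb : C01 b a c = C01 a b c := C01_swapW a b c
  have hCc : C01 c b a = C01 a b c := C01_swapW' a b c
  by_cases ha : y = a ∨ z = a
  · exact flip_one ht hp hy hyp hz hzp hB ha
  by_cases hb : y = b ∨ z = b
  · rw [← hCb] at hyp hzp ⊢
    exact flip_one ht.swapW hp hy hyp hz hzp hB hb
  by_cases hc : y = c ∨ z = c
  · rw [← hCc] at hyp hzp ⊢
    exact flip_one ht.swapW' hp hy hyp hz hzp hB hc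
  rw [not_or] at ha hb hc
  by_cases ka : 0 < B a y + B a z
  · exact ih (rf B a y, rf B a z) ⟨ht.refl a ht.ha y hy, rf_C01 ht hy hyp ha.1,
      ht.refl a ht.ha z hz, rf_C01 ht hz hzp ha.2, by rw [B_rf ht, hB]⟩
      (by simp only [hl.rf]; linarith)
  by_cases kb : 0 < B b y + B b z
  · refine ih (rf B b y, rf B b z) ⟨ht.refl b ht.hb y hy, ?_,
      ht.refl b ht.hb z hz, ?_, by rw [B_rf ht.swapW, hB]⟩ (by simp only [hlb.rf]; linarith)
    · rw [← hCb] at hyp ⊢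
      exact rf_C01 ht.swapW hy hyp hb.1
    · rw [← hCb] at hzp ⊢
      exact rf_C01 ht.swapW hz hzp hb.2
  by_cases kc : 0 < B c y + B c z
  · refine ih (rf B c y, rf B c z) ⟨ht.refl c ht.hc y hy, ?_,
      ht.refl c ht.hc z hz, ?_, by rw [B_rf ht.swapW', hB]⟩ (by simp only [hlc.rf]; linarith)
    · rw [← hCc] at hyp ⊢
      exact rf_C01 ht.swapW' hy hyp hc.1
    · rw [← hCc] at hzp ⊢
      exact rf_C01 ht.swapW' hz hzp hc.2
  exfalso
  obtain ⟨y0, y1, y2, ey, hy0, hy1, hy2⟩ := hyp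
  obtain ⟨z0, z1, z2, ez, hz0, hz1, hz2⟩ := hzp
  have hyy := ht.one y hy
  have hzz := ht.one z hz
  have e : (B y y + B y z) + (B z y + B z z) = y0 * (B a y + B a z) + y1 * (B b y + B b z) +
      y2 * (B c y + B c z) + (z0 * (B a y + B a z) + z1 * (B b y + B b z) + z2 * (B c y + B c z)) := by
    have e1 : ∀ w : E, B y w = y0 * B a w + y1 * B b w + y2 * B c w := by
      intro w
      nth_rewrite 1 [ey]
      simp only [map_add, map_smul, LinearMap.add_apply, LinearMap.smul_apply, smul_eq_mul]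
    have e2 : ∀ w : E, B z w = z0 * B a w + z1 * B b w + z2 * B c w := by
      intro w
      nth_rewrite 1 [ez]
      simp only [map_add, map_smul, LinearMap.add_apply, LinearMap.smul_apply, smul_eq_mul]
    rw [e1 y, e1 z, e2 y, e2 z]
    ring
  rw [hyy, hzz, hB, ht.symm z y, hB] at e
  have ka := not_lt.1 ka
  have kb := not_lt.1 kb
  have kc := not_lt.1 kc
  have f1 := mul_nonneg hy0.nonneg (neg_nonneg.2 ka)
  have f2 := mul_nonneg hy1.nonneg (neg_nonneg.2 kb)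
  have f3 := mul_nonneg hy2.nonneg (neg_nonneg.2 kc)
  have f4 := mul_nonneg hz0.nonneg (neg_nonneg.2 ka)
  have f5 := mul_nonneg hz1.nonneg (neg_nonneg.2 kb)
  have f6 := mul_nonneg hz2.nonneg (neg_nonneg.2 kc)
  linarith

/-! ### The gap -/

/-- **Spectrum gap**: labels less than one, `y, z` roots with `1 < |B y z|` -/
theorem gap (ht : Tri Ψ B a b c) (l1 : -1 < B a b) (l2 : -1 < B a c) (l0 : -1 < B b c)
    (hy : y ∈ Ψ) (hz : z ∈ Ψ) (hB : 1 < |B y z|) : 1 + kq B a b c ≤ (B y z) ^ 2 := by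
  have hs : ∀ u ∈ Ψ, ∃ s : ℝ, (s = 1 ∨ s = -1) ∧ s • u ∈ Ψ ∧ s • u ∈ C01 a b c := by
    intro u hu
    rcases ht.pos u hu with k | k
    · exact ⟨1, Or.inl rfl, by rw [one_smul]; exact hu, by rw [one_smul]; exact k⟩
    · exact ⟨-1, Or.inr rfl, by rw [neg_one_smul]; exact ht.neg u hu, by rw [neg_one_smul]; exact k⟩
  obtain ⟨s1, k1, m1, n1⟩ := hs y hy
  obtain ⟨s2, k2, m2, n2⟩ := hs z hz
  have e : B (s1 • y) (s2 • z) = B y z ∨ B (s1 • y) (s2 • z) = -B y z := by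
    simp only [map_smul, LinearMap.smul_apply, smul_eq_mul]
    rcases k1 with rfl | rfl <;> rcases k2 with rfl | rfl
    · left; ring
    · right; ring
    · right; ring
    · left; ring
  have e2 : (B (s1 • y) (s2 • z)) ^ 2 = (B y z) ^ 2 := by
    rcases e with e | e <;> rw [e]
    ring
  have e3 : 1 < |B (s1 • y) (s2 • z)| := by
    rcases e with e | e
    · rw [e]
      exact hB
    · rw [e, abs_neg]
      exact hB
  rw [← e2]
  rcases lt_abs.1 e3 with h | h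
  · obtain ⟨y', z', h1, h2, h3, h4, h5⟩ := flip_pos ht h m1 n1 m2 n2 rfl
    have := gap_pos ht l1 l2 l0 h1 h2 h3 h4 (by rw [h5]; linarith)
    rw [h5, neg_sq] at this
    exact this
  · exact gap_pos ht l1 l2 l0 m1 n1 m2 n2 (by linarith)

/-- helper32's form -/
theorem gapStat (Ψ : Set E) (B : E →ₗ[ℝ] E →ₗ[ℝ] ℝ) : ∀ t d1 d2 : E, Tri Ψ B t d1 d2 → B t d1 > -1 →
    B t d2 > -1 → B d1 d2 > -1 → 0 < kq B t d1 d2 → ∀ y ∈ Ψ, ∀ z ∈ Ψ, 1 < B y z →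
    1 + kq B t d1 d2 ≤ (B y z) ^ 2 := by
  intro t d1 d2 ht l1 l2 l0 _ y hy z hz h
  exact gap ht l1 l2 l0 hy hz (h.trans_le (le_abs_self _))

end Pool.Agent.Helper57.DY
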