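import Pool.Agent.Helper57.DY.NGim
import Pool.Agent.Helper23.DY.F1
import Pool.Agent.Helper9.DY.NG2

/-!
# NG in the limit gap, `F` beyond `V_2` (MP_d13a5e_al)

`b2 ≥ 1` is impossible (helper23), `4 b2 ^ 2 ≥ 2` too, `b2 = 1/2` gives `g - ζ / 2 ≥ 1`, and `b2 = 0` is easy.
-/

set_option autoImplicit false

namespace Pool.Agent.Helper57.DY

open _root_.DY (Z1 C01 Tri Str Loc Xs ORt OFA Good Beyond Canon CP pu sq sq_zero sq_one sq_two sq_succ sq_cassini
  sq_mono sq_incr NGbN NGN)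
open Pool.Agent.Helper62.DY (RT rt_of_tri om_lim ult_low canon_neg)

section Real

/-- `m_2 ≥ 4`: no such root -/
theorem nb4 {b1 b2 w g η ζ : ℝ} (hb1 : 0 ≤ b1) (hb2 : 0 ≤ b2) (h2 : 2 ≤ (2 * b2) ^ 2) (hw : 0 < w)
    (hζ : 0 < ζ) (hη : 0 < η) (hg : 2 * b2 * ζ ≤ g) (hc : g - b2 * ζ ≤ (b1 * w + b2) * η)
    (n : g ^ 2 + ζ ^ 2 - 2 * b2 * g * ζ - 1 = η * ((2 * b1 * w + 2 * b2) * g + (w ^ 2 - 1) * ζ)) : False := by
  obtain ⟨u, hu⟩ : ∃ u, u = g - b2 * ζ := ⟨_, rfl⟩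
  have hbζ : 0 ≤ b2 * ζ := mul_nonneg hb2 hζ.le
  have hu1 : b2 * ζ ≤ u := by rw [hu]; linarith only [hg]
  have hu0 : 0 ≤ u := le_trans hbζ hu1
  rw [← hu] at hc
  have e : u ^ 2 + (1 - b2 ^ 2) * ζ ^ 2 - 1 = 2 * (((b1 * w + b2) * η) * u) +
      (2 * (b1 * b2) * w + (2 * b2 ^ 2 - 1) + w ^ 2) * (η * ζ) := by
    have : g = u + b2 * ζ := by rw [hu]; ring
    rw [this] at n
    linear_combination n
  have a1 : u * u ≤ ((b1 * w + b2) * η) * u := mul_le_mul_of_nonneg_right hc hu0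
  have a2 : 0 ≤ (2 * (b1 * b2) * w + (2 * b2 ^ 2 - 1) + w ^ 2) * (η * ζ) := by
    have b1' := mul_nonneg (mul_nonneg hb1 hb2) hw.le
    have b2' : 0 ≤ 2 * b2 ^ 2 - 1 := by
      have : (2 * b2) ^ 2 = 4 * b2 ^ 2 := by ring
      rw [this] at h2
      linarith only [h2]
    have b3 := sq_nonneg w
    have b4 := mul_pos hη hζ
    refine mul_nonneg ?_ b4.le
    linarith only [b1', b2', b3]
  have a3 : (b2 * ζ) ^ 2 ≤ u ^ 2 := pow_le_pow_left₀ hbζ hu1 2
  have a4 : 0 ≤ (2 * b2 ^ 2 - 1) * ζ ^ 2 := by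
    refine mul_nonneg ?_ (sq_nonneg ζ)
    have : (2 * b2) ^ 2 = 4 * b2 ^ 2 := by ring
    rw [this] at h2
    linarith only [h2]
  nlinarith only [e, a1, a2, a3, a4]

/-- `m_2 = 3` -/
theorem nb3 {b1 w g η ζ y : ℝ} (hb1 : 2 * b1 = 0 ∨ 1 ≤ 2 * b1) (hw : 0 < w) (hw1 : w ≤ 1)
    (hη : 0 < η) (hg : ζ ≤ g) (hg1 : 1 ≤ g) (hζ : 0 < ζ) (hc : g - ζ / 2 ≤ (b1 * w + 1 / 2) * η)
    (n : g ^ 2 + ζ ^ 2 - g * ζ - 1 = η * ((2 * b1 * w + 1) * g + (w ^ 2 - 1) * ζ))
    (hy : y = g - ζ + w ^ 2 * η) (zy : 1 ≤ y) (zt : 0 ≤ 2 * b1 * (w * η) + y - g) : 1 ≤ g - ζ / 2 := by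
  by_contra hcon
  rw [not_le] at hcon
  obtain ⟨δ, hδ⟩ : ∃ δ, δ = g - ζ := ⟨_, rfl⟩
  obtain ⟨C, hC⟩ : ∃ C, C = w ^ 2 * η := ⟨_, rfl⟩
  obtain ⟨A, hA⟩ : ∃ A, A = 2 * b1 * (w * η) := ⟨_, rfl⟩
  have hζ' : ζ = g - δ := by rw [hδ]; ring
  have hδ0 : 0 ≤ δ := by rw [hδ]; linarith only [hg]
  have hC1 : 1 - δ ≤ C := by rw [hC, hδ]; linarith only [hy, zy]
  have hsum : g + δ ≤ A + η := by
    have : (b1 * w + 1 / 2) * η = (A + η) / 2 := by rw [hA]; ring
    rw [this] at hc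
    rw [hδ]
    linarith only [hc]
  have hn : g * A + g * C + δ * (η - C) = g ^ 2 - g * δ + δ ^ 2 - 1 := by
    have e1 : η * ((2 * b1 * w + 1) * g + (w ^ 2 - 1) * ζ) = g * A + g * C + δ * (η - C) := by
      rw [hA, hC, hζ']
      ring
    rw [← e1, ← n, hζ']
    ring
  -- `(g - δ) (A + C) ≤ g ^ 2 - 2 g δ - 1`
  have key : (g - δ) * (A + C) ≤ g ^ 2 - 2 * g * δ - 1 := by
    have := mul_le_mul_of_nonneg_left hsum hδ0
    nlinarith only [hδ0, hsum, hn]
  have hgδ : 0 < g - δ := by rw [← hζ']; exact hζ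
  have hgd : g + δ < 2 := by rw [hδ]; linarith only [hcon]
  rcases hb1 with h | h
  · have hA0 : A = 0 := by rw [hA, h]; ring
    have h1 : g - δ ≤ C := by
      have : y = δ + C := by rw [hy, hδ, hC]
      rw [← hA, hA0, this] at zt
      linarith only [zt]
    rw [hA0, zero_add] at key
    have h2 := mul_le_mul_of_nonneg_left h1 hgδ.le
    nlinarith only [key, h2, sq_nonneg δ]
  · have h1 : C ≤ A := by
      have h2 : 0 ≤ w * η := by positivity
      have h3 := mul_le_mul_of_nonneg_right h h2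
      have h4 : w * (w * η) ≤ 1 * (w * η) := mul_le_mul_of_nonneg_right hw1 h2
      have h5 : C = w * (w * η) := by rw [hC]; ring
      rw [hA, h5]
      linarith only [h3, h4]
    have h2 : 2 * (1 - δ) ≤ A + C := by linarith only [hC1, h1]
    have h3 := mul_le_mul_of_nonneg_left h2 hgδ.le
    -- `0 ≤ g ^ 2 - 2 g + 2 δ - 2 δ ^ 2 - 1`
    have h4 : 0 ≤ g ^ 2 - 2 * g + 2 * δ - 2 * δ ^ 2 - 1 := by nlinarith only [key, h3]
    have h5 : g * (g - 2) ≤ 0 := mul_nonpos_of_nonneg_of_nonpos (by linarith only [hδ0, hgδ]) (by linarith only [hδ0, hgd])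
    nlinarith only [h4, h5, sq_nonneg (2 * δ - 1)]

end Real

variable {E : Type*} [AddCommGroup E] [Module ℝ E] {Ψ : Set E} {B : E →ₗ[ℝ] E →ₗ[ℝ] ℝ}
  {ρ φ : E →ₗ[ℝ] ℝ} {t d1 d2 x x' : E} {g x1 x2 g' x1' x2' : ℝ}

/-- infinitely many `O`-roots cannot be nonpositive at the centre -/
theorem inf_neg (L : Loc Ψ B ρ φ t d1 d2 x x') {c : ℝ} (hc : 1 ≤ c)
    (h : (∀ k, ORt Ψ B d1 d2 (sq c k) (sq c (k + 1)) ∧ sq c k * ρ d1 + sq c (k + 1) * ρ d2 ≤ 0) ∨
      (∀ k, ORt Ψ B d1 d2 (sq c (k + 1)) (sq c k) ∧ sq c (k + 1) * ρ d1 + sq c k * ρ d2 ≤ 0)) : False := by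
  have hst : StrictMono (sq c) := strictMono_nat_of_lt_succ fun n => by linarith only [(sq_incr hc n).2]
  rcases h with h | h
  · have hinj : Function.Injective fun k : ℕ => sq c k • d1 + sq c (k + 1) • d2 := by
      intro k l hkl
      have h2 : sq c k • d1 + sq c (k + 1) • d2 = sq c l • d1 + sq c (l + 1) • d2 := hkl
      obtain ⟨-, h3, -⟩ := L.tri.indep 0 (sq c k - sq c l) (sq c (k + 1) - sq c (l + 1)) (by
        have : (0 : ℝ) • t + (sq c k - sq c l) • d1 + (sq c (k + 1) - sq c (l + 1)) • d2 =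
          (sq c k • d1 + sq c (k + 1) • d2) - (sq c l • d1 + sq c (l + 1) • d2) := by module
        rw [this, h2, sub_self])
      exact hst.injective (by linarith only [h3])
    refine (Set.infinite_range_of_injective hinj) (L.adm.neg.subset ?_)
    rintro _ ⟨k, rfl⟩
    refine ⟨(h k).1.mem, ⟨0, _, _, by simp, Or.inl rfl, (h k).1.z1, (h k).1.z2⟩, ?_⟩
    simp only [map_add, map_smul, smul_eq_mul]
    exact (h k).2
  · have hinj : Function.Injective fun k : ℕ => sq c (k + 1) • d1 + sq c k • d2 := by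
      intro k l hkl
      have h2 : sq c (k + 1) • d1 + sq c k • d2 = sq c (l + 1) • d1 + sq c l • d2 := hkl
      obtain ⟨-, -, h3⟩ := L.tri.indep 0 (sq c (k + 1) - sq c (l + 1)) (sq c k - sq c l) (by
        have : (0 : ℝ) • t + (sq c (k + 1) - sq c (l + 1)) • d1 + (sq c k - sq c l) • d2 =
          (sq c (k + 1) • d1 + sq c k • d2) - (sq c (l + 1) • d1 + sq c l • d2) := by module
        rw [this, h2, sub_self])
      exact hst.injective (by linarith only [h3])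
    refine (Set.infinite_range_of_injective hinj) (L.adm.neg.subset ?_)
    rintro _ ⟨k, rfl⟩
    refine ⟨(h k).1.mem, ⟨0, _, _, by simp, Or.inl rfl, (h k).1.z1, (h k).1.z2⟩, ?_⟩
    simp only [map_add, map_smul, smul_eq_mul]
    exact (h k).2

/-- the isotropic vector is strictly positive at the centre -/
theorem ngbm_gap_pos (L : Loc Ψ B ρ φ t d1 d2 x x') (hb : 1 ≤ -B d1 d2) {w : ℝ} (hw0 : 0 < w) (hw1 : w ≤ 1)
    (hw : w ^ 2 - 2 * -B d1 d2 * w + 1 = 0) (h0 : 0 ≤ w * ρ d1 + ρ d2) : 0 < w * ρ d1 + ρ d2 := by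
  rcases h0.lt_or_eq with h | h
  · exact h
  exfalso
  have hC := L.cpO64
  set b := -B d1 d2 with hbd
  have hbB : B d1 d2 = -b := by rw [hbd, neg_neg]
  have hz : ∀ k, Z1 (sq b k) := by
    intro k
    cases k with
    | zero => exact Or.inl rfl
    | succ k => exact Or.inr (_root_.DY.sq_ge_one hb k)
  have rt1 : ∀ k, ORt Ψ B d1 d2 (sq b (k + 1)) (sq b k) := by
    intro k
    refine ⟨?_, hz _, hz _, ?_⟩
    · have := hC.symm.mem k
      unfold pu at this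
      rw [add_comm]
      exact this
    · have := _root_.DY.sq_norm b k
      rw [hbB]
      linarith only [this]
  have rt2 : ∀ k, ORt Ψ B d1 d2 (sq b k) (sq b (k + 1)) := by
    intro k
    refine ⟨hC.mem k, hz _, hz _, ?_⟩
    have := _root_.DY.sq_norm b k
    rw [hbB]
    linarith only [this]
  have e2 : ρ d2 = -(w * ρ d1) := by linarith only [h]
  refine inf_neg L hb ?_
  rcases le_or_gt 0 (ρ d1) with h1 | h1
  · left
    intro k
    refine ⟨rt2 k, ?_⟩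
    have h2 := w_sq hw k
    have h3 : sq b k * ρ d1 + sq b (k + 1) * ρ d2 = -(w ^ (k + 1) * ρ d1) := by
      rw [e2, ← h2]
      ring
    rw [h3]
    have : 0 ≤ w ^ (k + 1) * ρ d1 := by positivity
    linarith only [this]
  · right
    intro k
    refine ⟨rt1 k, ?_⟩
    have h3 : sq b (k + 1) * ρ d1 + sq b k * ρ d2 = (sq b (k + 1) - w * sq b k) * ρ d1 := by
      rw [e2]
      ring
    rw [h3]
    have h4 := sq_incr hb k
    have h5 : w * sq b k ≤ 1 * sq b k := mul_le_mul_of_nonneg_right hw1 h4.1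
    exact mul_nonpos_of_nonneg_of_nonpos (by linarith only [h4, h5]) h1.le

/-- **NG in the limit gap, `F` beyond `V_2`** -/
theorem ng_bm (X : Xs Ψ B ρ φ t d1 d2 x x' g x1 x2 g' x1' x2')
    (hno : ¬ ∃ al1 al2 be1 be2 : ℝ, OFA Ψ B φ d1 d2 al1 al2 be1 be2)
    (hB : Beyond (-B t d2) (φ d2)) : False := by
  have L := X.L
  have hT := L.tri
  have h := rt_of_tri hT
  obtain ⟨hb, w, hw0, hw1, hw, f1, f2, r1⟩ := gap_data L X.h1 X.h2 hno
  have r1' := ngbm_gap_pos L hb hw0 hw1 hw r1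
  have hx : g • t + x1 • d1 + x2 • d2 ∈ Ψ := by
    rw [← X.e]
    exact L.xm
  have hS2 := L.str_2
  have hκ := X.h2
  have hfz := X.c.fz
  obtain ⟨z0, z1, z2, z3⟩ := X.c.zbar64
  have p1 := X.p1
  have hst := steep_of_gap hw0 hw f2 hκ z0 z1 z3 (by linarith only [hfz] : g + x1 * φ d1 + x2 * φ d2 = 0)
  obtain ⟨η, hη⟩ : ∃ η, η = x1 / w := ⟨_, rfl⟩
  obtain ⟨ζ, hζd⟩ : ∃ ζ, ζ = x2 - η := ⟨_, rfl⟩
  have hx1 : x1 = w * η := by
    rw [hη]
    field_simp
  have hx2 : x2 = ζ + η := by linarith only [hζd]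
  have hη0 : 0 < η := by
    rw [hη]
    positivity
  have hζ : 0 < ζ := by
    have e1 : 0 < w * ζ := by
      have : w * ζ = w * x2 - x1 := by
        rw [hζd, hx1]
        ring
      rw [this]
      linarith only [hst]
    exact (mul_pos_iff_of_pos_left hw0).1 e1
  have hgφ : g = η * -(w * φ d1 + φ d2) + -φ d2 * ζ := by
    rw [hfz, hx1, hx2]
    ring
  have hηq := mul_nonneg hη0.le (by linarith only [f1] : 0 ≤ -(w * φ d1 + φ d2))
  have hκζ := mul_pos (by linarith only [hκ] : 0 < -φ d2) hζ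
  have hg0 : 0 < g := by linarith only [hgφ, hηq, hκζ]
  have hg1 := (h.z0 hx hg0).1
  have hρ := X.le_one.1
  have hρx : g + x1 * ρ d1 + x2 * ρ d2 = g + η * (w * ρ d1 + ρ d2) + ζ * ρ d2 := by
    rw [hx1, hx2]
    ring
  rw [hρx] at hρ
  have hηr := mul_pos hη0 r1'
  have hft := hS2.foot
  have hfζ := mul_le_mul_of_nonneg_left hft hζ.le
  have hcR := X.cR_nonneg
  rw [X.Bxt] at hcR
  -- the spherical case or `b2 ≥ 1`
  have hcp := L.cpt64 (⟨by rw [zero_smul, one_smul, zero_add]; exact hT.hc, Or.inl rfl, Or.inr le_rfl, by ring⟩ :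
    ORt Ψ B d1 d2 0 1)
  have ecp : -B t d1 * 0 + -B t d2 * 1 = -B t d2 := by ring
  rw [ecp] at hcp
  rcases hcp.sq_dich with ⟨c1, c2⟩ | ⟨m, m1, m2, m3, m4⟩
  · -- infinite order
    obtain ⟨e, he0, he1, hee⟩ := exists_e c1
    have hqe : e ≤ -φ d2 := by
      refine om_lim c1 hee he0 he1 ?_
      intro n
      have h3 := hB n (fun i _ => by linarith only [c2 i])
      linarith only [h3]
    obtain ⟨k1, k2⟩ := X.not_beyond c1
    have k3 : 0 < e * (1 + φ d2 ^ 2 - 2 * -B t d2 * -φ d2) := mul_pos he0 k2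
    have k4 : e * (1 + φ d2 ^ 2 - 2 * -B t d2 * -φ d2) = (-φ d2 - e) * (e * -φ d2 - 1) := by
      linear_combination (-φ d2) * hee
    rw [k4] at k3
    have k5 : e * -φ d2 - 1 < 0 := by
      have : e * -φ d2 ≤ 1 * -φ d2 := mul_le_mul_of_nonneg_right he1 (by linarith only [he0, hqe])
      linarith only [k1, this]
    have := mul_nonpos_of_nonneg_of_nonpos (by linarith only [hqe] : 0 ≤ -φ d2 - e) k5.le
    linarith only [k3, this]
  · -- finite order
    have hf := beyond_fin hB m1 m2 m4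
    have n := h.n _ _ _ hx
    have n' : g ^ 2 + ζ ^ 2 - 2 * -B t d2 * g * ζ - 1 =
        η * ((2 * -B t d1 * w + 2 * -B t d2) * g + (w ^ 2 - 1) * ζ) := by
      rw [hx1, hx2] at n
      linear_combination n - (ζ * η + η ^ 2) * hw
    have hb1 := h.b1n
    have hb2 := h.b2n
    have hgζ : 2 * -B t d2 * ζ ≤ g := by
      have := mul_le_mul_of_nonneg_right (by linarith only [hf] : 2 * -B t d2 ≤ -φ d2) hζ.le
      linarith only [hgφ, hηq, this]
    have hc : g - -B t d2 * ζ ≤ (-B t d1 * w + -B t d2) * η := by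
      rw [hx1, hx2] at hcR
      linarith only [hcR]
    rcases rt_b2s h with b0 | b0 | b0
    · have : -B t d2 = 0 := by linarith only [b0]
      rw [this] at hfζ
      linarith only [hg1, hρ, hηr, hfζ]
    · -- `m_2 = 3`
      have e2 : -B t d2 = 1 / 2 := by linarith only [b0]
      rw [e2] at n' hgζ hc hfζ
      have q2 := h.r2 _ _ _ hx
      have z2' := (h.z1 q2 (by linarith only [p1])).2.2
      have q0 := h.r0 _ _ _ q2
      have z0' := (h.z1 q0 (by linarith only [p1])).1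
      obtain ⟨y, hy⟩ : ∃ y, y = 2 * -B t d2 * g + 2 * -B d1 d2 * x1 - x2 := ⟨_, rfl⟩
      rw [← hy] at z2' z0'
      have hy' : y = g - ζ + w ^ 2 * η := by
        rw [hy, e2, hx1, hx2]
        linear_combination (-η) * hw
      have hy0 : 0 < y := by
        have : 0 < w ^ 2 * η := by positivity
        rw [hy']
        linarith only [hgζ, this]
      have hy1 : 1 ≤ y := by
        rcases z2' with h5 | h5
        · linarith only [hy0, h5]
        · exact h5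
      rw [e2] at z0'
      have ht : 0 ≤ 2 * -B t d1 * (w * η) + y - g := by
        have e5 : 2 * -B t d1 * x1 + 2 * (1 / 2) * y - g = 2 * -B t d1 * (w * η) + y - g := by
          rw [hx1]
          ring
        rw [e5] at z0'
        rcases z0' with h5 | h5 <;> linarith only [h5]
      have hb1' : 2 * -B t d1 = 0 ∨ 1 ≤ 2 * -B t d1 := by
        rcases rt_b1s h with h5 | h5 | h5
        · exact Or.inl h5
        · exact Or.inr h5.ge
        · exact Or.inr h5.1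
      have h6 := nb3 (y := y) hb1' hw0 hw1 hη0 (by linarith only [hgζ]) hg1 hζ (by linarith only [hc]) (by linarith only [n']) hy' hy1 ht
      linarith only [hρ, hηr, hfζ, h6]
    · exact nb4 hb1 hb2 b0.2 hw0 hζ hη0 hgζ hc n'

/-- `NGbN` -/
theorem ng_bn : NGbN Ψ B := by
  intro ρ φ t d1 d2 x x' g x1 x2 g' x1' x2' be1 be2 X hno _ _ _ _ _ _ hB
  exact ng_bm X hno hB

end Pool.Agent.Helper57.DY
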