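import Pool.Agent.Helper64.DY.OF

/-!
# No pair of neighbouring O-roots with a change of sign (MP_d13a5e_al)

The content is that of `Loc.oroots64` of helper64; the second alternative is stated by inequalities on `φ`.
-/

set_option autoImplicit false

namespace Pool.Agent.Helper57.DY

open _root_.DY (Z1 C01 Tri Str Loc Xs ORt OFA CP sq sq_zero sq_one sq_two sq_succ sq_norm sq_cassini e0Z1 rf Sys
  pu pu_succ)

variable {E : Type*} [AddCommGroup E] [Module ℝ E] {Ψ : Set E} {B : E →ₗ[ℝ] E →ₗ[ℝ] ℝ}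
  {ρ φ : E →ₗ[ℝ] ℝ} {t d1 d2 x x' : E}

private def Sg57 (α β : ℝ) : Prop :=
  (α = 0 ∧ β = 1 ∨ α = 1 ∧ β = 0 ∨ 1 ≤ α ∧ 1 ≤ β) ∨
    (-α = 0 ∧ -β = 1 ∨ -α = 1 ∧ -β = 0 ∨ 1 ≤ -α ∧ 1 ≤ -β)

private theorem Sg57.swap {α β : ℝ} (h : Sg57 α β) : Sg57 β α := by
  unfold Sg57 at h ⊢
  tauto

private theorem Sg57.neg {α β : ℝ} (h : Sg57 (-α) β) : Sg57 α (-β) := by
  unfold Sg57 at h ⊢
  rw [neg_neg] at h
  rw [neg_neg]
  tauto

/-- neighbours, one of them with the other sign, are canonical -/
private theorem nb57 {t h : E} {b : ℝ} (hC : CP Ψ B t h b) (n : ℕ) :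
    ∀ y ∈ Ψ, ∀ α β : ℝ, y = α • pu b t h n + β • pu b t h (n + 1) → Sg57 α (-β) := by
  have hS := hC.sys
  have ht1 := hS.one t hC.ht
  have hh1 := hS.one h hC.hh
  have hb := hC.hb
  have hb' : B h t = -b := by rw [hS.symm]; exact hb
  induction n with
  | zero =>
    intro y hy α β e
    -- reflection at `h`
    have h1 := hS.refl h hC.hh y hy
    have h2 : rf B h y = β • t + (-α) • h := by
      rw [e]
      unfold rf pu
      simp only [map_add, map_smul, hb', hh1, smul_eq_mul, sq_zero, sq_one, zero_add]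
      rw [sq_two]
      module
    exact (Sg57.neg (Sg57.swap (hC.canon _ h1 β (-α) h2)))
  | succ n ih =>
    intro y hy α β e
    have hm := hC.mem (n + 1)
    have h1 := hS.refl _ hm y hy
    have h3 : B (pu b t h (n + 1)) (pu b t h (n + 1)) = 1 := hS.one _ hm
    have h4 : B (pu b t h (n + 1)) (pu b t h (n + 2)) = b := by
      have e1 : n + 1 + 1 = n + 2 := rfl
      have h5 := sq_cassini b (n + 1)
      have h6 := sq_succ b (n + 1)
      have h7 := sq_norm b (n + 1)
      unfold pu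
      simp only [map_add, map_smul, LinearMap.add_apply, LinearMap.smul_apply, hb', hb, ht1, hh1,
        smul_eq_mul]
      rw [e1] at h5 h7 ⊢
      have e2 : n + 1 + 2 = n + 2 + 1 := rfl
      rw [e2] at h5 h6
      rw [h6]
      linear_combination b * h7
    have h2 : rf B (pu b t h (n + 1)) y = (-β) • pu b t h n + (-α) • pu b t h (n + 1) := by
      rw [e]
      have e1 : n + 1 + 1 = n + 2 := rfl
      rw [e1]
      have h5 := pu_succ b t h n
      unfold rf
      rw [map_add, map_smul, map_smul, h3, h4, smul_eq_mul, smul_eq_mul, h5]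
      module
    have h5 := ih _ h1 (-β) (-α) h2
    rw [neg_neg] at h5
    unfold Sg57 at h5 ⊢
    rw [neg_neg]
    rw [neg_neg] at h5
    tauto

private theorem uniq57 {al1 al2 be1 be2 : ℝ} (ra : ORt Ψ B d1 d2 al1 al2)
    (fa : 0 ≤ al1 * φ d1 + al2 * φ d2) (fh : be1 * φ d1 + be2 * φ d2 < 0)
    (det : al1 * be2 - al2 * be1 = 1)
    (K : ∀ y ∈ Ψ, ∀ α β : ℝ, y = α • (al1 • d1 + al2 • d2) + β • (be1 • d1 + be2 • d2) →
      Sg57 α (-β)) (y1 y2 : ℝ) (hy : ORt Ψ B d1 d2 y1 y2) (hφ : y1 * φ d1 + y2 * φ d2 = 0) :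
    y1 = al1 ∧ y2 = al2 := by
  set u := y1 * be2 - y2 * be1 with hu
  set v := al1 * y2 - al2 * y1 with hv
  have e1 : y1 = u * al1 + v * be1 := by
    rw [hu, hv]
    linear_combination (-y1) * det
  have e2 : y2 = u * al2 + v * be2 := by
    rw [hu, hv]
    linear_combination (-y2) * det
  have e3 : u * (al1 * φ d1 + al2 * φ d2) + v * (be1 * φ d1 + be2 * φ d2) = 0 := by
    rw [e1, e2] at hφ
    linarith
  have h1 := K _ hy.mem u v (by
    nth_rewrite 1 [e1, e2]
    module)
  rcases h1 with (⟨h1, h2⟩ | ⟨h1, h2⟩ | ⟨h1, h2⟩) | (⟨h1, h2⟩ | ⟨h1, h2⟩ | ⟨h1, h2⟩)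
  · exfalso
    have h3 : v = -1 := by linarith
    rw [h1, h3] at e3
    linarith
  · have h3 : v = 0 := by linarith
    rw [h1, h3] at e1 e2
    exact ⟨by linarith, by linarith⟩
  · exfalso
    have h3 := mul_nonneg (by linarith : 0 ≤ u) fa
    have h4 := mul_pos_of_neg_of_neg (by linarith : v < 0) fh
    linarith
  · exfalso
    have h3 : u = 0 := by linarith
    have h4 : v = 1 := by linarith
    rw [h3, h4] at e3
    linarith
  · exfalso
    have h3 : u = -1 := by linarith
    have h4 : v = 0 := by linarith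
    rw [h3, h4] at e1 e2
    have k1 := e0Z1 ra.z1
    have k2 := e0Z1 ra.z2
    have k3 := e0Z1 hy.z1
    have k4 := e0Z1 hy.z2
    have l1 : al1 = 0 := by linarith
    have l2 : al2 = 0 := by linarith
    have := ra.nrm
    rw [l1, l2] at this
    norm_num at this
  · exfalso
    have h3 := mul_nonneg (by linarith : 0 ≤ -u) fa
    have h4 := mul_neg_of_pos_of_neg (by linarith : 0 < v) fh
    linarith

/-- neighbours with a change of sign, or `φ` is in the limit gap -/
theorem imag_or (L : Loc Ψ B ρ φ t d1 d2 x x') (h1 : 0 ≤ φ d1) (h2 : φ d2 < 0) :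
    (∃ al1 al2 be1 be2 : ℝ, OFA Ψ B φ d1 d2 al1 al2 be1 be2) ∨
    (1 ≤ -B d1 d2 ∧ (∀ k, 0 ≤ sq (-B d1 d2) (k + 1) * φ d1 + sq (-B d1 d2) k * φ d2) ∧
      ∀ k, ORt Ψ B d1 d2 (sq (-B d1 d2) k) (sq (-B d1 d2) (k + 1)) ∧
        sq (-B d1 d2) k * φ d1 + sq (-B d1 d2) (k + 1) * φ d2 < 0) := by
  classical
  have hC := L.cpO64
  set b := -B d1 d2 with hb
  have hbB : B d1 d2 = -b := by rw [hb, neg_neg]
  -- O-roots
  have rt1 : ∀ k, Z1 (sq b k) → Z1 (sq b (k + 1)) → ORt Ψ B d1 d2 (sq b (k + 1)) (sq b k) := by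
    intro k z z'
    refine ⟨?_, z', z, ?_⟩
    · have := hC.symm.mem k
      unfold pu at this
      rw [add_comm]
      exact this
    · have := sq_norm b k
      rw [hbB]
      linarith
  have rt2 : ∀ k, Z1 (sq b k) → Z1 (sq b (k + 1)) → ORt Ψ B d1 d2 (sq b k) (sq b (k + 1)) := by
    intro k z z'
    refine ⟨hC.mem k, z, z', ?_⟩
    have := sq_norm b k
    rw [hbB]
    linarith
  have fwd : ∀ j, Z1 (sq b j) → Z1 (sq b (j + 1)) → Z1 (sq b (j + 2)) →
      0 ≤ sq b (j + 1) * φ d1 + sq b j * φ d2 → sq b (j + 2) * φ d1 + sq b (j + 1) * φ d2 < 0 →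
      OFA Ψ B φ d1 d2 (sq b (j + 1)) (sq b j) (sq b (j + 2)) (sq b (j + 1)) := by
    intro j z z' z'' f1 f2
    have h3 := sq_cassini b j
    have h4 := sq_succ b j
    have hdet : sq b (j + 1) * sq b (j + 1) - sq b j * sq b (j + 2) = 1 := by linarith
    refine ⟨rt1 j z z', rt1 (j + 1) z' z'', f1, f2, hdet, ?_,
      uniq57 (rt1 j z z') f1 f2 hdet fun y hy α β e => ?_⟩
    · have h5 : sq b (j + 2) + sq b j = 2 * b * sq b (j + 1) := by linarith
      rw [hbB]
      linear_combination sq b (j + 1) * h5 + b * h3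
    · refine nb57 hC.symm j y hy α β ?_
      rw [e]
      unfold pu
      module
  have bwd : ∀ j, Z1 (sq b j) → Z1 (sq b (j + 1)) → Z1 (sq b (j + 2)) →
      0 ≤ sq b (j + 1) * φ d1 + sq b (j + 2) * φ d2 → sq b j * φ d1 + sq b (j + 1) * φ d2 < 0 →
      OFA Ψ B φ d1 d2 (sq b (j + 1)) (sq b (j + 2)) (sq b j) (sq b (j + 1)) := by
    intro j z z' z'' f1 f2
    have h3 := sq_cassini b j
    have h4 := sq_succ b j
    have hdet : sq b (j + 1) * sq b (j + 1) - sq b (j + 2) * sq b j = 1 := by linarith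
    refine ⟨rt2 (j + 1) z' z'', rt2 j z z', f1, f2, hdet, ?_,
      uniq57 (rt2 (j + 1) z' z'') f1 f2 hdet fun y hy α β e => ?_⟩
    · have h5 : sq b (j + 2) + sq b j = 2 * b * sq b (j + 1) := by linarith
      rw [hbB]
      linear_combination sq b (j + 1) * h5 + b * h3
    · have h5 := nb57 hC j y hy β α (by
        rw [e]
        unfold pu
        module)
      unfold Sg57 at h5 ⊢
      rw [neg_neg] at h5 ⊢
      tauto
  rcases hC.sq_dich with ⟨hc, hs⟩ | ⟨m, hm2, -, -, hs⟩
  · -- infinite order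
    have hz : ∀ k, Z1 (sq b k) := by
      intro k
      cases k with
      | zero => exact Or.inl rfl
      | succ k => exact Or.inr (hs k)
    by_cases hF : ∃ k, sq b (k + 1) * φ d1 + sq b k * φ d2 < 0
    · left
      have f1 := Nat.find_spec hF
      have f2 := fun k hk => Nat.find_min hF (m := k) hk
      set n := Nat.find hF with hn
      cases hn' : n with
      | zero =>
        rw [hn'] at f1
        simp at f1
        linarith
      | succ j =>
        rw [hn'] at f1 f2
        exact ⟨_, _, _, _, fwd j (hz _) (hz _) (hz _) (not_lt.1 (f2 j (by omega))) f1⟩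
    · push Not at hF
      by_cases hF' : ∃ k, 0 ≤ sq b k * φ d1 + sq b (k + 1) * φ d2
      · left
        have f1 := Nat.find_spec hF'
        have f2 := fun k hk => Nat.find_min hF' (m := k) hk
        set n := Nat.find hF' with hn
        cases hn' : n with
        | zero =>
          rw [hn'] at f1
          simp at f1
          linarith
        | succ j =>
          rw [hn'] at f1 f2
          exact ⟨_, _, _, _, bwd j (hz _) (hz _) (hz _) f1 (not_le.1 (f2 j (by omega)))⟩
      · right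
        push Not at hF'
        exact ⟨hc, hF, fun k => ⟨rt2 k (hz _) (hz _), hF' k⟩⟩
  · -- finite order
    left
    have hlast : sq b (m + 1 + 1) * φ d1 + sq b (m + 1) * φ d2 < 0 := by
      have e1 : m + 1 + 1 = m + 2 := rfl
      rw [e1, hm2]
      have := hs m le_rfl
      nlinarith
    have hF : ∃ k, sq b (k + 1) * φ d1 + sq b k * φ d2 < 0 := ⟨m + 1, hlast⟩
    have hle : Nat.find hF ≤ m + 1 := Nat.find_min' hF hlast
    have f1 := Nat.find_spec hF
    have f2 := fun k hk => Nat.find_min hF (m := k) hk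
    set n := Nat.find hF with hn
    cases hn' : n with
    | zero =>
      rw [hn'] at f1
      simp at f1
      linarith
    | succ j =>
      rw [hn'] at f1 f2 hle
      have hz : ∀ k ≤ m + 2, Z1 (sq b k) := by
        intro k hk
        cases k with
        | zero => exact Or.inl rfl
        | succ k =>
          rcases Nat.lt_or_ge k (m + 1) with h3 | h3
          · exact Or.inr (hs k (by omega))
          · have : k = m + 1 := by omega
            rw [this]
            exact Or.inl hm2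
      exact ⟨_, _, _, _, fwd j (hz _ (by omega)) (hz _ (by omega)) (hz _ (by omega))
        (not_lt.1 (f2 j (by omega))) f1⟩


end Pool.Agent.Helper57.DY
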