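import Pool.Agent.Helper57.DY.NGinf
import Pool.Agent.Helper57.DY.OFm

/-!
# NG, `φ` in the limit gap, `F` good at `V_2` (MP_d13a5e_al)

`w ^ 2 - 2 bO w + 1 = 0`, `0 < w ≤ 1`; `w d1 + d2` is isotropic, `ρ (w d1 + d2) ≥ 0`, and
`x = g t + η (w d1 + d2) + ζ d2`.
-/

set_option autoImplicit false

namespace Pool.Agent.Helper57.DY

open _root_.DY (Z1 C01 Tri Str Loc Xs ORt OFA Good Beyond Canon CP sq sq_zero sq_one sq_two sq_succ sq_cassini
  sq_diff_le sq_mono sq_incr)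
open Pool.Agent.Helper62.DY (RT rt_of_tri om_lim ult_low canon_neg)

section Real

variable {c w : ℝ}

theorem w_sq (hw : w ^ 2 - 2 * c * w + 1 = 0) (k : ℕ) : w * sq c (k + 1) - sq c k = w ^ (k + 1) := by
  induction k with
  | zero => simp
  | succ k ih =>
    rw [sq_succ, pow_succ]
    linear_combination w * ih - sq c (k + 1) * hw

theorem sq_lin (hc : 1 ≤ c) (k : ℕ) : (k : ℝ) ≤ sq c k := by
  induction k with
  | zero => simp
  | succ k ih =>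
    have := (sq_incr hc k).2
    push_cast
    linarith

theorem arch {a b : ℝ} (hc : 1 ≤ c) (h : ∀ k, 0 ≤ sq c (k + 1) * a + b) : 0 ≤ a := by
  by_contra ha
  rw [not_le] at ha
  obtain ⟨k, hk⟩ := exists_nat_gt (b / (-a))
  rw [div_lt_iff₀ (by linarith)] at hk
  have h1 := h k
  have h2 := sq_lin hc (k + 1)
  push_cast at h2
  have h3 : (sq c (k + 1) - k) * a ≤ 0 := mul_nonpos_of_nonneg_of_nonpos (by linarith) ha.le
  nlinarith

/-- the limit of the O-roots near `d2` -/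
theorem lim2 (hc : 1 ≤ c) (hw : w ^ 2 - 2 * c * w + 1 = 0) (hw0 : 0 < w) (hw1 : w ≤ 1) {f1 f2 C : ℝ}
    (h : ∀ k, 0 ≤ sq c k * f1 + sq c (k + 1) * f2 + C) : 0 ≤ w * f1 + f2 := by
  refine arch (b := C + |f1|) hc fun k => ?_
  have h1 := h k
  have h2 := w_sq hw k
  have h3 : w ^ (k + 1) ≤ 1 := pow_le_one₀ hw0.le hw1
  have h4 : 0 ≤ w ^ (k + 1) := by positivity
  have h5 : -|f1| ≤ w ^ (k + 1) * f1 := by
    have h6 : |w ^ (k + 1) * f1| ≤ |f1| := by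
      rw [abs_mul, abs_of_nonneg h4]
      nlinarith [abs_nonneg f1]
    have := neg_abs_le (w ^ (k + 1) * f1)
    linarith
  have h6 : w ^ (k + 1) * f1 = (w * sq c (k + 1) - sq c k) * f1 := by rw [h2]
  have h7 : |w ^ (k + 1) * f1| ≤ |f1| := by
    rw [abs_mul, abs_of_nonneg h4]
    nlinarith [abs_nonneg f1]
  have h8 := le_abs_self (w ^ (k + 1) * f1)
  nlinarith

/-- an O-root of the steep kind, not `d2`, has second coefficient at least `2` -/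
theorem steep_two {l x y : ℝ} (hl : 2 ≤ l) (hx : 1 ≤ x) (hy : 0 < y) (hn : x ^ 2 + y ^ 2 - l * x * y = 1)
    (hyx : x ≤ y) (hz : Z1 (l * x - y)) : 2 ≤ y := by
  by_contra hcon
  rw [not_le] at hcon
  rcases hz with h | h
  · have h1 : y = l * x := by linarith
    nlinarith
  · -- `x ^ 2 = 1 + y (l x - y) ≥ 1 + y`
    have h1 : x ^ 2 = 1 + y * (l * x - y) := by linarith
    have h2 : y * 1 ≤ y * (l * x - y) := mul_le_mul_of_nonneg_left h hy.le
    have h3 : 1 + y ≤ x ^ 2 := by linarith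
    -- `y ^ 2 = 1 + x (l y - x) ≥ 1 + x y`
    have h4 : y ^ 2 = 1 + x * (l * y - x) := by linarith
    have h5 : y ≤ l * y - x := by nlinarith
    have h6 : x * y ≤ x * (l * y - x) := mul_le_mul_of_nonneg_left h5 (by linarith)
    have h7 : 1 + x * y ≤ y ^ 2 := by linarith
    -- `y (y - x) ≥ 1`, `y < 2`, so `y - x > 1/2`
    have h8 : 1 / 2 < y - x := by
      by_contra h9
      rw [not_lt] at h9
      nlinarith
    nlinarith

/-- the inequality for `j = 3` -/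
theorem im3 {b1 b2 bO : ℝ} {R : ℝ → ℝ → ℝ → Prop} (hR : RT b1 b2 bO R) (hb : 1 ≤ bO)
    (hw : w ^ 2 - 2 * bO * w + 1 = 0) (hw0 : 0 < w) (hw1 : w ≤ 1) {g x1 x2 η ζ : ℝ}
    (hx : R g x1 x2) (hg : 1 ≤ g) (hx1 : 1 ≤ x1)
    (e1 : x1 = w * η) (e2 : x2 = ζ + η) (hζ : 0 < ζ) (hη : 0 < η) (hl2 : 2 ≤ (2 * b2) ^ 2) (hl1' : 1 ≤ 2 * b2)
    (h6 : ζ ≤ 2 * b2 * g) : 2 * b2 + 1 ≤ g + (2 * b2 * g - ζ) := by
  have n := hR.n _ _ _ hx
  have n' : g ^ 2 + ζ ^ 2 - 2 * b2 * g * ζ - 1 =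
      η * ((2 * b1 * w + 2 * b2) * g + (w ^ 2 - 1) * ζ) := by
    rw [e1, e2] at n
    linear_combination n - (ζ * η + η ^ 2) * hw
  obtain ⟨l, hl⟩ : ∃ l, l = 2 * b2 := ⟨_, rfl⟩
  obtain ⟨l1, hl1⟩ : ∃ l1, l1 = 2 * b1 := ⟨_, rfl⟩
  obtain ⟨lO, hlO⟩ : ∃ lO, lO = 2 * bO := ⟨_, rfl⟩
  have r2' := hR.r2 _ _ _ hx
  obtain ⟨y, hy⟩ : ∃ y, y = l * g + lO * x1 - x2 := ⟨_, rfl⟩
  have z2 := (hR.z1 r2' (by linarith)).2.2
  rw [← hl] at hl2 hl1' h6 n'
  rw [← hl, ← hlO, ← hy] at r2' z2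
  rw [← hl1] at n'
  rw [← hlO] at hw
  rw [← hl]
  obtain ⟨W, hW⟩ : ∃ W, W = l * g - ζ := ⟨_, rfl⟩
  rw [← hW]
  have hl0 : 0 < l := by linarith
  have hW0 : 0 ≤ W := by rw [hW]; linarith
  have hyW : y = W + w ^ 2 * η := by
    rw [hy, hW, e1, e2]
    linear_combination (-η) * hw
  have hw2 : 0 < w ^ 2 * η := by positivity
  have hl1n : 0 ≤ l1 := by rw [hl1]; linarith [hR.b1n]
  have hζW : ζ = l * g - W := by rw [hW]; ring
  have hy0 : 0 < y := by linarith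
  have r0' := hR.r0 _ _ _ r2'
  have z0' := (hR.z1 r0' (by linarith)).1
  rw [← hl, ← hl1] at r0' z0'
  rcases z0' with h7 | h7
  · -- `a4 = 0`
    rw [h7] at r0'
    have m0 := hR.n _ _ _ r0'
    have r3 := hR.r2 _ _ _ r0'
    have z3 := (hR.z1 r3 (by linarith)).2.2
    have f1 : 2 * b2 * 0 + 2 * bO * x1 - y = lO * x1 - y := by rw [hlO]; ring
    rw [f1] at z3
    have m1 : x1 ^ 2 + y ^ 2 - lO * x1 * y = 1 := by rw [hlO]; linarith
    have hy1 : x1 ≤ y := by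
      have m2 : (w * y - x1) * (y - w * x1) = w := by
        linear_combination w * m1 - (x1 * y) * hw
      have m3 : 0 ≤ y - w * x1 := by
        rw [hyW, e1]
        have : W + w ^ 2 * η - w * (w * η) = W := by ring
        rw [this]
        exact hW0
      have m4 : 0 ≤ w * y - x1 := by
        by_contra m5
        rw [not_le] at m5
        have := mul_nonpos_of_nonpos_of_nonneg m5.le m3
        linarith
      have m5 : w * y ≤ 1 * y := mul_le_mul_of_nonneg_right hw1 hy0.le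
      linarith
    have h8 := steep_two (l := lO) (by rw [hlO]; linarith) hx1 hy0 m1 hy1 z3
    have h9 : g = l1 * x1 + l * y := by linarith
    have h10 : 0 ≤ l1 * x1 := mul_nonneg hl1n (by linarith)
    have h11 := mul_le_mul_of_nonneg_left h8 hl0.le
    linarith
  · -- `a4 ≥ 1`
    have hN : g ^ 2 + W ^ 2 - l * g * W - 1 =
        η * ((l1 * w + l * w ^ 2) * g - (w ^ 2 - 1) * W) := by
      rw [hζW] at n'
      linear_combination n'
    have hww : w ^ 2 ≤ 1 := pow_le_one₀ hw0.le hw1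
    have hN0 : 0 < l1 * w + l * w ^ 2 := by
      have a1 := mul_nonneg hl1n hw0.le
      have a2 : 0 < l * w ^ 2 := by positivity
      linarith
    have hA : 1 + (g - l * W) ≤ ((l1 * w + l * w ^ 2) + 0) * η := by
      have : ((l1 * w + l * w ^ 2) + 0) * η = (l1 * x1 + l * y - g) + (g - l * W) := by
        rw [hyW, e1]
        ring
      rw [this]
      linarith
    have hL : 0 ≤ (l1 * w + l * w ^ 2) * g - (w ^ 2 - 1) * W := by
      have a1 := mul_nonneg hN0.le (by linarith : 0 ≤ g)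
      have a2 := mul_nonneg (by linarith : 0 ≤ 1 - w ^ 2) hW0
      linarith
    refine j3_main (N := l1 * w + l * w ^ 2) (N2 := w ^ 2 - 1) (e := 0) hl2 hl0 le_rfl hW0
      (by rw [← hζW]; exact hζ) hη hL hN hA ?_ ?_ ?_ ?_
    · linarith
    · have a1 := mul_nonneg (by linarith : 0 ≤ l + 2) hN0.le
      have a2 := mul_nonneg (by linarith : 0 ≤ l + 1) (by linarith : 0 ≤ 1 - w ^ 2)
      linarith
    · have a1 := mul_nonneg hl0.le hN0.le
      linarith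
    · linarith

/-- the coefficient inequality for `j ≥ 4` -/
theorem im_nj {l w A C D p : ℝ} (hl : 1 < l) (hl2 : 2 ≤ l ^ 2) (hw0 : 0 < w) (hA : 1 ≤ A) (hD : 1 ≤ D) (hC : l ≤ C)
    (hp : 0 ≤ p) (q : A = l * C - D) (c1 : C ^ 2 - D * A = 1) :
    w * (l ^ 2 - 1) ≤ l * (C * (p + l) + A * (w ^ 2 - 1)) := by
  have a1 : l * (C * (p + l) + A * (w ^ 2 - 1)) = l * C * p + l * (D + A * w ^ 2) := by
    linear_combination (-l) * q
  have a2 : 0 ≤ l * C * p := mul_nonneg (mul_nonneg (by linarith) (by linarith)) hp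
  have a3 : w * (l ^ 2 - 1) ≤ l * (D + A * w ^ 2) := by
    have a4 : 0 ≤ l * (D + A * w ^ 2) := by positivity
    refine le_of_sq_le_sq ?_ a4
    have a5 : l ^ 2 ≤ C ^ 2 := pow_le_pow_left₀ (by linarith) hC 2
    have a6 : 4 * (l ^ 2 - 1) ≤ 4 * (A * D) := by
      have : A * D = C ^ 2 - 1 := by linarith
      rw [this]
      linarith
    have a7 : 4 * (A * D) * w ^ 2 ≤ (D + A * w ^ 2) ^ 2 := by
      have := sq_nonneg (D - A * w ^ 2)
      have e : (D + A * w ^ 2) ^ 2 = (D - A * w ^ 2) ^ 2 + 4 * (A * D) * w ^ 2 := by ring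
      rw [e]
      linarith
    have a8 : 4 * (l ^ 2 - 1) * w ^ 2 ≤ (D + A * w ^ 2) ^ 2 := by
      have := mul_le_mul_of_nonneg_right a6 (sq_nonneg w)
      linarith
    have a9 : l ^ 2 * (4 * (l ^ 2 - 1) * w ^ 2) ≤ l ^ 2 * (D + A * w ^ 2) ^ 2 :=
      mul_le_mul_of_nonneg_left a8 (sq_nonneg l)
    have b1' : 0 ≤ w ^ 2 * ((l ^ 2 - 1) * (3 * l ^ 2 + 1)) :=
      mul_nonneg (sq_nonneg w) (mul_nonneg (by linarith) (by positivity))
    have e1 : (l * (D + A * w ^ 2)) ^ 2 = l ^ 2 * (D + A * w ^ 2) ^ 2 := by ring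
    have e2 : l ^ 2 * (4 * (l ^ 2 - 1) * w ^ 2) = (w * (l ^ 2 - 1)) ^ 2 +
      w ^ 2 * ((l ^ 2 - 1) * (3 * l ^ 2 + 1)) := by ring
    rw [e1]
    linarith
  rw [a1]
  linarith

/-- the inequality for `j ≥ 4` -/
theorem im4 {b1 b2 bO : ℝ} {R : ℝ → ℝ → ℝ → Prop} (hR : RT b1 b2 bO R)
    (hw : w ^ 2 - 2 * bO * w + 1 = 0) (hw0 : 0 < w) {g x1 x2 η ζ : ℝ}
    (hx : R g x1 x2) (hx1 : 1 ≤ x1)
    (e1 : x1 = w * η) (e2 : x2 = ζ + η) (hζ : 0 < ζ) (hη : 0 < η) {m : ℕ}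
    (hs : ∀ n, 1 ≤ n → n ≤ m + 4 → 1 ≤ sq b2 n) (hκ : sq b2 (m + 2) * ζ ≤ sq b2 (m + 3) * g) :
    sq b2 (m + 4) ≤ sq b2 (m + 4) * g - (sq b2 (m + 3) - 1) * ζ := by
  have n := hR.n _ _ _ hx
  have n' : g ^ 2 + ζ ^ 2 - 2 * b2 * g * ζ - 1 =
      η * ((2 * b1 * w + 2 * b2) * g + (w ^ 2 - 1) * ζ) := by
    rw [e1, e2] at n
    linear_combination n - (ζ * η + η ^ 2) * hw
  have hb0 := hR.b2n
  have g0 : 0 ≤ sq b2 m := by
    rcases Nat.eq_zero_or_pos m with h | h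
    · rw [h, sq_zero]
    · linarith [hs m h (by omega)]
  have g1 := hs (m + 1) (by omega) (by omega)
  have g2 := hs (m + 2) (by omega) (by omega)
  have g3 := hs (m + 3) (by omega) (by omega)
  have g4 := hs (m + 4) (by omega) (by omega)
  have s2 := hs 2 (by omega) (by omega)
  have s3 := hs 3 (by omega) (by omega)
  have g5 : 0 ≤ sq b2 (m + 5) := hR.pnn (m + 3) (by linarith)
  have q3 := sq_succ b2 (m + 1)
  have q4 := sq_succ b2 (m + 2)
  have c2 := sq_cassini b2 (m + 2)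
  have c1 := sq_cassini b2 (m + 1)
  have i1 : m + 1 + 2 = m + 3 := rfl
  have i2 : m + 1 + 1 = m + 2 := rfl
  have i3 : m + 2 + 2 = m + 4 := rfl
  have i4 : m + 2 + 1 = m + 3 := rfl
  rw [i1, i2] at q3 c1
  rw [i3, i4] at q4 c2
  have gl2 : 2 * b2 ≤ sq b2 (m + 2) := sq_ge_l hb0 g0 (by linarith) (by linarith)
  have gl3 : 2 * b2 ≤ sq b2 (m + 3) := sq_ge_l hb0 (n := m + 1) (by linarith) (by linarith) g5
  have e2' : sq b2 2 = 2 * b2 := sq_two
  have e3' : sq b2 3 = (2 * b2) ^ 2 - 1 := by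
    have : sq b2 3 = 2 * b2 * sq b2 2 - sq b2 1 := sq_succ b2 1
    rw [this, e2', sq_one]
    ring
  have hl1 : 1 ≤ 2 * b2 := by rw [← e2']; exact s2
  have hl2 : 2 ≤ (2 * b2) ^ 2 := by linarith
  have hlt : 1 < 2 * b2 := one_lt_of_sq (by linarith) hl2
  have hBC : sq b2 (m + 2) ≤ sq b2 (m + 4) + 2 := by
    rcases le_or_gt 1 b2 with h | h
    · have := sq_mono h (by omega : m + 2 ≤ m + 4)
      linarith
    · have h3 := sq_diff_le (b := b2) (pow_le_one₀ hb0 h.le) (m + 2)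
      rw [i3, abs_le] at h3
      linarith [h3.1]
  have hp : 0 ≤ 2 * b1 * w := by
    have := mul_nonneg hR.b1n hw0.le
    linarith
  have hNj := im_nj hlt hl2 hw0 g3 g1 gl2 hp q3 c1
  exact j4 (l := 2 * b2) (A := sq b2 (m + 3)) (Bq := sq b2 (m + 4)) (C := sq b2 (m + 2))
    (L1 := 2 * b1 * w + 2 * b2) (L2 := w ^ 2 - 1) (η := η) (h1 := w)
    (by linarith) (by linarith) (by linarith) gl2 (by linarith) (by linarith) hBC hκ hζ
    (by linarith) hη (by rw [← e1]; exact hx1) hl1 hNj n'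

/-- **single-root lemma for the limit gap** -/
theorem im_core {b1 b2 bO : ℝ} {R : ℝ → ℝ → ℝ → Prop} (hR : RT b1 b2 bO R) (hb : 1 ≤ bO)
    (hw : w ^ 2 - 2 * bO * w + 1 = 0) (hw0 : 0 < w) (hw1 : w ≤ 1) {g x1 x2 η ζ : ℝ}
    (hx : R g x1 x2) (hg : 1 ≤ g) (hx1 : 1 ≤ x1)
    (e1 : x1 = w * η) (e2 : x2 = ζ + η) (hζ : 0 < ζ) {f2 r2 rh : ℝ} (hf : f2 < 0) {k : ℕ}
    (hk : Good b2 f2 k) (hS : Str b2 f2 r2) (hu : -f2 * ζ ≤ g) (hrh : 0 ≤ rh) :
    1 < g + η * rh + ζ * r2 := by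
  have hη : 0 < η := by
    have h3 : 0 < w * η := by rw [← e1]; linarith
    exact (mul_pos_iff_of_pos_left hw0).1 h3
  have hk1 := hk.pos hf
  have hnk := hk.nk hS hf
  have fin : sq b2 (k + 1) ≤ sq b2 (k + 1) * g - (sq b2 k - 1) * ζ → 1 < g + η * rh + ζ * r2 := by
    intro h3
    have h4 := fin_ineq (e := 0) (u := g) (rh := rh) (hk.hs k le_rfl) hη.le hζ (by linarith) hnk h3
    linarith
  rcases hk1.eq_or_lt with h3 | h3
  · -- `j = 2`
    subst h3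
    refine fin ?_
    have i1 : sq b2 (1 + 1) = 2 * b2 := sq_two
    have i2 : sq b2 1 = 1 := sq_one
    have s2 := hR.pge 1 (hk.hs 1 le_rfl)
    rw [i1] at s2
    rw [i1, i2]
    have := mul_le_mul_of_nonneg_left hg (by linarith : 0 ≤ 2 * b2)
    linarith
  · rcases (Nat.succ_le_of_lt h3).eq_or_lt with h4 | h4
    · -- `j = 3`
      have h4' : 2 = k := h4
      subst h4'
      have s3 := hR.pge 2 (hk.hs 2 le_rfl)
      have s2 := hR.pge 1 (hk.hs 1 (by norm_num))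
      have i1 : sq b2 (1 + 1) = 2 * b2 := sq_two
      have i3 : sq b2 (2 + 1) = (2 * b2) ^ 2 - 1 := by
        have : sq b2 3 = 2 * b2 * sq b2 2 - sq b2 1 := sq_succ b2 1
        have i4 : sq b2 (2 + 1) = sq b2 3 := rfl
        rw [i4, this, sq_two, sq_one]
        ring
      rw [i1] at s2
      rw [i3] at s3
      have h5 := hk.hm 1 (by norm_num)
      have i2 : sq b2 1 = 1 := sq_one
      rw [i1, i2] at h5
      have h6 : ζ ≤ 2 * b2 * g := by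
        have h7 := mul_le_mul_of_nonneg_left hu (by linarith : 0 ≤ 2 * b2)
        have h8 : 1 * ζ ≤ 2 * b2 * -f2 * ζ := mul_le_mul_of_nonneg_right (by linarith) hζ.le
        linarith
      refine fin ?_
      have i5 : sq b2 2 = 2 * b2 := sq_two
      rw [i3, i5]
      have h7 := im3 hR hb hw hw0 hw1 hx hg hx1 e1 e2 hζ hη (by linarith) s2 h6
      have h8 : 0 ≤ (2 * b2 - 1) * (g + (2 * b2 * g - ζ) - (2 * b2 + 1)) :=
        mul_nonneg (by linarith) (by linarith)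
      have h9 : ((2 * b2) ^ 2 - 1) * g - (2 * b2 - 1) * ζ - ((2 * b2) ^ 2 - 1) =
        (2 * b2 - 1) * (g + (2 * b2 * g - ζ) - (2 * b2 + 1)) := by ring
      linarith
    · -- `j ≥ 4`
      obtain ⟨m, rfl⟩ : ∃ m, k = m + 3 := ⟨k - 3, by omega⟩
      have hs : ∀ n, 1 ≤ n → n ≤ m + 4 → 1 ≤ sq b2 n := by
        intro n h5 h6
        obtain ⟨l, rfl⟩ : ∃ l, n = l + 1 := ⟨n - 1, by omega⟩
        exact hR.pge l (hk.hs l (by omega))
      have h5 := hk.hm (m + 2) (by omega)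
      have i0 : m + 2 + 1 = m + 3 := rfl
      rw [i0] at h5
      have hκ : sq b2 (m + 2) * ζ ≤ sq b2 (m + 3) * g := by
        have h7 := mul_le_mul_of_nonneg_left hu (by linarith [hs (m + 3) (by omega) (by omega)] :
          0 ≤ sq b2 (m + 3))
        have h8 : sq b2 (m + 2) * ζ ≤ sq b2 (m + 3) * -f2 * ζ :=
          mul_le_mul_of_nonneg_right (by linarith) hζ.le
        linarith
      refine fin ?_
      exact im4 hR hw hw0 hx hx1 e1 e2 hζ hη hs hκ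

end Real

variable {E : Type*} [AddCommGroup E] [Module ℝ E] {Ψ : Set E} {B : E →ₗ[ℝ] E →ₗ[ℝ] ℝ}
  {ρ φ : E →ₗ[ℝ] ℝ} {t d1 d2 x x' : E} {g x1 x2 g' x1' x2' : ℝ}

/-- what the limit gap gives -/
theorem gap_data (L : Loc Ψ B ρ φ t d1 d2 x x') (h1 : 0 ≤ φ d1) (h2 : φ d2 < 0)
    (hno : ¬ ∃ al1 al2 be1 be2 : ℝ, OFA Ψ B φ d1 d2 al1 al2 be1 be2) :
    1 ≤ -B d1 d2 ∧ ∃ w : ℝ, 0 < w ∧ w ≤ 1 ∧ w ^ 2 - 2 * -B d1 d2 * w + 1 = 0 ∧ w * φ d1 + φ d2 ≤ 0 ∧
      0 ≤ φ d1 + w * φ d2 ∧ 0 ≤ w * ρ d1 + ρ d2 := by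
  rcases imag_or L h1 h2 with h | ⟨hb, hF, hG⟩
  · exact absurd h hno
  obtain ⟨w, hw0, hw1, hw⟩ := exists_e hb
  refine ⟨hb, w, hw0, hw1, hw, ?_, ?_, ?_⟩
  · have h3 := lim2 (f1 := -φ d1) (f2 := -φ d2) (C := 0) hb hw hw0 hw1 (fun k => by
      have := (hG k).2
      linarith)
    linarith
  · have h3 := lim2 (f1 := φ d2) (f2 := φ d1) (C := 0) hb hw hw0 hw1 (fun k => by
      have := hF k
      linarith)
    linarith
  · refine lim2 (C := 1) hb hw hw0 hw1 (fun k => ?_)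
    have h3 := (L.str_h (hG k).1).low 0 (fun i hi => by
      have : i = 0 := by omega
      subst this
      simp)
    rw [sq_zero, zero_add, sq_one] at h3
    linarith

/-- in the limit gap `x` is steeper than the isotropic vector -/
theorem steep_of_gap {b0 f1 f2 w g x1 x2 : ℝ} (hw0 : 0 < w) (hw : w ^ 2 - 2 * b0 * w + 1 = 0)
    (h1 : 0 ≤ f1 + w * f2) (h2 : f2 < 0) (hg : 0 ≤ g) (hx1 : 0 ≤ x1)
    (hQ : 0 < x1 ^ 2 + x2 ^ 2 - 2 * b0 * x1 * x2) (hf : g + x1 * f1 + x2 * f2 = 0) : x1 < w * x2 := by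
  by_contra hcon
  rw [not_lt] at hcon
  have e1 : (w * x2 - x1) * (x2 - w * x1) = w * (x1 ^ 2 + x2 ^ 2 - 2 * b0 * x1 * x2) := by
    linear_combination (-(x1 * x2)) * hw
  have e2 : 0 < (w * x2 - x1) * (x2 - w * x1) := by
    rw [e1]
    exact mul_pos hw0 hQ
  have e3 : x2 - w * x1 < 0 := by
    by_contra h3
    rw [not_lt] at h3
    have := mul_nonpos_of_nonpos_of_nonneg (by linarith : w * x2 - x1 ≤ 0) h3
    linarith
  have e4 := mul_pos_of_neg_of_neg e3 h2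
  have e5 := mul_nonneg hx1 h1
  linarith

/-- **NG in the limit gap, `F` good at `V_2`** -/
theorem ng_im (X : Xs Ψ B ρ φ t d1 d2 x x' g x1 x2 g' x1' x2')
    (hno : ¬ ∃ al1 al2 be1 be2 : ℝ, OFA Ψ B φ d1 d2 al1 al2 be1 be2)
    {k2 : ℕ} (hk2 : Good (-B t d2) (φ d2) k2) : False := by
  have L := X.L
  have hT := L.tri
  have h := rt_of_tri hT
  obtain ⟨hb, w, hw0, hw1, hw, f1, f2, r1⟩ := gap_data L X.h1 X.h2 hno
  have hx : g • t + x1 • d1 + x2 • d2 ∈ Ψ := by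
    rw [← X.e]
    exact L.xm
  have hS2 := L.str_2
  have hκ := X.h2
  have hfz := X.c.fz
  obtain ⟨z0, z1, z2, z3⟩ := X.c.zbar64
  have p1 := X.p1
  have hst := steep_of_gap hw0 hw f2 hκ z0 z1 (by
    have : x1 ^ 2 + x2 ^ 2 - 2 * -B d1 d2 * x1 * x2 = x1 ^ 2 + x2 ^ 2 - 2 * (-B d1 d2) * x1 * x2 := rfl
    exact z3) (by linarith : g + x1 * φ d1 + x2 * φ d2 = 0)
  obtain ⟨η, hη⟩ : ∃ η, η = x1 / w := ⟨_, rfl⟩
  obtain ⟨ζ, hζd⟩ : ∃ ζ, ζ = x2 - η := ⟨_, rfl⟩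
  have hx1 : x1 = w * η := by
    rw [hη]
    field_simp
  have hx2 : x2 = ζ + η := by linarith
  have hη0 : 0 < η := by
    rw [hη]
    positivity
  have hζ : 0 < ζ := by
    have e1 : 0 < w * ζ := by
      have : w * ζ = w * x2 - x1 := by
        rw [hζd, hx1]
        ring
      rw [this]
      linarith
    exact (mul_pos_iff_of_pos_left hw0).1 e1
  have hgφ : g = η * -(w * φ d1 + φ d2) + -φ d2 * ζ := by
    rw [hfz, hx1, hx2]
    ring
  have hηq := mul_nonneg hη0.le (by linarith : 0 ≤ -(w * φ d1 + φ d2))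
  have hκζ := mul_pos (by linarith : 0 < -φ d2) hζ
  have hg0 : 0 < g := by linarith
  have hg1 := (h.z0 hx hg0).1
  have key := im_core h hb hw hw0 hw1 hx hg1 p1 hx1 hx2 hζ hκ hk2 hS2 (by linarith) r1
  have hρ := X.le_one.1
  have hρx : g + x1 * ρ d1 + x2 * ρ d2 = g + η * (w * ρ d1 + ρ d2) + ζ * ρ d2 := by
    rw [hx1, hx2]
    ring
  rw [hρx] at hρ
  linarith

end Pool.Agent.Helper57.DY
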