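import Pool.Agent.Helper57.DY.NGs
import Pool.Agent.Helper62.DY.NG0
import Pool.Agent.Helper64.DY.OF
import Pool.Agent.Helper40.DY.VAB
import Pool.Agent.Helper9.DY.NG

/-!
# NG, `F` good at `V_2` and beyond the lines of `t`, `h` (MP_d13a5e_al, block (1c))

`ngInf_ofa`: the alternative `OFA`.
-/

set_option autoImplicit false

namespace Pool.Agent.Helper57.DY

open _root_.DY (Z1 C01 Tri Str Loc Xs ORt OFA Good Beyond Canon CP sq sq_zero sq_one sq_two sq_succ)
open Pool.Agent.Helper62.DY (RT rt_of_tri om_lim ult_low canon_neg)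

variable {E : Type*} [AddCommGroup E] [Module ℝ E] {Ψ : Set E} {B : E →ₗ[ℝ] E →ₗ[ℝ] ℝ}
  {ρ φ : E →ₗ[ℝ] ℝ} {t d1 d2 x x' : E} {g x1 x2 g' x1' x2' : ℝ}

/-- beyond a pencil of finite order -/
theorem beyond_fin {c f : ℝ} (h : Beyond c f) {m : ℕ} (h0 : sq c (m + 2) = 0) (h1 : sq c (m + 1) = 1)
    (hs : ∀ k ≤ m, 1 ≤ sq c (k + 1)) : f ≤ -(2 * c) := by
  have h2 := h m (fun i hi => by linarith [hs i hi])
  have h3 := sq_succ c m
  rw [h0, h1] at h3
  rw [h1] at h2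
  linarith

/-- good at `V_2`: `-φ d2 < 2 b2` -/
theorem good_lt {b1 b2 bO f : ℝ} {R : ℝ → ℝ → ℝ → Prop} (h : RT b1 b2 bO R) {k : ℕ} (hk : Good b2 f k)
    (hf : f < 0) : -f < 2 * b2 := by
  have hk1 := hk.pos hf
  obtain ⟨m, rfl⟩ : ∃ m, k = m + 1 := ⟨k - 1, by omega⟩
  have e1 := hk.hs (m + 1) le_rfl
  have e2 := hk.hpos
  have e3 : 0 ≤ sq b2 (m + 3) := h.pnn (m + 1) e1
  have e4 := sq_succ b2 (m + 1)
  have i1 : m + 1 + 1 = m + 2 := rfl
  have i2 : m + 1 + 2 = m + 3 := rfl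
  rw [i1] at e1 e2 e4
  rw [i2] at e4
  have e5 : sq b2 (m + 2) * (-f) < sq b2 (m + 2) * (2 * b2) := by linarith
  exact lt_of_mul_lt_mul_left e5 e1.le

/-- the final inequality -/
theorem fin_ineq {u eta zeta e rh r2 S T : ℝ} (hS : 0 < S) (hη : 0 ≤ eta) (hζ : 0 < zeta)
    (h1 : -e ≤ rh) (h2 : 1 < S * r2 + T) (h3 : S ≤ S * u - (T - 1) * zeta) :
    1 < (u + e * eta) + eta * rh + zeta * r2 := by
  have h4 := mul_le_mul_of_nonneg_left h1 hη
  have h5 := mul_lt_mul_of_pos_right h2 hζ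
  have h6 : S * 1 < S * ((u + e * eta) + eta * rh + zeta * r2) := by
    have h7 := mul_le_mul_of_nonneg_left h4 hS.le
    nlinarith
  exact lt_of_mul_lt_mul_left h6 hS.le

/-- **the core of (1c)** in the `RT` form -/
theorem gb_core {b1 b2 bO : ℝ} {R : ℝ → ℝ → ℝ → Prop} (hR : RT b1 b2 bO R) {h1 h2 e g x1 x2 η ζ : ℝ}
    (hh : R 0 h1 h2) (hh1 : 1 ≤ h1) (hh2 : 1 ≤ h2) (he : 0 < e) (he1 : e ≤ 1)
    (hce : e ^ 2 + 1 = (2 * b1 * h1 + 2 * b2 * h2) * e) (hx : R g x1 x2) (hg : 1 ≤ g) (hx1 : 1 ≤ x1)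
    (e1 : x1 = h1 * η) (e2 : x2 = ζ + h2 * η) (hζ : 0 < ζ) {f2 r2 rh : ℝ} (hf : f2 < 0) {k : ℕ}
    (hk : Good b2 f2 k) (hS : Str b2 f2 r2) (hκ1 : h2 * e ≤ -f2) (hu : -f2 * ζ ≤ g - e * η)
    (hrh : -e ≤ rh) :
    1 < g + η * rh + ζ * r2 ∨
    (2 * b2 = 1 ∧ h1 = 1 ∧ h2 = 1 ∧ g = 2 * b1 ∧ x1 = (2 * b1) ^ 2 - 1 ∧
      2 * b2 * g + 2 * bO * x1 - x2 = 0) ∨
    (2 * b1 = 1 ∧ h1 = 1 ∧ h2 = 1 ∧ x1 = 1 ∧ g = 2 * b1 * x1 + 2 * b2 ∧ 0 < 2 * b2 ∧ 2 ≤ (2 * b2) ^ 2 ∧
      2 * b2 * g + 2 * bO * x1 - x2 = 1) := by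
  have hη : 0 ≤ η := by
    have h3 : 0 < h1 * η := by rw [← e1]; linarith
    exact ((mul_pos_iff_of_pos_left (by linarith)).1 h3).le
  have hu0 : 0 < g - e * η := lt_of_lt_of_le (mul_pos (by linarith) hζ) hu
  have hH : h2 * e * ζ ≤ g - e * η := le_trans (mul_le_mul_of_nonneg_right hκ1 hζ.le) hu
  have hk1 := hk.pos hf
  have hnk := hk.nk hS hf
  have eg : g = (g - e * η) + e * η := by ring
  have fin : sq b2 (k + 1) ≤ sq b2 (k + 1) * (g - e * η) - (sq b2 k - 1) * ζ →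
      1 < g + η * rh + ζ * r2 := by
    intro h3
    have h4 := fin_ineq (hk.hs k le_rfl) hη hζ hrh hnk h3
    rw [← eg] at h4
    exact h4
  rcases hk1.eq_or_lt with h3 | h3
  · -- `j = 2`
    subst h3
    have s2 := hR.pge 1 (hk.hs 1 le_rfl)
    have i1 : sq b2 (1 + 1) = 2 * b2 := sq_two
    rw [i1] at s2
    have h4 := hk.hpos
    have i2 : sq b2 1 = 1 := sq_one
    rw [i1, i2] at h4
    have h5 : 2 * b2 * (h2 * e) ≤ 1 := by
      have := mul_le_mul_of_nonneg_left hκ1 (by linarith : 0 ≤ 2 * b2)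
      linarith
    rcases single2 hR hh hh1 hh2 he he1 hce hx hg hx1 e1 e2 hζ s2 h5 hu0 hH with h6 | h6
    · left
      refine fin ?_
      rw [i1, i2]
      have := mul_le_mul_of_nonneg_left h6 (by linarith : 0 ≤ 2 * b2)
      linarith
    · exact Or.inr (Or.inl h6)
  · rcases (Nat.succ_le_of_lt h3).eq_or_lt with h4 | h4
    · -- `j = 3`
      have h4' : 2 = k := h4
      subst h4'
      have s3 := hR.pge 2 (hk.hs 2 le_rfl)
      have s2 := hR.pge 1 (hk.hs 1 (by norm_num))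
      have i1 : sq b2 (1 + 1) = 2 * b2 := sq_two
      have i3 : sq b2 (2 + 1) = (2 * b2) ^ 2 - 1 := by
        have : sq b2 3 = 2 * b2 * sq b2 2 - sq b2 1 := sq_succ b2 1
        have i4 : sq b2 (2 + 1) = sq b2 3 := rfl
        rw [i4, this, sq_two, sq_one]
        ring
      rw [i1] at s2
      rw [i3] at s3
      have h5 := hk.hm 1 (by norm_num)
      have i2 : sq b2 1 = 1 := sq_one
      rw [i1, i2] at h5
      have h6 : ζ ≤ 2 * b2 * (g - e * η) := by
        have h7 := mul_le_mul_of_nonneg_left hu (by linarith : 0 ≤ 2 * b2)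
        have h8 : 1 * ζ ≤ 2 * b2 * -f2 * ζ := mul_le_mul_of_nonneg_right (by linarith) hζ.le
        linarith
      rcases single3 hR hh hh1 hh2 he he1 hce hx hx1 e1 e2 hζ (by linarith) (by linarith) h6 hH with
        h7 | ⟨h7, h8, h9, h10, h11, h12⟩
      · left
        refine fin ?_
        have i5 : sq b2 2 = 2 * b2 := sq_two
        rw [i3, i5]
        have h8 : 0 < 2 * b2 - 1 := by
          by_contra hcon
          nlinarith
        have h9 := mul_le_mul_of_nonneg_left h7 h8.le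
        nlinarith
      · exact Or.inr (Or.inr ⟨h7, h8, h9, h10, h11, by linarith, by linarith, h12⟩)
    · -- `j ≥ 4`
      left
      obtain ⟨m, rfl⟩ : ∃ m, k = m + 1 := ⟨k - 1, by omega⟩
      have hs : ∀ n, 1 ≤ n → n ≤ m + 2 → 1 ≤ sq b2 n := by
        intro n h5 h6
        obtain ⟨l, rfl⟩ : ∃ l, n = l + 1 := ⟨n - 1, by omega⟩
        exact hR.pge l (hk.hs l (by omega))
      have h5 := hk.hm m (by omega)
      have h6 : sq b2 m * ζ ≤ sq b2 (m + 1) * (g - e * η) := by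
        have h7 := mul_le_mul_of_nonneg_left hu (by linarith [hs (m + 1) (by omega) (by omega)] :
          0 ≤ sq b2 (m + 1))
        have h8 : sq b2 m * ζ ≤ sq b2 (m + 1) * -f2 * ζ :=
          mul_le_mul_of_nonneg_right (by linarith) hζ.le
        linarith
      refine fin ?_
      exact single4 hR hh hh1 hh2 he he1 hce hx hx1 e1 e2 hζ (by omega) hs h6

/-- `e = c - sqrt (c ^ 2 - 1)` -/
theorem exists_e {c : ℝ} (hc : 1 ≤ c) : ∃ e : ℝ, 0 < e ∧ e ≤ 1 ∧ e ^ 2 - 2 * c * e + 1 = 0 := by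
  have h0 : 0 ≤ c ^ 2 - 1 := by nlinarith
  have h1 := Real.sq_sqrt h0
  have h2 := Real.sqrt_nonneg (c ^ 2 - 1)
  refine ⟨c - Real.sqrt (c ^ 2 - 1), ?_, ?_, ?_⟩
  · nlinarith
  · nlinarith
  · nlinarith

/-- **NGinf**, the alternative `OFA` -/
theorem ngInf_ofa {al1 al2 be1 be2 : ℝ} (X : Xs Ψ B ρ φ t d1 d2 x x' g x1 x2 g' x1' x2')
    (O : OFA Ψ B φ d1 d2 al1 al2 be1 be2) (hbe : 1 ≤ be1) (hu : x1 * be2 ≤ x2 * be1) (hg' : 1 ≤ g')
    {k2 : ℕ} (hk2 : Good (-B t d2) (φ d2) k2)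
    (hB : Beyond (be1 * -B t d1 + be2 * -B t d2) (be1 * φ d1 + be2 * φ d2)) : False := by
  have rh := O.rh
  have fh := O.fh
  have L := X.L
  have hT := L.tri
  have h := rt_of_tri hT
  have hal : be2 = al1 := by
    linear_combination (al1 + B d1 d2 * al2) * O.det + al2 * O.adj - be2 * O.ra.nrm
  have hbe2 : 1 ≤ be2 := by
    rcases rh.z2 with h1 | h1
    · exfalso
      rw [h1] at fh
      have := mul_nonneg (by linarith : 0 ≤ be1) X.h1
      linarith
    · exact h1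
  have hR : (0 : ℝ) • t + be1 • d1 + be2 • d2 ∈ Ψ := by
    have e : (0 : ℝ) • t + be1 • d1 + be2 • d2 = be1 • d1 + be2 • d2 := by module
    rw [e]
    exact rh.mem
  have hx : g • t + x1 • d1 + x2 • d2 ∈ Ψ := by
    rw [← X.e]
    exact L.xm
  have hSh := L.str_h rh
  have hS2 := L.str_2
  have hκ := X.h2
  have hfz := X.c.fz
  have hlt := good_lt h hk2 hκ
  -- `c_h ≥ 1`
  have hcp := L.cpt64 rh
  have ecp : -B t d1 * be1 + -B t d2 * be2 = be1 * -B t d1 + be2 * -B t d2 := by ring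
  rw [ecp] at hcp
  have hc : 1 ≤ be1 * -B t d1 + be2 * -B t d2 := by
    rcases hcp.sq_dich with ⟨h1, -⟩ | ⟨m, m1, m2, m3, m4⟩
    · exact h1
    · exfalso
      have h3 := beyond_fin hB m1 m2 m4
      have h4 : 1 ≤ 2 * -B t d2 := by
        rcases rt_b2s h with h5 | h5 | h5
        · linarith
        · exact h5.ge
        · exact h5.1
      have h5 : 2 * -B t d1 = 0 := by
        rcases rt_b1s h with h6 | h6 | h6
        · exact h6
        · exfalso
          have h7 : 1 ≤ be1 * (2 * -B t d1) := by rw [h6]; linarith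
          have h8 := mul_le_mul hbe2 h4 (by norm_num) (by linarith)
          linarith
        · exfalso
          have h7 := mul_le_mul hbe h6.1 (by norm_num) (by linarith)
          have h8 := mul_le_mul hbe2 h4 (by norm_num) (by linarith)
          linarith
      have h6 : be1 * -B t d1 = 0 := by
        have : be1 * -B t d1 = be1 * (2 * -B t d1) / 2 := by ring
        rw [this, h5]
        ring
      have h7 := mul_nonneg (by linarith : 0 ≤ be1) X.h1
      have h8 := mul_lt_mul_of_pos_left hlt (by linarith : 0 < be2)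
      linarith
  obtain ⟨e, he0, he1, hee⟩ := exists_e hc
  -- `e ≤ -φ h`
  have hqe : e ≤ -(be1 * φ d1 + be2 * φ d2) := by
    refine om_lim hc hee he0 he1 ?_
    intro n
    rcases hcp.sq_dich with ⟨h1, h2⟩ | ⟨m, m1, m2, m3, m4⟩
    · have h3 := hB n (fun i _ => by linarith [h2 i])
      linarith
    · exfalso
      linarith
  have hre := ult_low hSh hc hee he0 he1
  obtain ⟨η, hη⟩ : ∃ η, η = x1 / be1 := ⟨_, rfl⟩
  obtain ⟨ζ, hζd⟩ : ∃ ζ, ζ = x2 - be2 * η := ⟨_, rfl⟩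
  have p1 := X.p1
  have hx1 : x1 = be1 * η := by
    rw [hη]
    field_simp
  have hx2 : x2 = ζ + be2 * η := by linarith
  have hη0 : 0 < η := by
    rw [hη]
    positivity
  have hgφ : g = η * -(be1 * φ d1 + be2 * φ d2) + -φ d2 * ζ := by
    rw [hfz, hx1, hx2]
    ring
  have hζ0 : 0 ≤ ζ := by
    have e1 : be1 * ζ = x2 * be1 - x1 * be2 := by
      rw [hζd]
      rw [hη]
      field_simp
    have e2 : 0 ≤ be1 * ζ := by linarith
    by_contra hcon
    have := mul_neg_of_pos_of_neg (by linarith : 0 < be1) (not_le.1 hcon)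
    linarith
  have hηq := mul_pos hη0 (by linarith : 0 < -(be1 * φ d1 + be2 * φ d2))
  have hκζ := mul_nonneg (by linarith : 0 ≤ -φ d2) hζ0
  have hg0 : 0 < g := by linarith
  have hg1 := (h.z0 hx hg0).1
  have hζ : 0 < ζ := by
    rcases hζ0.lt_or_eq with h1 | h1
    · exact h1
    · exfalso
      have e1 : be1 • d1 + be2 • d2 = (1 / η) • x + (-(g / η)) • t := by
        rw [X.e, hx1, hx2, ← h1]
        match_scalars <;> field_simp <;> ring
      exact canon_neg L.cxt rh.mem e1 (by positivity) (by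
        have : 0 < g / η := by positivity
        linarith)
  -- `κ ≥ be2 e`
  have hκe : be2 * e ≤ -φ d2 := by
    have e1 : -φ d2 = be2 * -(be1 * φ d1 + be2 * φ d2) + be1 * (al1 * φ d1 + al2 * φ d2) := by
      have h1 := O.det
      rw [← hal] at h1 ⊢
      linear_combination (φ d2) * h1
    have h2 := mul_nonneg (by linarith : 0 ≤ be1) O.fa
    have h3 := mul_le_mul_of_nonneg_left hqe (by linarith : 0 ≤ be2)
    linarith
  have huu : -φ d2 * ζ ≤ g - e * η := by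
    have h1 := mul_le_mul_of_nonneg_left hqe hη0.le
    linarith
  have hρ := X.le_one.1
  have hρx : g + x1 * ρ d1 + x2 * ρ d2 = g + η * (be1 * ρ d1 + be2 * ρ d2) + ζ * ρ d2 := by
    rw [hx1, hx2]
    ring
  rw [hρx] at hρ
  rcases gb_core h hR hbe hbe2 he0 he1 (by linarith) hx hg1 p1 hx1 hx2 hζ hκ hk2 hS2 hκe huu hre with
    h1 | ⟨a1, a2, a3, a4, a5, a6⟩ | ⟨a1, a2, a3, a4, a5, a6, a7, a8⟩
  · linarith
  · -- `v_A`
    have n1 := rh.nrm
    rw [a2, a3] at n1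
    have n2 : -B d1 d2 = 1 / 2 := by linarith
    have k1 : 2 * -B t d1 = 0 ∨ 2 * -B t d1 = 1 ∨ (1 ≤ 2 * -B t d1 ∧ 2 ≤ (2 * -B t d1) ^ 2) := rt_b1s h
    have hs2 : 2 ≤ g ^ 2 := by
      rw [a4]
      linarith
    refine _root_.DY.vA X hg0 hs2 (by linarith) (by linarith) n2 rfl (by rw [a5, a4]) ?_ ?_ hg'
    · have : x2 = 2 * -B t d2 * g + 2 * -B d1 d2 * x1 := by linarith
      rw [this, a1, n2, a5, a4]
      ring
    · rw [a2, a3] at fh
      linarith
  · -- `v_B`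
    have n1 := rh.nrm
    rw [a2, a3] at n1
    have n2 : -B d1 d2 = 1 / 2 := by linarith
    refine _root_.DY.vB X a6 a7 (by linarith) (by ring) n2 (by rw [a5, a4, a1]; ring) a4 ?_ ?_ hg'
    · have : x2 = 2 * -B t d2 * g + 2 * -B d1 d2 * x1 - 1 := by linarith
      rw [this, n2, a5, a4, a1]
      ring
    · rw [a2, a3] at fh
      linarith

end Pool.Agent.Helper57.DY
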