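import Mathlib

/-!
# Real inequalities for block (1c) of case II (MP_d13a5e_al)

`l1 = 2 b1`, `l = 2 b2`, `h = h1 d1 + h2 d2`, `s = 2 b0 h1 - h2`, `e = c - sqrt (c^2 - 1)` with `c = -B t h`,
`x = g t + η h + ζ d2`, `u = g - e η`.
-/

set_option autoImplicit false

namespace Pool.Agent.Helper57.DY

/-- the linear form of the norm equation is nonnegative -/
theorem lam_nonneg {l1 l h1 h2 s e u ζ : ℝ} (he : 0 < e) (he1 : e ≤ 1)
    (hce : e ^ 2 + 1 = (l1 * h1 + l * h2) * e) (hζ : 0 ≤ ζ) (hH : h2 * e * ζ ≤ u)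
    (hQ : h2 * e ^ 2 ≤ l * e + s) :
    0 ≤ (l1 * h1 + l * h2 - 2 * e) * u + (l * e + s - h2) * ζ := by
  have h1' : 0 ≤ e * ((l1 * h1 + l * h2 - 2 * e) * u + (l * e + s - h2) * ζ) := by
    have e1 : e * ((l1 * h1 + l * h2 - 2 * e) * u + (l * e + s - h2) * ζ) =
        (1 - e ^ 2) * (u - h2 * e * ζ) + e * ζ * (l * e + s - h2 * e ^ 2) := by
      linear_combination (-u) * hce
    rw [e1]
    have h2' : 0 ≤ 1 - e ^ 2 := by nlinarith
    exact add_nonneg (mul_nonneg h2' (by linarith)) (mul_nonneg (mul_nonneg he.le hζ) (by linarith))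
  exact (mul_nonneg_iff_of_pos_left he).1 h1'

/-- `(H)` in the form `h2 z ≤ (l1 h1 - e) u`, `z = ζ - l u` -/
theorem H_z {l1 l h1 h2 e u ζ : ℝ} (he : 0 < e)
    (hce : e ^ 2 + 1 = (l1 * h1 + l * h2) * e) (hH : h2 * e * ζ ≤ u) :
    h2 * (ζ - l * u) ≤ (l1 * h1 - e) * u := by
  have h1' : 0 ≤ e * ((l1 * h1 - e) * u - h2 * (ζ - l * u)) := by
    have e1 : e * ((l1 * h1 - e) * u - h2 * (ζ - l * u)) = u - h2 * e * ζ := by
      linear_combination (-u) * hce
    rw [e1]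
    linarith
  have := (mul_nonneg_iff_of_pos_left he).1 h1'
  linarith

/-- `j = 2`, `a3 ≥ 1` -/
theorem j2_pos {l1 l h1 h2 s e η u ζ : ℝ} (hl : 1 ≤ l) (hs : 0 ≤ s) (he : 0 < e) (he1 : e ≤ 1)
    (hce : e ^ 2 + 1 = (l1 * h1 + l * h2) * e) (hζ : 0 < ζ) (hη : 0 < η)
    (hH : h2 * e * ζ ≤ u) (hu0 : 0 < u) (hQ : h2 * e ^ 2 ≤ l * e + s)
    (hN : u ^ 2 + ζ ^ 2 - l * u * ζ - 1 =
      η * ((l1 * h1 + l * h2 - 2 * e) * u + (l * e + s - h2) * ζ))
    (hA : 1 + (ζ - l * u) ≤ (l * e + s) * η) : 1 ≤ u := by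
  by_contra hcon
  rw [not_le] at hcon
  have hL := lam_nonneg he he1 hce hζ.le hH hQ
  have hHz := H_z he hce hH
  set z := ζ - l * u with hz
  have hζz : ζ = z + l * u := by rw [hz]; ring
  have hz0 : 0 ≤ z := by
    by_contra h3
    rw [not_le] at h3
    have h4 : 0 ≤ η * ((l1 * h1 + l * h2 - 2 * e) * u + (l * e + s - h2) * ζ) := mul_nonneg hη.le hL
    have h5 : ζ * z < 0 := mul_neg_of_pos_of_neg hζ h3
    have h6 : u ^ 2 + ζ ^ 2 - l * u * ζ - 1 = u ^ 2 + ζ * z - 1 := by rw [hz]; ring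
    nlinarith
  have hD : 0 < l * e + s := by nlinarith
  set Λ := (l1 * h1 + l * h2 - 2 * e) * u + (l * e + s - h2) * ζ with hΛ
  have k1 : (1 + z) * Λ ≤ (l * e + s) * (u ^ 2 + ζ ^ 2 - l * u * ζ - 1) := by
    rw [hN]
    have := mul_le_mul_of_nonneg_right hA hL
    linarith
  have k2 : (1 + z) * Λ - (l * e + s) * (u ^ 2 + ζ ^ 2 - l * u * ζ - 1) =
      (l * e + s) * (1 - u ^ 2) + (l * s + (l ^ 2 - 1) * e) * u + (l * e + s - e * u) * z +
        (1 + z) * ((l1 * h1 - e) * u - h2 * z) := by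
    rw [hΛ, hζz]
    ring
  have k3 : 0 < (l * e + s) * (1 - u ^ 2) := mul_pos hD (by nlinarith)
  have k4 : 0 ≤ (l * s + (l ^ 2 - 1) * e) * u := by
    refine mul_nonneg (add_nonneg (mul_nonneg (by linarith) hs) (mul_nonneg (by nlinarith) he.le)) hu0.le
  have k5 : 0 ≤ (l * e + s - e * u) * z := by
    refine mul_nonneg ?_ hz0
    nlinarith
  have k6 : 0 ≤ (1 + z) * ((l1 * h1 - e) * u - h2 * z) := mul_nonneg (by linarith) (by linarith)
  linarith

/-- position of a vector with norm at least `1` below the line `u + w = l + 1` -/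
theorem w_lt {l u w : ℝ} (hl : 2 ≤ l ^ 2) (hl0 : 0 < l) (hw : 0 ≤ w) (hζ : 0 < l * u - w)
    (hv : u + w < l + 1) (hq : 0 ≤ u ^ 2 + w ^ 2 - l * u * w - 1) : w < 1 ∧ 0 < u - l * w := by
  have hw1 : w < 1 := by
    by_contra h3
    rw [not_lt] at h3
    set A := l * u - w with hA
    have e1 : l * u = w + A := by rw [hA]; ring
    have hAu : A < (l + 1) * (l - w) := by
      have := mul_lt_mul_of_pos_left hv hl0
      nlinarith
    have hwl : w < l := by
      by_contra h4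
      rw [not_lt] at h4
      have : (l + 1) * (l - w) ≤ 0 := mul_nonpos_of_nonneg_of_nonpos (by linarith) (by linarith)
      linarith
    have e2 : l ^ 2 * (u ^ 2 + w ^ 2 - l * u * w - 1) = (w - l) * (w + l) + A * (A + 2 * w - l ^ 2 * w) := by
      have : l ^ 2 * (u ^ 2 + w ^ 2 - l * u * w - 1) =
        (l * u) ^ 2 + l ^ 2 * w ^ 2 - l ^ 2 * (l * u) * w - l ^ 2 := by ring
      rw [this, e1]
      ring
    have e3 : 0 ≤ l ^ 2 * (u ^ 2 + w ^ 2 - l * u * w - 1) := mul_nonneg (by positivity) hq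
    rw [e2] at e3
    rcases le_or_gt (A + 2 * w - l ^ 2 * w) 0 with h4 | h4
    · have h5 := mul_nonpos_of_nonneg_of_nonpos hζ.le h4
      have h6 : (w - l) * (w + l) < 0 := mul_neg_of_neg_of_pos (by linarith) (by linarith)
      linarith
    · have h5 : A * (A + 2 * w - l ^ 2 * w) ≤
          ((l + 1) * (l - w)) * ((l + 1) * (l - w) + 2 * w - l ^ 2 * w) := by
        refine mul_le_mul hAu.le (by linarith) h4.le (by nlinarith)
      have h6 : (w - l) * (w + l) + ((l + 1) * (l - w)) * ((l + 1) * (l - w) + 2 * w - l ^ 2 * w) =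
          (l - w) * (l ^ 2 * (l + 2)) * (1 - w) := by ring
      rcases h3.lt_or_eq with h7 | h7
      · have h8 : (l - w) * (l ^ 2 * (l + 2)) * (1 - w) < 0 := by
          refine mul_neg_of_pos_of_neg (mul_pos (by linarith) (by positivity)) (by linarith)
        linarith
      · have h5' : A * (A + 2 * w - l ^ 2 * w) <
          ((l + 1) * (l - w)) * ((l + 1) * (l - w) + 2 * w - l ^ 2 * w) := by
          refine mul_lt_mul hAu (by linarith) h4 (by nlinarith)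
        rw [← h7] at h6 h5' e3
        have h8 : (l - 1) * (l ^ 2 * (l + 2)) * (1 - 1) = 0 := by ring
        linarith
  refine ⟨hw1, ?_⟩
  by_contra h3
  rw [not_lt] at h3
  have hu : 0 < u := by
    have : 0 < l * u := by linarith
    exact (mul_pos_iff_of_pos_left hl0).1 this
  have e1 : u ^ 2 + w ^ 2 - l * u * w - 1 = w ^ 2 + u * (u - l * w) - 1 := by ring
  have h4 := mul_nonpos_of_nonneg_of_nonpos hu.le h3
  nlinarith

/-- `j = 3`, `a4 ≥ 1`, main case -/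
theorem j3_main {l N N2 e η u w : ℝ} (hl : 2 ≤ l ^ 2) (hl0 : 0 < l) (he : 0 ≤ e)
    (hw : 0 ≤ w) (hζ : 0 < l * u - w) (hη : 0 < η)
    (hL : 0 ≤ N * u - N2 * w)
    (hN : u ^ 2 + w ^ 2 - l * u * w - 1 = η * (N * u - N2 * w))
    (hA : 1 + (u - l * w) ≤ (N + e) * η)
    (h1 : l * e ≤ N) (h2 : 0 ≤ (l + 2) * N + e - (l + 1) * (N2 + l * e)) (h4 : 0 ≤ l * N - N2)
    (h5 : 0 < N + e) : l + 1 ≤ u + w := by
  by_contra hcon
  rw [not_le] at hcon
  have hq : 0 ≤ u ^ 2 + w ^ 2 - l * u * w - 1 := by rw [hN]; exact mul_nonneg hη.le hL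
  obtain ⟨hw1, hp⟩ := w_lt hl hl0 hw hζ hcon hq
  set p := u - l * w with hp'
  have eu : u = p + l * w := by rw [hp']; ring
  have k1 : (1 + p) * (N * u - N2 * w) ≤ (N + e) * (u ^ 2 + w ^ 2 - l * u * w - 1) := by
    rw [hN]
    have := mul_le_mul_of_nonneg_right hA hL
    linarith
  have hpl : p < (l + 1) * (1 - w) := by
    rw [eu] at hcon
    linarith
  have k2 : (1 + p) * (N * u - N2 * w) - (N + e) * (u ^ 2 + w ^ 2 - l * u * w - 1) =
      (N + e) * (1 - w ^ 2) + N * p + (l * N - N2) * w - e * p ^ 2 - (N2 + l * e) * p * w := by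
    rw [eu]
    ring
  have hN0 : 0 ≤ N := le_trans (by positivity) h1
  -- (l+1)^2 * G > 0
  have k3 : (l + 1) * ((N + e) * (1 - w ^ 2)) > (N + e) * p := by
    have a1 : (N + e) * p < (N + e) * ((l + 1) * (1 - w)) := mul_lt_mul_of_pos_left hpl h5
    have a2 : (N + e) * ((l + 1) * (1 - w)) ≤ (l + 1) * ((N + e) * (1 - w ^ 2)) := by
      have : (l + 1) * ((N + e) * (1 - w ^ 2)) - (N + e) * ((l + 1) * (1 - w)) =
        (N + e) * (l + 1) * (w * (1 - w)) := by ring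
      have : 0 ≤ (N + e) * (l + 1) * (w * (1 - w)) :=
        mul_nonneg (mul_nonneg h5.le (by linarith)) (mul_nonneg hw (by linarith))
      linarith
    linarith
  have k4 : 0 ≤ (l + 1) * ((l + 2) * N + e - (l + 1) * e * p - (l + 1) * (N2 + l * e) * w) := by
    have a1 : (l + 1) * ((l + 2) * N + e - (l + 1) * e * p - (l + 1) * (N2 + l * e) * w) =
        ((l + 2) * N + e) * ((l + 1) * (1 - w) - p) + p * ((l + 2) * (N - l * e)) +
          (l + 1) * w * ((l + 2) * N + e - (l + 1) * (N2 + l * e)) := by ring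
    rw [a1]
    have a2 : 0 ≤ ((l + 2) * N + e) * ((l + 1) * (1 - w) - p) :=
      mul_nonneg (by nlinarith) (by linarith)
    have a3 : 0 ≤ p * ((l + 2) * (N - l * e)) := mul_nonneg hp.le (mul_nonneg (by linarith) (by linarith))
    have a4 : 0 ≤ (l + 1) * w * ((l + 2) * N + e - (l + 1) * (N2 + l * e)) :=
      mul_nonneg (mul_nonneg (by linarith) hw) h2
    linarith
  have k5 : 0 ≤ (l + 2) * N + e - (l + 1) * e * p - (l + 1) * (N2 + l * e) * w :=
    (mul_nonneg_iff_of_pos_left (by linarith)).1 k4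
  have k6 := mul_nonneg hp.le k5
  have k7 : 0 ≤ (l * N - N2) * w := mul_nonneg h4 hw
  have k8 : 0 ≤ (l + 1) * ((l * N - N2) * w) := mul_nonneg (by linarith) k7
  have k9 : (l + 1) * ((1 + p) * (N * u - N2 * w) - (N + e) * (u ^ 2 + w ^ 2 - l * u * w - 1)) =
      ((l + 1) * ((N + e) * (1 - w ^ 2)) - (N + e) * p) + (l + 1) * ((l * N - N2) * w) +
        p * ((l + 2) * N + e - (l + 1) * e * p - (l + 1) * (N2 + l * e) * w) := by
    rw [k2]
    ring
  have k10 : (l + 1) * ((1 + p) * (N * u - N2 * w) - (N + e) * (u ^ 2 + w ^ 2 - l * u * w - 1)) ≤ 0 :=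
    mul_nonpos_of_nonneg_of_nonpos (by linarith) (by linarith)
  linarith

/-- `j = 3`, `a4 ≥ 1`, the case `l1 = 0`, `s = 0` -/
theorem j3_zero {l h2 e η u w : ℝ} (hl : 2 ≤ l ^ 2) (hl0 : 0 < l) (he : 0 < e)
    (hw : 0 ≤ w) (hζ : 0 < l * u - w) (hη : 0 < η)
    (hL : 0 ≤ ((l ^ 2 - 2) * e) * u - (l * e - h2) * w)
    (hN : u ^ 2 + w ^ 2 - l * u * w - 1 = η * (((l ^ 2 - 2) * e) * u - (l * e - h2) * w))
    (hA : 1 + (u - l * w) ≤ ((l ^ 2 - 2) * e + e) * η)
    (hH : e * (u - l * w) ≤ (h2 - l * e) * w) : l + 1 ≤ u + w := by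
  by_contra hcon
  rw [not_le] at hcon
  have hq : 0 ≤ u ^ 2 + w ^ 2 - l * u * w - 1 := by rw [hN]; exact mul_nonneg hη.le hL
  obtain ⟨hw1, hp⟩ := w_lt hl hl0 hw hζ hcon hq
  have hl1 : 1 < l := by nlinarith
  set p := u - l * w with hp'
  have eu : u = p + l * w := by rw [hp']; ring
  have k1 : (1 + p) * (((l ^ 2 - 2) * e) * u - (l * e - h2) * w) ≤
      ((l ^ 2 - 2) * e + e) * (u ^ 2 + w ^ 2 - l * u * w - 1) := by
    rw [hN]
    have := mul_le_mul_of_nonneg_right hA hL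
    linarith
  have hpl : p < (l + 1) * (1 - w) := by
    rw [eu] at hcon
    linarith
  have k2 : (1 + p) * (((l ^ 2 - 2) * e) * u - (l * e - h2) * w) -
      ((l ^ 2 - 2) * e + e) * (u ^ 2 + w ^ 2 - l * u * w - 1) =
      e * ((l ^ 2 - 1) * (1 - w ^ 2) + p * (l ^ 2 - 1 - l * w)) + (1 + p) * ((h2 - l * e) * w - e * p) +
        l * (l ^ 2 - 2) * e * w := by
    rw [eu]
    ring
  have k3 : 0 ≤ (1 + p) * ((h2 - l * e) * w - e * p) := mul_nonneg (by linarith) (by linarith)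
  have k4 : 0 ≤ l * (l ^ 2 - 2) * e * w :=
    mul_nonneg (mul_nonneg (mul_nonneg hl0.le (by linarith)) he.le) hw
  have k5 : 0 < (l ^ 2 - 1) * (1 - w ^ 2) + p * (l ^ 2 - 1 - l * w) := by
    rcases le_or_gt 0 (l ^ 2 - 1 - l * w) with h6 | h6
    · have a1 : 0 < (l ^ 2 - 1) * (1 - w ^ 2) := mul_pos (by linarith) (by nlinarith)
      have a2 := mul_nonneg hp.le h6
      linarith
    · have a1 : ((l + 1) * (1 - w)) * (l ^ 2 - 1 - l * w) ≤ p * (l ^ 2 - 1 - l * w) :=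
        mul_le_mul_of_nonpos_right hpl.le h6.le
      have a2 : (l ^ 2 - 1) * (1 - w ^ 2) + ((l + 1) * (1 - w)) * (l ^ 2 - 1 - l * w) =
        (l + 1) * (1 - w) * (l ^ 2 + l - 2 - w) := by ring
      have a3 : 0 < (l + 1) * (1 - w) * (l ^ 2 + l - 2 - w) :=
        mul_pos (mul_pos (by linarith) (by linarith)) (by linarith)
      linarith
  have k6 := mul_pos he k5
  linarith

end Pool.Agent.Helper57.DY
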