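import Mathlib

/-!
# Real inequalities for block (1c) of case II (MP_d13a5e_al), part 2
-/

set_option autoImplicit false

namespace Pool.Agent.Helper57.DY

theorem eq_one_of_sq {a : ℝ} (h : 1 ≤ a) (h2 : a ^ 2 = 1) : a = 1 := by nlinarith only [h, h2]

theorem ge_of_two_le_sq {a : ℝ} (h : 0 ≤ a) (h2 : 2 ≤ a ^ 2) : 7 / 5 ≤ a := by nlinarith only [h, h2]

/-- an upper bound for the smaller root of `e ^ 2 - m e + 1` -/
theorem small_root {m e e0 : ℝ} (he1 : e ≤ 1) (hm : 2 < m) (hce : e ^ 2 + 1 = m * e)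
    (h0 : e0 ^ 2 + 1 ≤ m * e0) : e ≤ e0 := by
  by_contra hcon
  rw [not_le] at hcon
  have h1 : (e - e0) * (1 - e) ≥ 0 := mul_nonneg (by linarith only [hcon]) (by linarith only [he1])
  -- convex function, negative at 1, nonpositive at e0
  have h2 : (e - e0) * (2 - m) ≤ 0 := mul_nonpos_of_nonneg_of_nonpos (by linarith only [hcon]) (by linarith only [hm])
  by_cases h3 : e0 < 1
  · have h4 : (1 - e0) * (e ^ 2 + 1 - m * e) =
        (1 - e) * (e0 ^ 2 + 1 - m * e0) + (e - e0) * (2 - m) - (1 - e0) * ((e - e0) * (1 - e)) := by ring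
    have h5 : (1 - e) * (e0 ^ 2 + 1 - m * e0) ≤ 0 :=
      mul_nonpos_of_nonneg_of_nonpos (by linarith only [he1]) (by linarith only [h0])
    have h6 : (e - e0) * (2 - m) < 0 := mul_neg_of_pos_of_neg (by linarith only [hcon]) (by linarith only [hm])
    have h7 : 0 ≤ (1 - e0) * ((e - e0) * (1 - e)) := mul_nonneg (by linarith only [h3]) h1
    have h8 : (1 - e0) * (e ^ 2 + 1 - m * e) = 0 := by rw [hce]; ring
    linarith only [h5, h6, h7, h8]
  · linarith only [he1, hcon, h3]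

/-- `j ≥ 4`: the certificate -/
theorem j4 {l A Bq C L1 L2 η h1 u ζ : ℝ} (hl : 0 < l) (hA : 1 < A) (hB : 0 < Bq) (hC : l ≤ C)
    (e1 : C + Bq = l * A) (e2 : Bq * C = A ^ 2 - 1) (hBC : C ≤ Bq + 2)
    (hκ : C * ζ ≤ A * u) (hζ : 0 < ζ) (hL1 : 0 ≤ L1) (hη : 0 < η) (hη1 : 1 ≤ h1 * η) (hl1 : 1 ≤ l)
    (hNj : h1 * (l ^ 2 - 1) ≤ l * (C * L1 + A * L2))
    (hN : u ^ 2 + ζ ^ 2 - l * u * ζ - 1 = η * (L1 * u + L2 * ζ)) :
    Bq ≤ Bq * u - (A - 1) * ζ := by
  by_contra hcon
  rw [not_le] at hcon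
  have hA1 : 0 < A - 1 := by linarith only [hA]
  have hA0 : 0 < A := by linarith only [hA1]
  obtain ⟨T, hT, hTe⟩ : ∃ T : ℝ, 0 < T ∧ Bq = T * (A - 1) := by
    refine ⟨Bq / (A - 1), div_pos hB hA1, ?_⟩
    field_simp
  obtain ⟨α, hα⟩ : ∃ α : ℝ, A * u - C * ζ = A * α := ⟨(A * u - C * ζ) / A, by field_simp⟩
  obtain ⟨β, hβ⟩ : ∃ β : ℝ, ζ = A * T * β := ⟨ζ / (A * T), by field_simp⟩
  have hα0 : 0 ≤ α := by
    have : 0 ≤ A * α := by rw [← hα]; linarith only [hκ]
    exact (mul_nonneg_iff_of_pos_left hA0).1 this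
  have hβ0 : 0 < β := by
    have : 0 < A * T * β := by rw [← hβ]; exact hζ
    exact (mul_pos_iff_of_pos_left (mul_pos hA0 hT)).1 this
  have hTl : T ≤ l := by
    have h1' : T * (A - 1) ≤ l * (A - 1) := by rw [← hTe]; nlinarith only [hC, e1]
    exact le_of_mul_le_mul_right h1' hA1
  -- `v < 1`
  have hv : α + β < 1 := by
    have h3 : A * Bq * (α + β) < A * Bq * 1 := by
      have h4 : A * (Bq * u - (A - 1) * ζ) = Bq * (A * u - C * ζ) + (A - 1) * ζ := by
        linear_combination ζ * e2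
      have h5 : A * (Bq * u - (A - 1) * ζ) = A * Bq * (α + β) := by
        rw [h4, hα, hβ, hTe]
        ring
      rw [← h5, mul_one]
      exact mul_lt_mul_of_pos_left hcon hA0
    exact lt_of_mul_lt_mul_left h3 (by positivity)
  -- the norm in terms of `α`, `β`
  have hq : A ^ 2 * (u ^ 2 + ζ ^ 2 - l * u * ζ - 1) =
      (A * u - C * ζ) ^ 2 - (Bq - C) * (A * u - C * ζ) * ζ + ζ ^ 2 - A ^ 2 := by
    linear_combination (A * u * ζ) * e1 - ζ ^ 2 * e2
  have hL : A * (L1 * u + L2 * ζ) = L1 * (A * u - C * ζ) + (C * L1 + A * L2) * ζ := by ring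
  have h6 : A ^ 2 * (u ^ 2 + ζ ^ 2 - l * u * ζ - 1) =
      A ^ 2 * (α ^ 2 - (Bq - C) * T * α * β + T ^ 2 * β ^ 2 - 1) := by
    rw [hq, hα, hβ]
    ring
  have h7 : l * (η * (C * L1 + A * L2)) ≥ l ^ 2 - 1 := by
    have h8 : η * (h1 * (l ^ 2 - 1)) ≤ η * (l * (C * L1 + A * L2)) :=
      mul_le_mul_of_nonneg_left hNj hη.le
    have h9 : (l ^ 2 - 1) * 1 ≤ (l ^ 2 - 1) * (h1 * η) := mul_le_mul_of_nonneg_left hη1 (by nlinarith only [hl1])
    linarith only [h8, h9]
  have h8 : A ^ 2 * (α ^ 2 - (Bq - C) * T * α * β + T ^ 2 * β ^ 2 - 1) =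
      A * (η * L1) * (A * α) + A ^ 2 * (T * β) * (η * (C * L1 + A * L2)) := by
    rw [← h6, hN]
    have : A ^ 2 * (η * (L1 * u + L2 * ζ)) = A * η * (A * (L1 * u + L2 * ζ)) := by ring
    rw [this, hL, hα, hβ]
    ring
  have h9 : α ^ 2 - (Bq - C) * T * α * β + T ^ 2 * β ^ 2 - 1 =
      η * L1 * α + T * β * (η * (C * L1 + A * L2)) := by
    have h10 : A ^ 2 * (α ^ 2 - (Bq - C) * T * α * β + T ^ 2 * β ^ 2 - 1) =
        A ^ 2 * (η * L1 * α + T * β * (η * (C * L1 + A * L2))) := by rw [h8]; ring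
    exact mul_left_cancel₀ (by positivity) h10
  have h10 : 0 ≤ η * L1 * α := by positivity
  have h11 : T * β * (l ^ 2 - 1) ≤ l * (T * β * (η * (C * L1 + A * L2))) := by
    have := mul_le_mul_of_nonneg_left h7 (mul_pos hT hβ0).le
    linarith only [this]
  have h12 : α ^ 2 - (Bq - C) * T * α * β + T ^ 2 * β ^ 2 ≤ (α + β) * (α + T ^ 2 * β) := by
    have h13 : (α + β) * (α + T ^ 2 * β) - (α ^ 2 - (Bq - C) * T * α * β + T ^ 2 * β ^ 2) =
        α * β * ((T - 1) ^ 2 + T * (Bq + 2 - C)) := by ring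
    have h14 : 0 ≤ α * β * ((T - 1) ^ 2 + T * (Bq + 2 - C)) :=
      mul_nonneg (mul_nonneg hα0 hβ0.le) (add_nonneg (sq_nonneg _) (mul_nonneg hT.le (by linarith only [hBC])))
    linarith only [h14]
  have h13 : 0 < α + T ^ 2 * β := by
    have := mul_pos (pow_pos hT 2) hβ0
    linarith only [hα0, this]
  have h14 : (α + β) * (α + T ^ 2 * β) < 1 * (α + T ^ 2 * β) := mul_lt_mul_of_pos_right hv h13
  have h15 : T * β * (l ^ 2 - 1) ≥ l * ((T ^ 2 - 1) * β) := by
    have : T * β * (l ^ 2 - 1) - l * ((T ^ 2 - 1) * β) = β * ((l - T) * (l * T + 1)) := by ring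
    have : 0 ≤ β * ((l - T) * (l * T + 1)) :=
      mul_nonneg hβ0.le (mul_nonneg (by linarith only [hTl]) (by positivity))
    linarith only [this]
  have h16 : l * (α ^ 2 - (Bq - C) * T * α * β + T ^ 2 * β ^ 2 - 1) < l * (α + T ^ 2 * β - 1) :=
    mul_lt_mul_of_pos_left (by linarith only [h12, h14]) hl
  have h17 : l * (η * L1 * α) ≥ 0 := mul_nonneg hl.le h10
  rw [h9, mul_add] at h16
  have h18 : l * ((T ^ 2 - 1) * β) < l * (α + T ^ 2 * β - 1) := by linarith only [h11, h15, h16, h17]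
  have h19 := lt_of_mul_lt_mul_left h18 hl.le
  linarith only [hv, h19]

theorem le_small {l h2 e : ℝ} (he : 0 < e) (he1 : e ≤ 1) (hl : 3 ≤ l ^ 2) (hl0 : 0 < l) (h5 : 2 ≤ h2 ^ 2)
    (k5 : (l * e) * h2 = 1 + e ^ 2) : l * e ≤ 93 / 100 := by
  have hle : 0 < l * e := mul_pos hl0 he
  have k6 : (l * e) ^ 2 * 2 ≤ (1 + e ^ 2) ^ 2 := by
    rw [← k5]
    have : ((l * e) * h2) ^ 2 = (l * e) ^ 2 * h2 ^ 2 := by ring
    rw [this]
    exact mul_le_mul_of_nonneg_left h5 (by positivity)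
  have k7 : 6 * e ^ 2 ≤ (1 + e ^ 2) ^ 2 := by nlinarith only [k6, mul_le_mul_of_nonneg_right hl (sq_nonneg e)]
  have k7' : e ^ 2 ≤ 1 := by nlinarith only [he, he1]
  have k8 : e ^ 2 ≤ 3 / 10 := by
    by_contra h6
    rw [not_le] at h6
    nlinarith only [k7, mul_nonneg (by linarith only [h6] : 0 ≤ e ^ 2 - 3 / 10) (by linarith only [k7'] : 0 ≤ 1 - e ^ 2)]
  have k9 : (1 + e ^ 2) ^ 2 ≤ 169 / 100 := by
    have : (1 + e ^ 2) ^ 2 ≤ (13 / 10) ^ 2 := pow_le_pow_left₀ (by positivity) (by linarith only [k8]) 2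
    linarith only [this]
  by_contra h6
  rw [not_le] at h6
  nlinarith only [k6, k9, h6]

/-- the bound for `N_j`, `j ≥ 5` -/
theorem nj5 {l1 l h1 h2 s e A Bq C D : ℝ} (hl1 : l1 = 0 ∨ 1 ≤ l1) (hl : 3 ≤ l ^ 2) (hl0 : 0 < l)
    (hh1 : 1 ≤ h1) (hh2 : 1 ≤ h2) (hs : s = 0 ∨ 1 ≤ s) (nh : h1 ^ 2 = 1 + h2 * s)
    (he : 0 < e) (he1 : e ≤ 1) (hce : e ^ 2 + 1 = (l1 * h1 + l * h2) * e)
    (hA : l ≤ A) (hB : 0 < Bq) (hC : l ≤ C) (hD : l ≤ D)
    (hBC : l1 = 0 → C ≤ Bq ∨ (C ≤ Bq + 2 ∧ l ≤ 2 ∧ 2 ≤ h2 ^ 2)) :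
    h1 * (l ^ 2 - 1) ≤ l * (C * (l1 * h1) + D * h2 + e * (Bq - C) + A * s) := by
  have hs0 : 0 ≤ s := by rcases hs with h | h <;> linarith only [h]
  have hhs : h1 ≤ h2 + s := by
    rcases hs with h | h
    · rw [h] at nh ⊢
      have : h1 = 1 := by nlinarith only [hh1, nh]
      linarith only [hh2, this]
    · nlinarith only [hh2, nh, h, sq_nonneg (h2 - s)]
  have k1 : l * h2 ≤ D * h2 := mul_le_mul_of_nonneg_right hD (by linarith only [hh2])
  have k2 : l * s ≤ A * s := mul_le_mul_of_nonneg_right hA hs0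
  have main : 0 ≤ C * (l1 * h1) + e * (Bq - C) →
      h1 * (l ^ 2 - 1) ≤ l * (C * (l1 * h1) + D * h2 + e * (Bq - C) + A * s) := by
    intro h
    have h3 : l * h1 ≤ C * (l1 * h1) + D * h2 + e * (Bq - C) + A * s := by nlinarith only [hl0, hhs, k1, k2, h]
    have h4 := mul_le_mul_of_nonneg_left h3 hl0.le
    nlinarith only [hh1, h4]
  rcases hl1 with h | h
  · rcases hBC h with h3 | ⟨h3, h4, h5⟩
    · refine main ?_
      rw [h, zero_mul, mul_zero, zero_add]
      exact mul_nonneg he.le (by linarith only [h3])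
    · rw [h, zero_mul, mul_zero, zero_add]
      rw [h, zero_mul, zero_add] at hce
      have k3 : -(2 * e) ≤ e * (Bq - C) := by nlinarith only [he, h3]
      have k4 : l * (l * (h2 + s) - 2 * e) ≤ l * (D * h2 + e * (Bq - C) + A * s) :=
        mul_le_mul_of_nonneg_left (by nlinarith only [k1, k2, k3]) hl0.le
      refine le_trans ?_ k4
      -- `2 e l h2 = 2 (1 + e^2)`
      have k5 : (l * e) * h2 = 1 + e ^ 2 := by linarith only [hce]
      have k10 : l * e ≤ 93 / 100 := le_small he he1 hl hl0 h5 k5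
      rcases hs with h6 | h6
      · have h7 : h1 = 1 := eq_one_of_sq hh1 (by rw [nh, h6]; ring)
        rw [h6, h7]
        have h8 : 7 / 5 ≤ h2 := ge_of_two_le_sq (by linarith only [hhs, h6, h7]) h5
        have h9 : l ^ 2 * (7 / 5) ≤ l ^ 2 * h2 := mul_le_mul_of_nonneg_left h8 (by positivity)
        have h10 : l * (l * (h2 + 0) - 2 * e) = l ^ 2 * h2 - 2 * (l * e) := by ring
        rw [h10]
        linarith only [hl, k10, h9]
      · have h6' : 1 * 1 ≤ h2 * s := mul_le_mul hh2 h6 (by norm_num) (by linarith only [hh2])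
        have h7 : 2 ≤ h1 ^ 2 := by linarith only [nh, h6']
        have h8 : 7 / 5 ≤ h1 := ge_of_two_le_sq (by linarith only [hh1]) h7
        have h9 : 7 / 5 * h1 ≤ h2 + s := by
          refine le_of_sq_le_sq ?_ (by linarith only [hh1, hhs])
          have : (h2 + s) ^ 2 = (h2 - s) ^ 2 + 4 * (h2 * s) := by ring
          rw [this, mul_pow]
          have := sq_nonneg (h2 - s)
          linarith only [nh, h7, this]
        have h10 : l * (l * (h2 + s) - 2 * e) = l ^ 2 * (h2 + s) - 2 * (l * e) := by ring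
        have h11 : l ^ 2 * (7 / 5 * h1) ≤ l ^ 2 * (h2 + s) := mul_le_mul_of_nonneg_left h9 (by positivity)
        have h12 : 3 * h1 ≤ l ^ 2 * h1 := mul_le_mul_of_nonneg_right hl (by linarith only [h8])
        rw [h10]
        linarith only [k10, h8, h11, h12]
  · refine main ?_
    have h3 : e ≤ l1 * h1 := by nlinarith only [hh1, he1, h]
    have h4 : 0 ≤ C * (l1 * h1 - e) := mul_nonneg (by linarith only [hl0, hC]) (by linarith only [h3])
    have h5 : 0 ≤ e * Bq := by positivity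
    nlinarith only [h4, h5]

/-- the bound for `N_4` -/
theorem nj4 {l1 l h1 h2 s e : ℝ} (hl1 : l1 = 0 ∨ 1 ≤ l1) (hl : l ^ 2 = l + 1 ∨ 3 ≤ l ^ 2) (hl0 : 0 < l)
    (hh1 : 1 ≤ h1) (hh2 : h2 = 1 ∨ (1 ≤ h2 ∧ 2 ≤ h2 ^ 2)) (hs : s = 0 ∨ 1 ≤ s) (nh : h1 ^ 2 = 1 + h2 * s)
    (he : 0 < e) (he1 : e ≤ 1) (hce : e ^ 2 + 1 = (l1 * h1 + l * h2) * e) :
    h1 * (l ^ 2 - 1) ≤ l * (l * (l1 * h1) + h2 + e * (l * (l ^ 2 - 2) - l) + (l ^ 2 - 1) * s) := by
  have hs0 : 0 ≤ s := by rcases hs with h | h <;> linarith only [h]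
  have hh2' : 1 ≤ h2 := by rcases hh2 with h | h <;> linarith only [h]
  rcases hl with hl | hl
  · -- l^2 = l + 1
    have hlb : 1.618 < l ∧ l < 1.6181 := by constructor <;> nlinarith
    have e1 : l * (l ^ 2 - 2) - l = 1 - l := by
      have : l * (l ^ 2 - 2) - l = l * (l ^ 2) - 3 * l := by ring
      rw [this, hl]
      linear_combination hl
    have e2 : l * (e * (1 - l)) = -e := by linear_combination (-e) * hl
    have e3 : l ^ 2 - 1 = l := by linarith only [hl]
    rw [e1, e3]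
    have goal' : h1 * l ≤ l * (l * (l1 * h1)) + l * h2 - e + l * (l * s) := by
      rcases hl1 with h | h
      · rw [h, zero_mul, zero_add] at hce
        rw [h, zero_mul, mul_zero, mul_zero, zero_add]
        rcases hs with h3 | h3
        · rw [h3] at nh ⊢
          have h4 : h1 = 1 := by nlinarith only [hh1, nh]
          rw [h4]
          have k5 : (l * e) * h2 = 1 + e ^ 2 := by linarith
          -- 1/e >= l
          have k6 : l * e ≤ 1 := by
            rcases hh2 with h5 | ⟨-, h5⟩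
            · exfalso
              rw [h5, mul_one] at k5
              nlinarith only [e3, k5, sq_nonneg (1 - e)]
            · by_contra h6
              rw [not_le] at h6
              have k7 : (l * e) ^ 2 * 2 ≤ (1 + e ^ 2) ^ 2 := by
                rw [← k5]
                have : ((l * e) * h2) ^ 2 = (l * e) ^ 2 * h2 ^ 2 := by ring
                rw [this]
                exact mul_le_mul_of_nonneg_left h5 (by positivity)
              have k8 : 0.618 < e := by nlinarith only [hlb, h6]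
              have k9 : (l * e) ^ 2 = (l + 1) * e ^ 2 := by rw [mul_pow, hl]
              rw [k9] at k7
              have k10 : 0.38 < e ^ 2 := by nlinarith only [k8]
              have k11 : e ^ 2 ≤ 1 := by nlinarith only [he, he1]
              nlinarith only [h6, k7, k8, k11, mul_nonneg (by linarith only [k10] : 0 ≤ e ^ 2 - 0.38) (by linarith only [k11] : 0 ≤ 1 - e ^ 2)]
          have k7 : e * (l * h2 - e) = 1 := by linarith only [k5]
          have k8 : e * l ≤ e * (l * h2 - e) := by linarith only [k5, k6]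
          have := le_of_mul_le_mul_left k8 he
          linarith only [this]
        · have h7 : 2 ≤ h1 ^ 2 := by nlinarith only [nh, hh2', h3]
          have h8 : 1.41 ≤ h1 := by nlinarith only [hh1, h7]
          have h9 : (1.7 * h1) ^ 2 ≤ (h2 + l * s) ^ 2 := by nlinarith only [hl0, nh, e3, h7, sq_nonneg (h2 - l * s)]
          have h10 : 1.7 * h1 ≤ h2 + l * s := by
            refine le_of_sq_le_sq h9 ?_
            have := mul_nonneg hl0.le hs0
            linarith only [hh2', this]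
          nlinarith only [he1, hlb, h8, h10]
      · have h3 : h1 ≤ l1 * h1 := by nlinarith only [hh1, h]
        have h4 : l * (l * h1) ≤ l * (l * (l1 * h1)) :=
          mul_le_mul_of_nonneg_left (mul_le_mul_of_nonneg_left h3 hl0.le) hl0.le
        have h5 : 0 ≤ l * (l * s) := by positivity
        nlinarith only [hl0, hh1, he1, hs0, hh2', e3, h4]
    have : l * (l * (l1 * h1) + h2 + e * (1 - l) + l * s) =
        l * (l * (l1 * h1)) + l * h2 + l * (e * (1 - l)) + l * (l * s) := by ring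
    rw [this, e2]
    linarith only [goal']
  · -- l^2 ≥ 3
    have hE : 0 ≤ e * (l * (l ^ 2 - 2) - l) := by
      refine mul_nonneg he.le ?_
      have : l * (l ^ 2 - 2) - l = l * (l ^ 2 - 3) := by ring
      rw [this]
      exact mul_nonneg hl0.le (by linarith only [hl])
    rcases hl1 with h | h
    · rw [h, zero_mul, mul_zero, zero_add]
      rw [h, zero_mul, zero_add] at hce
      rcases hs with h3 | h3
      · rw [h3] at nh ⊢
        have h4 : h1 = 1 := by nlinarith only [hh1, nh]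
        rw [h4]
        have h5 : 0 ≤ e * (l * (h2 + e * (l * (l ^ 2 - 2) - l)) - (l ^ 2 - 1)) := by
          have h6 : e * (l * (h2 + e * (l * (l ^ 2 - 2) - l)) - (l ^ 2 - 1)) =
              (l ^ 4 - 3 * l ^ 2 + 1) * e ^ 2 - (l ^ 2 - 1) * e + 1 := by
            linear_combination (-1) * hce
          rw [h6]
          have hP : 0 < 4 * (l ^ 4 - 3 * l ^ 2 + 1) := by nlinarith only [hl]
          have h7 : 4 * (l ^ 4 - 3 * l ^ 2 + 1) * ((l ^ 4 - 3 * l ^ 2 + 1) * e ^ 2 - (l ^ 2 - 1) * e + 1) =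
              (2 * (l ^ 4 - 3 * l ^ 2 + 1) * e - (l ^ 2 - 1)) ^ 2 + (3 * l ^ 2 - 1) * (l ^ 2 - 3) := by ring
          have h8 : 0 ≤ (2 * (l ^ 4 - 3 * l ^ 2 + 1) * e - (l ^ 2 - 1)) ^ 2 + (3 * l ^ 2 - 1) * (l ^ 2 - 3) :=
            add_nonneg (sq_nonneg _) (mul_nonneg (by linarith only [hl]) (by linarith only [hl]))
          rw [← h7] at h8
          exact (mul_nonneg_iff_of_pos_left hP).1 h8
        have h6 := (mul_nonneg_iff_of_pos_left he).1 h5
        linarith only [h6]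
      · have h7 : 2 ≤ h1 ^ 2 := by nlinarith only [nh, hh2', h3]
        have h8 : (h1 * (l ^ 2 - 1)) ^ 2 ≤ (l * (h2 + (l ^ 2 - 1) * s)) ^ 2 := by
          have h9 : 4 * ((l ^ 2 - 1) * (h2 * s)) ≤ (h2 + (l ^ 2 - 1) * s) ^ 2 := by
            nlinarith only [sq_nonneg (h2 - (l ^ 2 - 1) * s)]
          have h10 : 2 * (l ^ 2 - 1) * h1 ^ 2 ≤ 4 * ((l ^ 2 - 1) * (h2 * s)) := by
            have : h2 * s = h1 ^ 2 - 1 := by linarith only [nh]
            rw [this]
            nlinarith only [hl, h7]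
          have h11 : l ^ 2 * (2 * (l ^ 2 - 1) * h1 ^ 2) ≤ l ^ 2 * (h2 + (l ^ 2 - 1) * s) ^ 2 :=
            mul_le_mul_of_nonneg_left (by linarith only [h9, h10]) (by positivity)
          have h12 : (h1 * (l ^ 2 - 1)) ^ 2 ≤ l ^ 2 * (2 * (l ^ 2 - 1) * h1 ^ 2) := by
            have : l ^ 2 * (2 * (l ^ 2 - 1) * h1 ^ 2) - (h1 * (l ^ 2 - 1)) ^ 2 =
              h1 ^ 2 * (l ^ 2 - 1) * (l ^ 2 + 1) := by ring
            have : 0 ≤ h1 ^ 2 * (l ^ 2 - 1) * (l ^ 2 + 1) :=
              mul_nonneg (mul_nonneg (by positivity) (by linarith only [hl])) (by positivity)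
            linarith only [this]
          have h13 : (l * (h2 + (l ^ 2 - 1) * s)) ^ 2 = l ^ 2 * (h2 + (l ^ 2 - 1) * s) ^ 2 := by ring
          linarith only [h11, h12]
        have h9 : h1 * (l ^ 2 - 1) ≤ l * (h2 + (l ^ 2 - 1) * s) := by
          refine le_of_sq_le_sq h8 ?_
          refine mul_nonneg hl0.le (add_nonneg (by linarith only [hh2']) (mul_nonneg (by linarith only [hl]) hs0))
        have h10 := mul_nonneg hl0.le hE
        nlinarith only [h9, h10]
    · have h3 : h1 ≤ l1 * h1 := by nlinarith only [hh1, h]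
      have h4 : l * (l * h1) ≤ l * (l * (l1 * h1)) :=
        mul_le_mul_of_nonneg_left (mul_le_mul_of_nonneg_left h3 hl0.le) hl0.le
      have h5 : 0 ≤ l * ((l ^ 2 - 1) * s) := mul_nonneg hl0.le (mul_nonneg (by linarith only [hl]) hs0)
      have h6 := mul_nonneg hl0.le hE
      nlinarith only [hl0, hh1, hh2', hE, h4, h5]

end Pool.Agent.Helper57.DY
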