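import Pool.Agent.Helper57.DY.NGr2

/-!
# Real inequalities for block (1c) of case II (MP_d13a5e_al), part 3: the explicit families
-/

set_option autoImplicit false

namespace Pool.Agent.Helper57.DY

/-- a number `r` with `r ^ 2 = 2` -/
theorem ge_r {a r : ℝ} (ha : 0 ≤ a) (hr : r ^ 2 = 2) (h : 2 ≤ a ^ 2) : r ≤ a :=
  le_of_sq_le_sq (by rw [hr]; exact h) ha

/-- `h1 ≥ e (l1 + 1)` except in one case -/
theorem h1_ge {l1 l h1 h2 e : ℝ} (hl1 : 2 ≤ l1 ^ 2) (hl10 : 0 ≤ l1) (hl : l = 1 ∨ (1 ≤ l ∧ 2 ≤ l ^ 2))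
    (hh1 : h1 = 1 ∨ (1 ≤ h1 ∧ 2 ≤ h1 ^ 2)) (hh2 : h2 = 1 ∨ (1 ≤ h2 ∧ 2 ≤ h2 ^ 2))
    (he1 : e ≤ 1) (hce : e ^ 2 + 1 = (l1 * h1 + l * h2) * e) :
    e * (l1 + 1) ≤ h1 ∨ (l = 1 ∧ h1 = 1 ∧ h2 = 1) := by
  by_cases hex : l = 1 ∧ h1 = 1 ∧ h2 = 1
  · exact Or.inr hex
  left
  have hr := Real.sq_sqrt (show (0 : ℝ) ≤ 2 by norm_num)
  have hr0 := Real.sqrt_nonneg (2 : ℝ)
  set r := Real.sqrt 2 with hrd
  have hr1 : 1.41 < r := by nlinarith only [hr, hr0]
  have hr2 : r < 1.42 := by nlinarith only [hr]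
  have a1 : r ≤ l1 := ge_r hl10 hr hl1
  have hl' : 1 ≤ l := by rcases hl with h | h <;> linarith only [h]
  have hh1' : 1 ≤ h1 := by rcases hh1 with h | h <;> linarith only [h]
  have hh2' : 1 ≤ h2 := by rcases hh2 with h | h <;> linarith only [h]
  have hlh : 1 ≤ l * h2 := by nlinarith only [hl', hh2']
  have hll : r ≤ l1 * h1 := by nlinarith only [hr1, a1, hh1']
  have hpos : 0 < l1 + 1 := by linarith only [hr1, a1]
  have key : ∀ e0 : ℝ, e0 = h1 / (l1 + 1) → 2 < l1 * h1 + l * h2 →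
      e0 ^ 2 + 1 ≤ (l1 * h1 + l * h2) * e0 → e * (l1 + 1) ≤ h1 := by
    intro e0 h3 h4 h5
    have h6 := small_root he1 h4 hce h5
    rw [h3, le_div_iff₀ hpos] at h6
    exact h6
  refine key _ rfl (by linarith only [hr1, hlh, hll]) ?_
  have h7 : (h1 / (l1 + 1)) ^ 2 + 1 ≤ (l1 * h1 + l * h2) * (h1 / (l1 + 1)) ↔
      h1 ^ 2 + (l1 + 1) ^ 2 ≤ (l1 * h1 + l * h2) * h1 * (l1 + 1) := by
    have e1 : (h1 / (l1 + 1)) ^ 2 + 1 = (h1 ^ 2 + (l1 + 1) ^ 2) / (l1 + 1) ^ 2 := by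
      field_simp
    have e2 : (l1 * h1 + l * h2) * (h1 / (l1 + 1)) =
        ((l1 * h1 + l * h2) * h1 * (l1 + 1)) / (l1 + 1) ^ 2 := by
      field_simp
    rw [e1, e2, div_le_div_iff_of_pos_right (by positivity)]
  rw [h7]
  rcases hh1 with h8 | ⟨-, h8⟩
  · rw [h8]
    have h9 : r ≤ l * h2 := by
      rcases hl with h10 | ⟨-, h10⟩
      · rcases hh2 with h11 | ⟨-, h11⟩
        · exact absurd ⟨h10, h8, h11⟩ hex
        · rw [h10, one_mul]
          exact ge_r (by linarith only [hh2']) hr h11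
      · have := ge_r (by linarith only [hl']) hr h10
        nlinarith only [hl', hh2', this]
    have h10 : (r - 1) * (r + 1) ≤ (l * h2 - 1) * (l1 + 1) :=
      mul_le_mul (by linarith only [h9]) (by linarith only [a1]) (by linarith only [hr1]) (by linarith only [hlh])
    nlinarith only [hr, h10]
  · have h9 : r ≤ h1 := ge_r (by linarith only [hh1']) hr h8
    have h10 : h1 ≤ l * h2 * h1 := by nlinarith only [hh1', hlh]
    have h11 : (l1 + 1) * (l1 * h1 ^ 2 + h1) ≤ (l1 + 1) * ((l1 * h1 + l * h2) * h1) := by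
      refine mul_le_mul_of_nonneg_left ?_ hpos.le
      nlinarith only [h10]
    have h12 : l1 * 2 ≤ l1 * h1 ^ 2 := mul_le_mul_of_nonneg_left h8 hl10
    have h13 : h1 ^ 2 + (l1 + 1) ^ 2 ≤ (l1 + 1) * (l1 * h1 ^ 2 + h1) := by
      have h14 : (l1 + 1) * (l1 * h1 ^ 2 + h1) - h1 ^ 2 - (l1 + 1) ^ 2 =
          (l1 ^ 2 + l1 - 1) * (h1 ^ 2 - 2) + (l1 + 1) * (h1 - r) + (l1 ^ 2 + r * (l1 + 1) - 3) := by ring
      have h15 : 0 ≤ (l1 ^ 2 + l1 - 1) * (h1 ^ 2 - 2) := mul_nonneg (by nlinarith only [hr1, a1]) (by linarith only [h8])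
      have h16 : 0 ≤ (l1 + 1) * (h1 - r) := mul_nonneg (by linarith only [hpos]) (by linarith only [h9])
      have h17 : 0 ≤ l1 ^ 2 + r * (l1 + 1) - 3 := by nlinarith only [hr1, a1]
      linarith only [h15, h16, h17]
    linarith only [h11, h13]

/-- `j = 2`, `a3 = 0` -/
theorem j2_zero {l1 l h1 h2 s e η g x1 : ℝ} (hl1 : l1 = 0 ∨ l1 = 1 ∨ 2 ≤ l1 ^ 2) (hl10 : 0 ≤ l1)
    (hl : l = 1 ∨ (1 ≤ l ∧ 2 ≤ l ^ 2))
    (hh1 : h1 = 1 ∨ (1 ≤ h1 ∧ 2 ≤ h1 ^ 2)) (hh2 : h2 = 1 ∨ (1 ≤ h2 ∧ 2 ≤ h2 ^ 2))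
    (nh : h1 ^ 2 = 1 + h2 * s) (he : 0 < e) (he1 : e ≤ 1) (hce : e ^ 2 + 1 = (l1 * h1 + l * h2) * e)
    (hx1 : x1 = h1 * η) (hg : 1 ≤ g) (hx : 1 ≤ x1) (hn : g ^ 2 + x1 ^ 2 - l1 * g * x1 = 1)
    (hH : h2 * e * (l * g + s * η) ≤ g - e * η) (zx : l1 * g - x1 = 0 ∨ 1 ≤ l1 * g - x1)
    (zg : 1 ≤ l1 * g - x1 → (l1 * (l1 * g - x1) - g = 0 ∨ 1 ≤ l1 * (l1 * g - x1) - g)) :
    1 ≤ g - e * η ∨ (l = 1 ∧ h1 = 1 ∧ h2 = 1 ∧ g = l1 ∧ x1 = l1 ^ 2 - 1) := by
  have hl' : 1 ≤ l := by rcases hl with h | h <;> linarith only [h]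
  have hh1' : 1 ≤ h1 := by rcases hh1 with h | h <;> linarith only [h]
  have hh2' : 1 ≤ h2 := by rcases hh2 with h | h <;> linarith only [h]
  have k1 : e * g ≤ h1 * (l1 * g - x1) := by
    have h3 : e * (e * g) ≤ e * (h1 * (l1 * g - x1)) := by
      have h4 : e * (h1 * (l1 * g - x1)) - e * (e * g) = g - e * η - h2 * e * (l * g + s * η) := by
        rw [hx1]
        linear_combination (-g) * hce - e * η * nh
      linarith only [hH, h4]
    exact le_of_mul_le_mul_left h3 he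
  have k2 : 1 ≤ l1 * g - x1 := by
    rcases zx with h | h
    · rw [h, mul_zero] at k1
      have : 0 < e * g := by positivity
      linarith only [k1, this]
    · exact h
  have k3 : x1 * (l1 * g - x1) = g ^ 2 - 1 := by linarith
  -- it is enough to have `h1 x^ ≥ e (g + 1)`
  have fin : e * (g + 1) ≤ h1 * (l1 * g - x1) → 1 ≤ g - e * η := by
    intro h
    have h3 : x1 * (e * (g + 1)) ≤ x1 * (h1 * (l1 * g - x1)) := mul_le_mul_of_nonneg_left h (by linarith only [hx])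
    have h4 : x1 * (h1 * (l1 * g - x1)) = h1 * (g - 1) * (g + 1) := by
      linear_combination h1 * k3
    have h5 : (x1 * e) * (g + 1) ≤ (h1 * (g - 1)) * (g + 1) := by rw [← h4]; linarith only [h3]
    have h6 := le_of_mul_le_mul_right h5 (by linarith only [hg])
    rw [hx1] at h6
    have h7 : h1 * (e * η) ≤ h1 * (g - 1) := by linarith only [h6]
    have h8 := le_of_mul_le_mul_left h7 (by linarith only [hh1'])
    linarith only [h8]
  have hl1' : 0 < l1 := by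
    rcases hl10.lt_or_eq with h | h
    · exact h
    · rw [← h] at k2
      linarith only [hx, k2]
  have hl11 : 1 ≤ l1 := by
    rcases hl1 with h | h | h
    · linarith only [hl1', h]
    · linarith only [h]
    · nlinarith only [hl1', h]
  rcases zg k2 with h | h
  · -- g = l1 x^
    have h3 : (l1 * g - x1) ^ 2 = 1 := by
      have : (l1 * g - x1) ^ 2 = g ^ 2 + x1 ^ 2 - l1 * g * x1 + (l1 * g - x1) * l1 * g - g ^ 2 := by ring
      rw [this, hn]
      linear_combination g * h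
    have h4 : l1 * g - x1 = 1 := eq_one_of_sq k2 h3
    rw [h4, mul_one] at h
    have hg1 : g = l1 := by linarith only [h]
    have hx1' : x1 = l1 ^ 2 - 1 := by rw [hg1] at h4; linarith only [h4]
    have h5 : 2 ≤ l1 ^ 2 := by linarith only [hx, hx1']
    rcases h1_ge h5 hl10 hl hh1 hh2 he1 hce with h6 | ⟨h6, h7, h8⟩
    · left
      refine fin ?_
      rw [h4, hg1, mul_one]
      exact h6
    · exact Or.inr ⟨h6, h7, h8, hg1, hx1'⟩
  · left
    refine fin ?_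
    have h3 : e * l1 ≤ h1 := by
      by_contra h4
      rw [not_le] at h4
      have h5 : h1 * h1 < (e * l1) * h1 := mul_lt_mul_of_pos_right h4 (by linarith only [hh1'])
      have h6 : 1 ≤ l * h2 := by nlinarith only [hl', hh2']
      have h7 : e * 1 ≤ e * (l * h2) := mul_le_mul_of_nonneg_left h6 he.le
      nlinarith only [he, he1, hce, hh1', h5, h7]
    have h4 : (e * l1) * (g + 1) ≤ h1 * (g + 1) := mul_le_mul_of_nonneg_right h3 (by linarith only [hg])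
    have h5 : h1 * (g + 1) ≤ h1 * (l1 * (l1 * g - x1)) :=
      mul_le_mul_of_nonneg_left (by linarith only [h]) (by linarith only [hh1'])
    have h6 : l1 * (e * (g + 1)) ≤ l1 * (h1 * (l1 * g - x1)) := by linarith only [h4, h5]
    exact le_of_mul_le_mul_left h6 hl1'

/-- `l1 ≥ (l + 1) e` except in one case (`h = (1, h2)`) -/
theorem l1_ge {l1 l h2 e : ℝ} (hl1 : l1 = 1 ∨ (1 ≤ l1 ∧ 2 ≤ l1 ^ 2)) (hl : 2 ≤ l ^ 2) (hl0 : 0 ≤ l)
    (hh2 : h2 = 1 ∨ (1 ≤ h2 ∧ 2 ≤ h2 ^ 2))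
    (he1 : e ≤ 1) (hce : e ^ 2 + 1 = (l1 + l * h2) * e) :
    (l + 1) * e ≤ l1 ∨ (l1 = 1 ∧ h2 = 1) := by
  by_cases hex : l1 = 1 ∧ h2 = 1
  · exact Or.inr hex
  left
  have hr := Real.sq_sqrt (show (0 : ℝ) ≤ 2 by norm_num)
  have hr0 := Real.sqrt_nonneg (2 : ℝ)
  set r := Real.sqrt 2 with hrd
  have hr1 : 1.41 < r := by nlinarith only [hr, hr0]
  have hr2 : r < 1.42 := by nlinarith only [hr]
  have a1 : r ≤ l := ge_r hl0 hr hl
  have hl1' : 1 ≤ l1 := by rcases hl1 with h | h <;> linarith only [h]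
  have hh2' : 1 ≤ h2 := by rcases hh2 with h | h <;> linarith only [h]
  have hlh : l ≤ l * h2 := by nlinarith only [hr1, a1, hh2']
  have hpos : 0 < l + 1 := by linarith only [hr1, a1]
  have h7 : (l1 / (l + 1)) ^ 2 + 1 ≤ (l1 + l * h2) * (l1 / (l + 1)) ↔
      l1 ^ 2 + (l + 1) ^ 2 ≤ (l1 + l * h2) * l1 * (l + 1) := by
    have e1 : (l1 / (l + 1)) ^ 2 + 1 = (l1 ^ 2 + (l + 1) ^ 2) / (l + 1) ^ 2 := by
      field_simp
    have e2 : (l1 + l * h2) * (l1 / (l + 1)) = ((l1 + l * h2) * l1 * (l + 1)) / (l + 1) ^ 2 := by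
      field_simp
    rw [e1, e2, div_le_div_iff_of_pos_right (by positivity)]
  have key : l1 ^ 2 + (l + 1) ^ 2 ≤ (l1 + l * h2) * l1 * (l + 1) → (l + 1) * e ≤ l1 := by
    intro h
    have h6 := small_root he1 (by linarith only [hr1, a1, hl1', hlh]) hce (h7.2 h)
    rw [le_div_iff₀ hpos] at h6
    linarith only [h6]
  refine key ?_
  rcases hl1 with h8 | ⟨-, h8⟩
  · rcases hh2 with h9 | ⟨-, h9⟩
    · exact absurd ⟨h8, h9⟩ hex
    · have h10 := ge_r (by linarith only [hh2']) hr h9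
      rw [h8]
      have h11 : l * r ≤ l * h2 := mul_le_mul_of_nonneg_left h10 hl0
      have h12 : (l * r) * (l + 1) ≤ (l * h2) * (l + 1) := mul_le_mul_of_nonneg_right h11 hpos.le
      have h13 : 1 ≤ (r - 1) * (l * (l + 1)) := by
        have h14 : 2 + r ≤ l * (l + 1) := by nlinarith only [hr, hr0, a1]
        have h15 : (r - 1) * (2 + r) ≤ (r - 1) * (l * (l + 1)) :=
          mul_le_mul_of_nonneg_left h14 (by linarith only [hr1])
        nlinarith only [hl, hr1, a1]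
      nlinarith only [h12, h13]
  · have h9 := ge_r (by linarith only [hl1']) hr h8
    have h10 : (l1 + l) * l1 * (l + 1) ≤ (l1 + l * h2) * l1 * (l + 1) := by
      refine mul_le_mul_of_nonneg_right (mul_le_mul_of_nonneg_right (by linarith only [hlh]) (by linarith only [hl1'])) hpos.le
    have h11 : l1 ^ 2 + (l + 1) ^ 2 ≤ (l1 + l) * l1 * (l + 1) := by
      have h12 : (l1 + l) * l1 * (l + 1) - l1 ^ 2 - (l + 1) ^ 2 =
        l * (l1 ^ 2 - 2) + l * (l + 1) * (l1 - r) + (r * l * (l + 1) - l ^ 2 - 1) := by ring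
      have h13 : 0 ≤ l * (l1 ^ 2 - 2) := mul_nonneg hl0 (by linarith only [h8])
      have h14 : 0 ≤ l * (l + 1) * (l1 - r) := mul_nonneg (by positivity) (by linarith only [h9])
      have h15 : 0 ≤ r * l * (l + 1) - l ^ 2 - 1 := by nlinarith only [hr1, a1]
      linarith only [h13, h14, h15]
    linarith only [h10, h11]

/-- the case `l1 = 0`, `s = 0` of `a4 = 0` -/
theorem dz {l lO e x1 y X : ℝ} (hl : 2 ≤ l ^ 2) (hl0 : 0 < l) (he : 0 < e) (he1 : e ≤ 1)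
    (hce : 1 + e ^ 2 = l * lO * e) (hlO : 0 < lO) (hy : lO ≤ y) (hX : X = lO * y - x1)
    (hn : x1 * X = y ^ 2 - 1) (hH : l * e * y ≤ X) (hy' : y + 1 ≤ lO * X) : e * (y + 1) ≤ X := by
  by_contra hcon
  rw [not_le] at hcon
  have hy0 : 0 < y := by linarith only [hlO, hy]
  have h1 : 1 < lO * e := by
    have h2 : (y + 1) * 1 < (y + 1) * (lO * e) := by
      have := mul_lt_mul_of_pos_left hcon hlO
      linarith only [hy', this]
    exact lt_of_mul_lt_mul_left h2 (by linarith only [hy0])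
  have h2 : l < 1 + e ^ 2 := by
    rw [hce]
    nlinarith only [hce, h1]
  have hl1 : 7 / 5 ≤ l := by nlinarith only [hl, hl0]
  have h3 : lO * y ≤ 2 * (l * e * y) := by
    have h4 : lO ≤ 2 * (l * e) := by
      have h5 : (l * e) * lO ≤ (l * e) * (2 * (l * e)) := by
        have : (l * e) * lO = 1 + e ^ 2 := by linarith only [hce]
        rw [this]
        have h6 : 0 ≤ e ^ 2 * (2 * l ^ 2 - 1) - 1 := by
          have h7 : (l - 1) * (2 * l ^ 2 - 1) ≤ e ^ 2 * (2 * l ^ 2 - 1) :=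
            mul_le_mul_of_nonneg_right (by linarith only [h2]) (by linarith only [hl])
          nlinarith only [hl1, h7]
        nlinarith only [h6]
      exact le_of_mul_le_mul_left h5 (mul_pos hl0 he)
    nlinarith only [hy0, h4]
  have h4 : y ^ 2 - 1 ≤ (l * e * y) * (lO * y - l * e * y) := by
    have h5 : (l * e * y) * (lO * y - l * e * y) - (y ^ 2 - 1) = (X - l * e * y) * (X + l * e * y - lO * y) := by
      rw [← hn]
      have : x1 = lO * y - X := by linarith only [hX]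
      rw [this]
      ring
    have h6 : 0 ≤ (X - l * e * y) * (X + l * e * y - lO * y) := mul_nonneg (by linarith only [hH]) (by linarith only [hH, h3])
    linarith only [h5, h6]
  have h5 : y ^ 2 * ((l ^ 2 - 1) * e ^ 2) ≤ 1 := by
    have h6 : (l * e * y) * (lO * y - l * e * y) = y ^ 2 * (1 + e ^ 2 - l ^ 2 * e ^ 2) := by
      have : (l * e * y) * (lO * y - l * e * y) = y ^ 2 * (l * lO * e - l ^ 2 * e ^ 2) := by ring
      rw [this, ← hce]
    rw [h6] at h4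
    nlinarith only [h4]
  have h6 : lO ^ 2 * ((l ^ 2 - 1) * e ^ 2) ≤ 1 := by
    have h7 : lO ^ 2 ≤ y ^ 2 := pow_le_pow_left₀ hlO.le hy 2
    have h8 : 0 ≤ (l ^ 2 - 1) * e ^ 2 := mul_nonneg (by linarith only [hl]) (sq_nonneg e)
    have := mul_le_mul_of_nonneg_right h7 h8
    linarith only [h5, this]
  have h7 : (1 + e ^ 2) ^ 2 * (l ^ 2 - 1) ≤ l ^ 2 := by
    rw [hce]
    have : (l * lO * e) ^ 2 * (l ^ 2 - 1) = l ^ 2 * (lO ^ 2 * ((l ^ 2 - 1) * e ^ 2)) := by ring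
    rw [this]
    have := mul_le_mul_of_nonneg_left h6 (sq_nonneg l)
    linarith only [this]
  have h8 : l ^ 2 < (1 + e ^ 2) ^ 2 := by nlinarith only [h2, hl1]
  have h9 : l ^ 2 * (l ^ 2 - 1) < (1 + e ^ 2) ^ 2 * (l ^ 2 - 1) :=
    mul_lt_mul_of_pos_right h8 (by linarith only [hl])
  nlinarith only [hl, h7, h9]

end Pool.Agent.Helper57.DY
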