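import Pool.Agent.Helper57.DY.NGr3
import Pool.Agent.Helper57.DY.NGr

/-!
# Real inequalities for block (1c) of case II (MP_d13a5e_al), part 4
-/

set_option autoImplicit false

namespace Pool.Agent.Helper57.DY

/-- `j = 3`, `a4 = 0`, `y = 1` -/
theorem j3_y1 {l1 l lO h1 h2 s e η x1 : ℝ} (hl1 : l1 = 0 ∨ l1 = 1 ∨ (1 ≤ l1 ∧ 2 ≤ l1 ^ 2))
    (hl : 2 ≤ l ^ 2) (hl0 : 0 < l) (hh1 : 1 ≤ h1) (hh2 : h2 = 1 ∨ (1 ≤ h2 ∧ 2 ≤ h2 ^ 2))
    (hs : s = 0 ∨ 1 ≤ s) (nh : h1 ^ 2 = 1 + h2 * s) (hlO : lO * h1 = h2 + s)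
    (he : 0 < e) (he1 : e ≤ 1) (hce : e ^ 2 + 1 = (l1 * h1 + l * h2) * e)
    (hx1 : x1 = h1 * η) (hX : lO - x1 = 0) (hw : 0 ≤ 1 - (l * e + s) * η) :
    l + 1 ≤ (l1 * x1 + l * 1 - e * η) + (1 - (l * e + s) * η) ∨
      (l1 = 1 ∧ h1 = 1 ∧ h2 = 1 ∧ x1 = 1) := by
  have hh2' : 1 ≤ h2 := by rcases hh2 with h | h <;> linarith
  have hs0 : 0 ≤ s := by rcases hs with h | h <;> linarith
  have hxl : x1 = lO := by linarith
  -- h1 ≥ (l e + s) lO
  have k1 : (l * e + s) * lO ≤ h1 := by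
    have h3 : (l * e + s) * (h1 * η) ≤ h1 * 1 := by
      have := mul_le_mul_of_nonneg_left hw (by linarith : 0 ≤ h1)
      linarith
    rw [← hx1, hxl] at h3
    linarith
  have k2 : (l * e + s) * (h2 + s) ≤ 1 + h2 * s := by
    rw [← nh, ← hlO]
    have := mul_le_mul_of_nonneg_right k1 (by linarith : 0 ≤ h1)
    nlinarith
  have hle : 0 < l * e := mul_pos hl0 he
  have hs' : s = 0 := by
    rcases hs with h | h
    · exact h
    · exfalso
      nlinarith [mul_pos hle (by linarith : 0 < h2 + s)]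
  rw [hs'] at k2 nh hlO
  have hh11 : h1 = 1 := eq_one_of_sq hh1 (by rw [nh]; ring)
  rw [hh11] at hce hlO hx1
  have hlO2 : lO = h2 := by linarith
  have k3 : l * e * h2 ≤ 1 := by linarith
  have k4 : e ≤ l1 := by
    have h3 : e * e ≤ l1 * e := by nlinarith
    exact le_of_mul_le_mul_right h3 he
  have hl1' : l1 = 1 ∨ (1 ≤ l1 ∧ 2 ≤ l1 ^ 2) := by
    rcases hl1 with h | h | h
    · exfalso
      linarith
    · exact Or.inl h
    · exact Or.inr h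
  rcases l1_ge hl1' hl hl0.le hh2 he1 (by rw [hce]; ring) with h | ⟨h, h'⟩
  · left
    have hη2 : η = h2 := by rw [← hlO2, ← hxl]; linarith
    rw [hs', hxl, hlO2, hη2]
    have := mul_le_mul_of_nonneg_right h (by linarith : 0 ≤ h2)
    linarith
  · right
    exact ⟨h, hh11, h', by rw [hxl, hlO2, h']⟩

/-- `j = 3`, `a4 = 0`, `l1 ≥ 1`, `y ^ 2 ≥ 2` -/
theorem j3_l1 {l1 l h1 h2 s e η x1 y : ℝ} (hl1 : 1 ≤ l1)
    (hl : 2 ≤ l ^ 2) (hl0 : 0 < l) (hh1 : 1 ≤ h1) (hh2 : 1 ≤ h2) (he : 0 < e) (he1 : e ≤ 1)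
    (hce : e ^ 2 + 1 = (l1 * h1 + l * h2) * e)
    (hx1 : x1 = h1 * η) (hx : 1 ≤ x1) (hη : 0 < η) (hy0 : 0 ≤ y) (hy2 : 2 ≤ y ^ 2)
    (hw : 0 ≤ y - (l * e + s) * η) :
    l + 1 ≤ (l1 * x1 + l * y - e * η) + (y - (l * e + s) * η) := by
  obtain ⟨r, hr, hr0⟩ : ∃ r : ℝ, r ^ 2 = 2 ∧ 0 ≤ r :=
    ⟨_, Real.sq_sqrt (show (0 : ℝ) ≤ 2 by norm_num), Real.sqrt_nonneg (2 : ℝ)⟩
  have hr1 : 1.41 < r := by nlinarith
  have hr2 : r < 1.42 := by nlinarith
  have hlr : r ≤ l := ge_r hl0.le hr hl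
  have hyr : r ≤ y := ge_r hy0 hr hy2
  have hm : 1 + r ≤ l1 * h1 + l * h2 := by
    have a1 : 1 ≤ l1 * h1 := by nlinarith
    have a2 : r ≤ l * h2 := by nlinarith
    linarith
  have he2 : e ≤ 2 - r := by
    refine small_root (m := l1 * h1 + l * h2) he1 (by linarith) hce ?_
    have := mul_le_mul_of_nonneg_right hm (by linarith : 0 ≤ 2 - r)
    nlinarith
  have k1 : r * (r - 1) ≤ l * (y - 1) := mul_le_mul hlr (by linarith) (by linarith) hl0.le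
  have k2 : e * η ≤ e * x1 := by
    rw [hx1]
    refine mul_le_mul_of_nonneg_left ?_ he.le
    nlinarith
  have k3 : 1 * (l1 - e) ≤ x1 * (l1 - e) := mul_le_mul_of_nonneg_right hx (by linarith)
  have k4 : r * (r - 1) = 2 - r := by linarith
  rw [k4] at k1
  have k5 : (l1 * x1 + l * y - e * η) + (y - (l * e + s) * η) - (l + 1) =
      (l * (y - 1)) + x1 * (l1 - e) + (e * x1 - e * η) + (y - (l * e + s) * η) - 1 := by ring
  linarith

/-- `(H)` for `l1 = 0`, `a4 = 0` -/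
theorem j3_H {l lO h1 h2 s e η x1 y : ℝ} (nh : h1 ^ 2 = 1 + h2 * s) (hlO : lO * h1 = h2 + s)
    (he : 0 < e) (hce : e ^ 2 + 1 = l * h2 * e) (hx1 : x1 = h1 * η)
    (hH : h2 * e * (l * (l * y - e * η) - (y - (l * e + s) * η)) ≤ l * y - e * η) :
    y * (s + l * e) ≤ h1 * (lO * y - x1) := by
  have h3 : e * (y * (s + l * e)) ≤ e * (h1 * (lO * y - x1)) := by
    have h4 : e * (h1 * (lO * y - x1)) - e * (y * (s + l * e)) =
        (l * y - e * η) - h2 * e * (l * (l * y - e * η) - (y - (l * e + s) * η)) := by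
      rw [hx1]
      linear_combination (e * y) * hlO - (e * η) * nh - (l * y) * hce
    linarith
  exact le_of_mul_le_mul_left h3 he

/-- `j = 3`, `a4 = 0`, `l1 = 0`, `s = 0` -/
theorem j3_s0 {l lO h2 e x1 y : ℝ} (hl : 2 ≤ l ^ 2) (hl0 : 0 < l) (hlO : lO = h2) (hlO0 : 0 < lO)
    (he : 0 < e) (he1 : e ≤ 1) (hce : e ^ 2 + 1 = l * h2 * e) (hx : 1 ≤ x1)
    (hn : x1 ^ 2 + y ^ 2 - lO * x1 * y = 1) (hy1 : 1 ≤ y) (hX : 1 ≤ lO * y - x1)
    (z1 : 0 ≤ lO * x1 - y)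
    (z2 : lO * (lO * y - x1) - y = 0 ∨ 1 ≤ lO * (lO * y - x1) - y)
    (k1 : y * (l * e) ≤ lO * y - x1) : e * x1 ≤ y - 1 := by
  obtain ⟨X, hXd⟩ : ∃ X, X = lO * y - x1 := ⟨_, rfl⟩
  rw [← hXd] at hX z2 k1
  have hXn : x1 * X = y ^ 2 - 1 := by rw [hXd]; linarith
  rcases z2 with h4 | h4
  · exfalso
    have h5 : X ^ 2 = 1 := by
      have : X ^ 2 = x1 ^ 2 + y ^ 2 - lO * x1 * y + y * (lO * X - y) := by rw [hXd]; ring
      rw [this, hn, h4, mul_zero, add_zero]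
    have h6 : X = 1 := eq_one_of_sq hX h5
    rw [h6, mul_one] at h4
    have h7 : y = h2 := by linarith
    rw [h6, h7] at k1
    have : 0 < e ^ 2 := by positivity
    linarith
  · have hylO : lO ≤ y := by
      have h5 : 0 ≤ y ^ 2 - lO ^ 2 := by
        have h6 : y ^ 2 - lO ^ 2 = (lO * x1 - y) * (lO * X - y) := by
          rw [hXd]
          linear_combination (lO ^ 2) * hn
        rw [h6]
        exact mul_nonneg z1 (by linarith)
      exact le_of_sq_le_sq (by linarith) (by linarith)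
    have h5 := dz (x1 := x1) hl hl0 he he1 (by rw [hlO]; linarith) hlO0 hylO hXd hXn
      (by linarith) (by linarith)
    have h6 : (e * x1) * (y + 1) ≤ (y - 1) * (y + 1) := by
      have h7 := mul_le_mul_of_nonneg_left h5 (by linarith : 0 ≤ x1)
      linarith
    exact le_of_mul_le_mul_right h6 (by linarith)

/-- `j = 3`, `a4 = 0`, `l1 = 0`, `s ≥ 1` -/
theorem j3_s1 {l lO h1 s e η x1 y : ℝ} (hl : 2 ≤ l ^ 2) (hl0 : 0 < l) (hh1 : 1 ≤ h1)
    (he : 0 < e) (he1 : e ≤ 1) (hx1 : x1 = h1 * η) (hx : 1 ≤ x1)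
    (hn : x1 ^ 2 + y ^ 2 - lO * x1 * y = 1) (hy1 : 1 ≤ y) (hy2 : 2 ≤ y ^ 2) (hs : 1 ≤ s)
    (k1 : y * (s + l * e) ≤ h1 * (lO * y - x1)) : η * ((l + 1) * e + s) ≤ (l + 1) * (y - 1) := by
  obtain ⟨r, hr, hr0⟩ : ∃ r : ℝ, r ^ 2 = 2 ∧ 0 ≤ r :=
    ⟨_, Real.sq_sqrt (show (0 : ℝ) ≤ 2 by norm_num), Real.sqrt_nonneg (2 : ℝ)⟩
  have hr1 : 1.41 < r := by nlinarith
  have hr2 : r < 1.42 := by nlinarith
  have hlr : r ≤ l := ge_r hl0.le hr hl
  have hyr : r ≤ y := ge_r (by linarith) hr hy2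
  have k2 : h1 * (y - 1) * (y + 1) = x1 * (h1 * (lO * y - x1)) := by
    linear_combination h1 * hn
  have k3 : ((l + 1) * e + s) * (y + 1) ≤ (l + 1) * (y * (s + l * e)) := by
    have h4 : 0 ≤ r * s * (l - r) := mul_nonneg (mul_nonneg hr0 (by linarith)) (by linarith)
    have h5 : 0 ≤ (y - r) * (l * s) := mul_nonneg (by linarith) (mul_nonneg hl0.le (by linarith))
    have h6 : 0 ≤ (y - r) * ((l ^ 2 - 1) * e) :=
      mul_nonneg (by linarith) (mul_nonneg (by linarith) he.le)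
    have h7 : (l + 1) * (1 - r * (l - 1)) ≤ 1 := by nlinarith
    have h8 : (l + 1) * (1 - r * (l - 1)) * e ≤ 1 * e := mul_le_mul_of_nonneg_right h7 he.le
    have h9 : (l + 1) * (y * (s + l * e)) - ((l + 1) * e + s) * (y + 1) =
      (y - r) * (l * s) + (y - r) * ((l ^ 2 - 1) * e) + r * s * (l - r) + (r ^ 2 - 1) * s -
        (l + 1) * (1 - r * (l - 1)) * e := by ring
    rw [hr] at h9
    linarith
  have k4 : x1 * (((l + 1) * e + s) * (y + 1)) ≤ (l + 1) * (h1 * (y - 1) * (y + 1)) := by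
    rw [k2]
    have h4 := mul_le_mul_of_nonneg_left k1 (by linarith : 0 ≤ x1)
    have h5 := mul_le_mul_of_nonneg_left h4 (by linarith : 0 ≤ l + 1)
    have h6 := mul_le_mul_of_nonneg_left k3 (by linarith : 0 ≤ x1)
    linarith
  rw [hx1] at k4
  have k5 : (h1 * (y + 1)) * (η * ((l + 1) * e + s)) ≤ (h1 * (y + 1)) * ((l + 1) * (y - 1)) := by
    linarith
  exact le_of_mul_le_mul_left k5 (mul_pos (by linarith) (by linarith))

/-- `j = 3`, `a4 = 0` -/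
theorem j3_zero4 {l1 l lO h1 h2 s e η x1 y : ℝ} (hl1 : l1 = 0 ∨ l1 = 1 ∨ (1 ≤ l1 ∧ 2 ≤ l1 ^ 2))
    (hl : 2 ≤ l ^ 2) (hl0 : 0 < l) (hh1 : 1 ≤ h1) (hh2 : h2 = 1 ∨ (1 ≤ h2 ∧ 2 ≤ h2 ^ 2))
    (hs : s = 0 ∨ 1 ≤ s) (nh : h1 ^ 2 = 1 + h2 * s) (hlO : lO * h1 = h2 + s) (hlO0 : 0 < lO)
    (he : 0 < e) (he1 : e ≤ 1) (hce : e ^ 2 + 1 = (l1 * h1 + l * h2) * e)
    (hx1 : x1 = h1 * η) (hx : 1 ≤ x1) (hn : x1 ^ 2 + y ^ 2 - lO * x1 * y = 1)
    (zy : y = 0 ∨ 1 ≤ y) (zX : 1 ≤ y → (lO * y - x1 = 0 ∨ 1 ≤ lO * y - x1))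
    (z1 : 0 ≤ lO * x1 - y)
    (z2 : 1 ≤ lO * y - x1 → (lO * (lO * y - x1) - y = 0 ∨ 1 ≤ lO * (lO * y - x1) - y))
    (hw : 0 ≤ y - (l * e + s) * η)
    (hH : h2 * e * (l * (l1 * x1 + l * y - e * η) - (y - (l * e + s) * η)) ≤ l1 * x1 + l * y - e * η) :
    l + 1 ≤ (l1 * x1 + l * y - e * η) + (y - (l * e + s) * η) ∨
      (l1 = 1 ∧ h1 = 1 ∧ h2 = 1 ∧ x1 = 1 ∧ y = 1) := by
  have hh2' : 1 ≤ h2 := by rcases hh2 with h | h <;> linarith
  have hs0 : 0 ≤ s := by rcases hs with h | h <;> linarith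
  have hη : 0 < η := by
    have : 0 < h1 * η := by rw [← hx1]; linarith
    exact (mul_pos_iff_of_pos_left (by linarith)).1 this
  have hles : 0 < (l * e + s) * η := mul_pos (by positivity) hη
  have hy1 : 1 ≤ y := by
    rcases zy with h | h
    · rw [h] at hw
      linarith
    · exact h
  rcases zX hy1 with hX | hX
  · have hy2 : y ^ 2 = 1 := by
      have : x1 ^ 2 + y ^ 2 - lO * x1 * y = y ^ 2 - x1 * (lO * y - x1) := by ring
      rw [this, hX, mul_zero, sub_zero] at hn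
      exact hn
    have hy : y = 1 := eq_one_of_sq hy1 hy2
    rw [hy] at hX hw ⊢
    rw [mul_one] at hX
    rcases j3_y1 hl1 hl hl0 hh1 hh2 hs nh hlO he he1 hce hx1 hX hw with h | ⟨h, ha, hb, hc⟩
    · exact Or.inl h
    · exact Or.inr ⟨h, ha, hb, hc, rfl⟩
  · left
    have hXn : x1 * (lO * y - x1) = y ^ 2 - 1 := by linarith
    have hy2 : 2 ≤ y ^ 2 := by
      have := mul_le_mul hx hX (by norm_num) (by linarith)
      linarith
    rcases hl1 with h | h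
    · rw [h, zero_mul, zero_add] at hH
      rw [h, zero_mul, zero_add] at hce
      rw [h, zero_mul, zero_add]
      have k1 := j3_H nh hlO he hce hx1 hH
      rcases hs with h3 | h3
      · rw [h3] at nh hlO k1
        have hh11 : h1 = 1 := eq_one_of_sq hh1 (by rw [nh]; ring)
        rw [hh11] at hlO k1 hx1
        have k2 := j3_s0 hl hl0 (by linarith) hlO0 he he1 hce hx hn hy1 hX z1 (z2 hX) (by linarith)
        have h8 : η = x1 := by linarith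
        rw [h3, h8]
        have h9 := mul_le_mul_of_nonneg_left k2 (by linarith : 0 ≤ l + 1)
        linarith
      · have k2 := j3_s1 hl hl0 hh1 he he1 hx1 hx hn hy1 hy2 h3 k1
        linarith
    · have hl1' : 1 ≤ l1 := by rcases h with h | h <;> linarith
      exact j3_l1 hl1' hl hl0 hh1 hh2' he he1 hce hx1 hx hη (by linarith) hy2 hw

theorem c1_one {l1 l h1 h2 s e : ℝ} (hl1 : 1 ≤ l1) (hl : 2 ≤ l ^ 2) (hl0 : 0 < l)
    (hh1 : 1 ≤ h1) (hh2 : 1 ≤ h2) (hs0 : 0 ≤ s) (he : 0 < e) (he1 : e ≤ 1)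
    (hce : e ^ 2 + 1 = (l1 * h1 + l * h2) * e) :
    l * e ≤ l1 * h1 + l * s + (l ^ 2 - 2) * e ∧
      0 ≤ (l + 2) * (l1 * h1 + l * s + (l ^ 2 - 2) * e) + e - (l + 1) * ((l * e + s - h2) + l * e) ∧
      0 ≤ l * (l1 * h1 + l * s + (l ^ 2 - 2) * e) - (l * e + s - h2) ∧
      0 < l1 * h1 + l * s + (l ^ 2 - 2) * e + e := by
  have hle : 0 < l * e := mul_pos hl0 he
  have hle2 : l * e ≤ (l * e) * h2 := by nlinarith
  have hl3 : 2 * (l * e) ≤ l ^ 3 * e := by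
    have : l ^ 3 * e = l ^ 2 * (l * e) := by ring
    rw [this]
    exact mul_le_mul_of_nonneg_right hl hle.le
  have hls : 0 ≤ l * s := by positivity
  have hE : 0 ≤ (l ^ 2 - 2) * e := mul_nonneg (by linarith) he.le
  have hS2 : 0 ≤ (l ^ 2 - 1) * s := mul_nonneg (by linarith) hs0
  have h3 : 1 ≤ l1 * h1 := by nlinarith
  have h4 : l * e ≤ 1 := by
    have a1 : (l * e) * h2 = 1 + e ^ 2 - (l1 * h1) * e := by linarith
    have a2 : 1 * e ≤ (l1 * h1) * e := mul_le_mul_of_nonneg_right h3 he.le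
    have a3 : e ^ 2 ≤ e := by nlinarith
    linarith
  have h5 : l * 1 ≤ l * (l1 * h1) := mul_le_mul_of_nonneg_left h3 hl0.le
  have h6 : l ≤ l * h2 := by nlinarith
  refine ⟨by linarith, ?_, ?_, ?_⟩
  · have e1 : (l + 2) * (l1 * h1 + l * s + (l ^ 2 - 2) * e) + e - (l + 1) * ((l * e + s - h2) + l * e) =
        l * (l1 * h1) + 2 * (l1 * h1) + l * s + (l ^ 2 - 1) * s + l * h2 + h2 + l ^ 3 * e -
          4 * (l * e) - 3 * e := by ring
    rw [e1]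
    have : 1 ≤ l := by nlinarith
    linarith
  · have e1 : l * (l1 * h1 + l * s + (l ^ 2 - 2) * e) - (l * e + s - h2) =
        l * (l1 * h1) + (l ^ 2 - 1) * s + h2 + l ^ 3 * e - 3 * (l * e) := by ring
    rw [e1]
    linarith
  · linarith

theorem c1_s {l h1 h2 s e : ℝ} (hl : 2 ≤ l ^ 2) (hl0 : 0 < l)
    (hh2 : 1 ≤ h2) (hs : 1 ≤ s) (he : 0 < e) (he1 : e ≤ 1)
    (hce : e ^ 2 + 1 = (0 * h1 + l * h2) * e) :
    l * e ≤ 0 * h1 + l * s + (l ^ 2 - 2) * e ∧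
      0 ≤ (l + 2) * (0 * h1 + l * s + (l ^ 2 - 2) * e) + e - (l + 1) * ((l * e + s - h2) + l * e) ∧
      0 ≤ l * (0 * h1 + l * s + (l ^ 2 - 2) * e) - (l * e + s - h2) ∧
      0 < 0 * h1 + l * s + (l ^ 2 - 2) * e + e := by
  have hle : 0 < l * e := mul_pos hl0 he
  have hle2 : l * e ≤ (l * e) * h2 := by nlinarith
  have hl3 : 2 * (l * e) ≤ l ^ 3 * e := by
    have : l ^ 3 * e = l ^ 2 * (l * e) := by ring
    rw [this]
    exact mul_le_mul_of_nonneg_right hl hle.le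
  have hls : 0 ≤ l * s := by positivity
  have hE : 0 ≤ (l ^ 2 - 2) * e := mul_nonneg (by linarith) he.le
  have hS2 : 0 ≤ (l ^ 2 - 1) * s := mul_nonneg (by linarith) (by linarith)
  rw [zero_mul, zero_add] at hce ⊢
  have h3 : (l * e) * h2 = 1 + e ^ 2 := by linarith
  have h4 : 2 ≤ l * h2 := by
    have : 2 * e ≤ (l * h2) * e := by nlinarith [sq_nonneg (1 - e)]
    exact le_of_mul_le_mul_right this he
  have h5 : l ≤ l * s := by nlinarith
  have h6 : l * e ≤ l := by nlinarith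
  have h7 : l ^ 2 - 1 ≤ (l ^ 2 - 1) * s := by nlinarith
  refine ⟨by linarith, ?_, ?_, ?_⟩
  · have e1 : (l + 2) * (l * s + (l ^ 2 - 2) * e) + e - (l + 1) * ((l * e + s - h2) + l * e) =
        l * s + (l ^ 2 - 1) * s + (l + 1) * h2 - e * (4 * l + 3 - l ^ 3) := by ring
    rw [e1]
    rcases le_or_gt (4 * l + 3 - l ^ 3) 0 with h8 | h8
    · have h9 := mul_nonpos_of_nonneg_of_nonpos he.le h8
      have h10 : 0 ≤ (l + 1) * h2 := by positivity
      linarith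
    · have h9 : e * (4 * l + 3 - l ^ 3) ≤ 1 * (4 * l + 3 - l ^ 3) :=
        mul_le_mul_of_nonneg_right he1 h8.le
      have h10 : 0 ≤ l * (l + (l ^ 2 - 1) + (l + 1) * h2 - (4 * l + 3 - l ^ 3)) := by
        have h11 : l * (l + (l ^ 2 - 1) + (l + 1) * h2 - (4 * l + 3 - l ^ 3)) =
          (l ^ 2 - 2) * (l ^ 2 + l - 1) + (l + 1) * (l * h2 - 2) := by ring
        rw [h11]
        exact add_nonneg (mul_nonneg (by linarith) (by linarith)) (mul_nonneg (by linarith) (by linarith))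
      have h11 := (mul_nonneg_iff_of_pos_left hl0).1 h10
      linarith
  · have e1 : l * (l * s + (l ^ 2 - 2) * e) - (l * e + s - h2) =
        (l ^ 2 - 1) * s + h2 + l ^ 3 * e - 3 * (l * e) := by ring
    rw [e1]
    have : e ^ 2 ≤ 1 := by nlinarith
    linarith
  · linarith

end Pool.Agent.Helper57.DY
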